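import Mathlib

/-!
Divergence of the sum of reciprocals of the primes in a residue class, and of the primes `p`
modulo which a given non-square integer is a non-residue.
-/

namespace Pool.Agent.H12

open Finset ArithmeticFunction ArithmeticFunction.vonMangoldt

/-- `1/n` on the primes of a residue class -/
noncomputable def pc {q : ℕ} (a : ZMod q) (n : ℕ) : ℝ :=
  if n.Prime ∧ (n : ZMod q) = a then 1 else 0

lemma pc_nonneg {q : ℕ} (a : ZMod q) (n : ℕ) : 0 ≤ pc a n := by
  unfold pc; split_ifs <;> norm_num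

theorem not_summable_prime_class {q : ℕ} [NeZero q] {a : ZMod q} (ha : IsUnit a) :
    ¬ Summable (fun n : ℕ => pc a n / n) := by
  intro H
  set B := ∑' n : ℕ, pc a n / n with hB
  have hB0 : 0 ≤ B := tsum_nonneg fun n => by
    have := pc_nonneg a n; positivity
  -- summability for exponents > 1
  have hle : ∀ {x : ℝ}, 1 ≤ x → ∀ n : ℕ, pc a n / (n:ℝ)^x ≤ pc a n / n := by
    intro x hx n
    rcases n.eq_zero_or_pos with rfl | hn
    · simp [pc, Nat.not_prime_zero]
    · refine div_le_div_of_nonneg_left (pc_nonneg a n) (by exact_mod_cast hn) ?_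
      conv_lhs => rw [← Real.rpow_one (n:ℝ)]
      exact Real.rpow_le_rpow_of_exponent_le (by exact_mod_cast hn) hx
  have hsum : ∀ {x : ℝ}, 1 ≤ x → Summable (fun n : ℕ => pc a n / (n:ℝ)^x) := by
    intro x hx
    refine Summable.of_nonneg_of_le (fun n => ?_) (hle hx) H
    have := pc_nonneg a n; positivity
  set f : ℝ → ℝ := fun x => ∑' n : ℕ, pc a n / (n:ℝ)^x with hf
  have hfB : ∀ {x : ℝ}, 1 ≤ x → f x ≤ B := fun hx => (hsum hx).tsum_le_tsum (hle hx) H
  have hf0 : ∀ x : ℝ, 0 ≤ f x := fun x => tsum_nonneg fun n => by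
    have := pc_nonneg a n; positivity
  -- lower bound for the prime part
  obtain ⟨C, hC⟩ := LSeries_residueClass_lower_bound ha
  set E := ∑' n : ℕ, (if n.Prime then 0 else residueClass a n) / (n:ℝ) with hE
  have hEs := summable_residueClass_non_primes_div a
  have hprime : ∀ {x : ℝ}, x ∈ Set.Ioc (1:ℝ) 2 →
      (q.totient : ℝ)⁻¹ / (x - 1) - C - E ≤ ∑' n : ℕ, pc a n * Real.log n / (n:ℝ)^x := by
    intro x hx
    have hs1 : Summable (fun n : ℕ => residueClass a n / (n:ℝ)^x) :=
      LSeries.summable_real_of_abscissaOfAbsConv_lt <|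
        (abscissaOfAbsConv_residueClass_le_one a).trans_lt <| mod_cast hx.1
    have hs2 : Summable (fun n : ℕ => (if n.Prime then 0 else residueClass a n) / (n:ℝ)^x) := by
      refine Summable.of_nonneg_of_le (fun n => ?_) (fun n => ?_) hs1
      · have := residueClass_nonneg a n
        split_ifs <;> positivity
      · have := residueClass_nonneg a n
        refine div_le_div_of_nonneg_right ?_ (by positivity)
        split_ifs
        · exact this
        · exact le_rfl
    have hs3 : Summable (fun n : ℕ => (if n.Prime then residueClass a n else 0) / (n:ℝ)^x) := by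
      refine Summable.of_nonneg_of_le (fun n => ?_) (fun n => ?_) hs1
      · have := residueClass_nonneg a n
        split_ifs <;> positivity
      · have := residueClass_nonneg a n
        refine div_le_div_of_nonneg_right ?_ (by positivity)
        split_ifs
        · exact le_rfl
        · exact this
    have e1 : ∑' n : ℕ, residueClass a n / (n:ℝ)^x =
        ∑' n : ℕ, (if n.Prime then 0 else residueClass a n) / (n:ℝ)^x +
        ∑' n : ℕ, (if n.Prime then residueClass a n else 0) / (n:ℝ)^x := by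
      rw [← hs2.tsum_add hs3]
      refine tsum_congr fun n => ?_
      split_ifs <;> simp
    have e2 : ∑' n : ℕ, (if n.Prime then 0 else residueClass a n) / (n:ℝ)^x ≤ E := by
      refine hs2.tsum_le_tsum (fun n => ?_) hEs
      rcases n.eq_zero_or_pos with rfl | hn
      · simp
      · refine div_le_div_of_nonneg_left ?_ (by exact_mod_cast hn) ?_
        · have := residueClass_nonneg a n
          split_ifs
          · exact le_rfl
          · exact this
        · conv_lhs => rw [← Real.rpow_one (n:ℝ)]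
          exact Real.rpow_le_rpow_of_exponent_le (by exact_mod_cast hn) hx.1.le
    have e3 : ∑' n : ℕ, (if n.Prime then residueClass a n else 0) / (n:ℝ)^x =
        ∑' n : ℕ, pc a n * Real.log n / (n:ℝ)^x := by
      refine tsum_congr fun n => ?_
      congr 1
      unfold pc residueClass
      by_cases hn : n.Prime
      · by_cases hna : (n : ZMod q) = a
        · simp [hn, hna, Set.indicator, vonMangoldt_apply_prime hn]
        · simp [hn, hna, Set.indicator]
      · simp [hn]
    have := hC hx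
    rw [← e3]
    linarith
  -- increments
  set c := (q.totient : ℝ)⁻¹ with hc
  have hc0 : 0 < c := inv_pos.mpr (mod_cast q.totient.pos_of_neZero)
  set C' := |C + E| with hC'
  have hstep : ∀ j : ℕ, f (1 + (1/2)^(j+1)) - f (1 + (1/2)^j) ≥ c/2 - C' * (1/2)^(j+1) := by
    intro j
    have hp1 : (0:ℝ) < (1/2)^j := by positivity
    have hp2 : ((1:ℝ)/2)^j ≤ 1 := pow_le_one₀ (by norm_num) (by norm_num)
    have hx : (1 + (1/2:ℝ)^j) ∈ Set.Ioc (1:ℝ) 2 := ⟨by linarith, by linarith⟩
    have h1 := hprime hx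
    have hpos : (0:ℝ) < (1/2)^(j+1) := by positivity
    have hhalf : ((1:ℝ)/2)^(j+1) = (1/2)^j / 2 := by rw [pow_succ]; ring
    have hterm : ∀ n : ℕ, (1/2:ℝ)^(j+1) * (pc a n * Real.log n / (n:ℝ)^(1 + (1/2:ℝ)^j)) ≤
        pc a n / (n:ℝ)^(1 + (1/2:ℝ)^(j+1)) - pc a n / (n:ℝ)^(1 + (1/2:ℝ)^j) := by
      intro n
      unfold pc
      by_cases hn : n.Prime ∧ (n : ZMod q) = a
      · rw [if_pos hn]
        have hn0 : (0:ℝ) < n := by exact_mod_cast hn.1.pos
        have e1 : (n:ℝ)^(1 + (1/2:ℝ)^j) = (n:ℝ)^(1 + (1/2:ℝ)^(j+1)) *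
            Real.exp (Real.log n * (1/2)^(j+1)) := by
          rw [← Real.rpow_def_of_pos hn0, ← Real.rpow_add hn0]
          congr 1
          rw [hhalf]; ring
        have hA : (0:ℝ) < (n:ℝ)^(1 + (1/2:ℝ)^(j+1)) := Real.rpow_pos_of_pos hn0 _
        have hex := Real.add_one_le_exp (Real.log n * (1/2)^(j+1))
        have hex0 := Real.exp_pos (Real.log n * (1/2)^(j+1))
        rw [e1]
        rw [div_sub_div _ _ hA.ne' (by positivity), one_mul, mul_one,
          mul_div_assoc', div_le_div_iff₀ (by positivity) (by positivity)]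
        set A := (n:ℝ)^(1 + (1/2:ℝ)^(j+1))
        set X := Real.exp (Real.log n * (1/2)^(j+1))
        have : (1/2:ℝ)^(j+1) * Real.log n ≤ X - 1 := by linarith
        have h9 := mul_le_mul_of_nonneg_right this (show (0:ℝ) ≤ A * (A * X) by positivity)
        nlinarith [h9]
      · rw [if_neg hn]; simp
    have hs1 : Summable (fun n : ℕ => pc a n / (n:ℝ)^(1 + (1/2:ℝ)^(j+1))) := hsum (by linarith)
    have hs2 : Summable (fun n : ℕ => pc a n / (n:ℝ)^(1 + (1/2:ℝ)^j)) := hsum (by linarith)
    have hs3 : Summable (fun n : ℕ =>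
        (1/2:ℝ)^(j+1) * (pc a n * Real.log n / (n:ℝ)^(1 + (1/2:ℝ)^j))) := by
      refine Summable.of_nonneg_of_le (fun n => ?_) hterm (hs1.sub hs2)
      have := pc_nonneg a n
      have := Real.log_natCast_nonneg n
      positivity
    have h2 := hs3.tsum_le_tsum hterm (hs1.sub hs2)
    rw [tsum_mul_left, hs1.tsum_sub hs2] at h2
    change _ ≤ f (1 + (1/2)^(j+1)) - f (1 + (1/2)^j) at h2
    have h3 : (1/2:ℝ)^(j+1) * (c / ((1 + (1/2:ℝ)^j) - 1) - C - E) ≤
        (1/2:ℝ)^(j+1) * ∑' n : ℕ, pc a n * Real.log n / (n:ℝ)^(1 + (1/2:ℝ)^j) :=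
      mul_le_mul_of_nonneg_left h1 hpos.le
    have h4 : (1/2:ℝ)^(j+1) * (c / ((1 + (1/2:ℝ)^j) - 1) - C - E) =
        c/2 - (C + E) * (1/2)^(j+1) := by
      rw [add_sub_cancel_left, hhalf]
      field_simp
      ring
    have h5 : (C + E) * (1/2:ℝ)^(j+1) ≤ C' * (1/2)^(j+1) :=
      mul_le_mul_of_nonneg_right (le_abs_self _) hpos.le
    linarith
  have hsumJ : ∀ J : ℕ, f (1 + (1/2)^J) ≥ c/2 * J - C' * (1 - (1/2)^J) := by
    intro J
    induction J with
    | zero => simp; exact hf0 _
    | succ J ih =>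
      have h1 := hstep J
      push_cast
      have h2 : ((1:ℝ)/2)^J = 2 * (1/2)^(J+1) := by rw [pow_succ]; ring
      rw [h2] at ih
      rw [h2] at h1
      linarith
  have hJ : ∀ J : ℕ, c/2 * J ≤ B + C' := by
    intro J
    have h1 := hsumJ J
    have hp : (0:ℝ) < (1/2)^J := by positivity
    have h2 : f (1 + (1/2)^J) ≤ B := hfB (by linarith)
    have h3 : 0 ≤ C' := abs_nonneg _
    nlinarith
  obtain ⟨J, hJ'⟩ := exists_nat_gt ((B + C') / (c/2))
  rw [div_lt_iff₀ (by positivity)] at hJ'
  have := hJ J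
  linarith

end Pool.Agent.H12
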