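import Mathlib
import Pool.Agent.H12.PrimeClass

/-!
For a non-square integer `D` the primes modulo which `D` is a non-residue have divergent
reciprocal sum.
-/

namespace Pool.Agent.H12

open Finset NumberTheorySymbols

/-- an odd non-square natural number is a non-residue symbol for some `b ≡ 1 mod 8` -/
lemma exists_b_odd (m : ℕ) (hm : Odd m) (hsq : ¬ IsSquare m) :
    ∃ b : ℕ, b % 8 = 1 ∧ Nat.Coprime b m ∧ J(m | b) = -1 := by
  have hm0 : m ≠ 0 := by rintro rfl; exact hsq ⟨0, rfl⟩
  -- a prime with odd exponent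
  obtain ⟨q, hq, hodd⟩ : ∃ q : ℕ, q.Prime ∧ Odd (m.factorization q) := by
    by_contra hcon
    push Not at hcon
    apply hsq
    refine ⟨∏ p ∈ m.primeFactors, p ^ (m.factorization p / 2), ?_⟩
    rw [← prod_mul_distrib]
    conv_lhs => rw [← Nat.factorization_prod_pow_eq_self hm0]
    rw [Finsupp.prod, Nat.support_factorization]
    refine prod_congr rfl fun p hp => ?_
    have h1 := hcon p (Nat.prime_of_mem_primeFactors hp)
    rw [Nat.not_odd_iff_even] at h1
    rw [← pow_add]
    congr 1
    obtain ⟨c, hc⟩ := h1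
    omega
  have hqm : q ∣ m := by
    by_contra h
    rw [Nat.factorization_eq_zero_of_not_dvd h] at hodd
    simp at hodd
  have hq2 : q ≠ 2 := by
    rintro rfl
    have := hm.not_two_dvd_nat
    exact this hqm
  set f := m.factorization q with hf
  set R := m / q ^ f with hR
  have hmR : m = q ^ f * R := (Nat.mul_div_cancel' (Nat.ordProj_dvd m q)).symm
  have hqR : ¬ q ∣ R := Nat.not_dvd_ordCompl hq hm0
  have hRodd : Odd R := by
    rw [hmR, Nat.odd_mul] at hm
    exact hm.2
  have hqodd : Odd q := hq.odd_of_ne_two hq2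
  have : Fact q.Prime := ⟨hq⟩
  -- non residue
  obtain ⟨u, hu⟩ := FiniteField.exists_nonsquare (F := ZMod q) (by
    rw [ZMod.ringChar_zmod_n]; exact hq2)
  have hcop : Nat.Coprime (8 * R) q := by
    refine Nat.Coprime.mul_left ?_ ?_
    · have : Nat.Coprime (2^3) q := Nat.Coprime.pow_left 3
        ((Nat.coprime_primes Nat.prime_two hq).mpr hq2.symm)
      simpa using this
    · exact ((Nat.Prime.coprime_iff_not_dvd hq).mpr hqR).symm
  obtain ⟨b, hb1, hb2⟩ := Nat.chineseRemainder hcop 1 u.val
  have hb8 : b % 8 = 1 := by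
    have : b ≡ 1 [MOD 8] := hb1.of_dvd ⟨R, rfl⟩
    exact this
  have hbR : b ≡ 1 [MOD R] := hb1.of_dvd ⟨8, by ring⟩
  have hbq : ((b : ℕ) : ZMod q) = u := by
    have := (ZMod.natCast_eq_natCast_iff _ _ _).mpr hb2
    rw [this, ZMod.natCast_zmod_val]
  have hbodd : Odd b := by
    rw [Nat.odd_iff]; omega
  have hb4 : b % 4 = 1 := by omega
  have hu0 : u ≠ 0 := by
    rintro rfl; exact hu IsSquare.zero
  have J1 : J(q | b) = -1 := by
    rw [jacobiSym.quadratic_reciprocity_one_mod_four' hqodd hb4,
      ← jacobiSym.legendreSym.to_jacobiSym, legendreSym.eq_neg_one_iff]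
    push_cast
    rw [hbq]; exact hu
  have J2 : J(R | b) = 1 := by
    rw [jacobiSym.quadratic_reciprocity_one_mod_four' hRodd hb4]
    have : ((b:ℕ):ℤ) % (R:ℤ) = (1:ℤ) % (R:ℤ) := by
      have h1 : ((b % R : ℕ) : ℤ) = ((1 % R : ℕ) : ℤ) := by
        have : b % R = 1 % R := hbR
        rw [this]
      push_cast at h1
      exact h1
    rw [jacobiSym.mod_left' this, jacobiSym.one_left]
  have hJ : J(m | b) = -1 := by
    rw [hmR]
    push_cast
    rw [jacobiSym.mul_left, jacobiSym.pow_left, J1, J2, hodd.neg_one_pow, mul_one]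
  refine ⟨b, hb8, ?_, hJ⟩
  by_contra hcon
  have : J(m | b) = 0 := by
    rw [jacobiSym.eq_zero_iff]
    refine ⟨by omega, ?_⟩
    rw [Int.gcd_natCast_natCast, Nat.gcd_comm]
    exact hcon
  rw [this] at hJ
  norm_num at hJ

lemma exists_b (D : ℤ) (hD : ¬ IsSquare D) :
    ∃ b : ℕ, Odd b ∧ J(D | b) = -1 := by
  have hD0 : D ≠ 0 := by rintro rfl; exact hD ⟨0, rfl⟩
  have hn0 : D.natAbs ≠ 0 := Int.natAbs_ne_zero.mpr hD0
  obtain ⟨e, m, hm, hem⟩ := Nat.exists_eq_two_pow_mul_odd hn0
  -- D = σ 2^e m
  have hσ : D = D.sign * (2^e * m : ℕ) := by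
    rw [← hem]; exact (Int.sign_mul_natAbs D).symm
  have hs : D.sign = 1 ∨ D.sign = -1 := by
    rcases lt_trichotomy D 0 with h | h | h
    · right; exact Int.sign_eq_neg_one_of_neg h
    · exact absurd h hD0
    · left; exact Int.sign_eq_one_of_pos h
  by_cases hsq : IsSquare m
  · obtain ⟨r, hr⟩ := hsq
    have hrodd : Odd r := by
      rw [hr, Nat.odd_mul] at hm; exact hm.1
    have hcop : Nat.Coprime 8 r := by
      have : Nat.Coprime (2^3) r := Nat.Coprime.pow_left 3 (Nat.coprime_two_left.mpr hrodd)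
      simpa using this
    -- generic: b ≡ t mod 8, b ≡ 1 mod r
    have gen : ∀ t : ℕ, ∃ b : ℕ, b ≡ t [MOD 8] ∧ b ≡ 1 [MOD r] := fun t => by
      obtain ⟨b, h1, h2⟩ := Nat.chineseRemainder hcop t 1
      exact ⟨b, h1, h2⟩
    have Jr : ∀ b : ℕ, Odd b → b ≡ 1 [MOD r] → J((m : ℕ) | b) = 1 := by
      intro b hb hbr
      rw [hr]
      push_cast
      rw [jacobiSym.mul_left]
      have hg : ((r:ℕ):ℤ).gcd b = 1 := by
        rw [Int.gcd_natCast_natCast, Nat.gcd_comm, hbr.gcd_eq, Nat.gcd_comm]; simp
      have := jacobiSym.sq_one hg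
      rw [sq] at this; exact this
    by_cases he : Odd e
    · obtain ⟨b, h1, h2⟩ := gen 5
      have hb8 : b % 8 = 5 := h1
      have hbo : Odd b := by rw [Nat.odd_iff]; omega
      refine ⟨b, hbo, ?_⟩
      rw [hσ]
      push_cast
      rw [jacobiSym.mul_left, jacobiSym.mul_left, jacobiSym.pow_left, jacobiSym.at_two hbo,
        Jr b hbo h2, mul_one]
      have h8 : ZMod.χ₈ (b : ZMod 8) = -1 := by
        have : ((b : ℕ) : ZMod 8) = 5 := by
          have := (ZMod.natCast_eq_natCast_iff b 5 8).mpr h1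
          rw [this]; rfl
        rw [this]; decide
      rw [h8, he.neg_one_pow]
      have hJs : J(D.sign | b) = 1 := by
        rcases hs with h | h <;> rw [h]
        · exact jacobiSym.one_left b
        · rw [jacobiSym.at_neg_one hbo]
          have : ((b : ℕ) : ZMod 4) = 1 := by
            have hb4 : b ≡ 1 [MOD 4] := by
              have : b % 4 = 1 := by omega
              exact this
            have := (ZMod.natCast_eq_natCast_iff b 1 4).mpr hb4
            rw [this]; rfl
          rw [this]; decide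
      rw [hJs]; norm_num
    · have he' : Even e := Nat.not_odd_iff_even.mp he
      have hneg : D.sign = -1 := by
        rcases hs with h | h
        · exfalso
          apply hD
          obtain ⟨c, hc⟩ := he'
          refine ⟨(2^c * r : ℕ), ?_⟩
          rw [hσ, h, hr, hc]
          push_cast
          ring
        · exact h
      obtain ⟨b, h1, h2⟩ := gen 7
      have hb8 : b % 8 = 7 := h1
      have hbo : Odd b := by rw [Nat.odd_iff]; omega
      refine ⟨b, hbo, ?_⟩
      rw [hσ, hneg]
      push_cast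
      rw [jacobiSym.mul_left, jacobiSym.mul_left, jacobiSym.pow_left, jacobiSym.at_two hbo,
        Jr b hbo h2, mul_one, jacobiSym.at_neg_one hbo]
      have h8 : ZMod.χ₈ (b : ZMod 8) = 1 := by
        have : ((b : ℕ) : ZMod 8) = 7 := by
          have := (ZMod.natCast_eq_natCast_iff b 7 8).mpr h1
          rw [this]; rfl
        rw [this]; decide
      have h4 : ZMod.χ₄ (b : ZMod 4) = -1 := by
        have : ((b : ℕ) : ZMod 4) = 3 := by
          have hb4 : b ≡ 3 [MOD 4] := by
            have : b % 4 = 3 := by omega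
            exact this
          have := (ZMod.natCast_eq_natCast_iff b 3 4).mpr hb4
          rw [this]; rfl
        rw [this]; decide
      rw [h8, h4, one_pow, mul_one]
  · obtain ⟨b, hb8, hcop, hJ⟩ := exists_b_odd m hm hsq
    have hbo : Odd b := by rw [Nat.odd_iff]; omega
    refine ⟨b, hbo, ?_⟩
    rw [hσ]
    push_cast
    rw [jacobiSym.mul_left, jacobiSym.mul_left, jacobiSym.pow_left, jacobiSym.at_two hbo, hJ]
    have h8 : ZMod.χ₈ (b : ZMod 8) = 1 := by
      have : ((b : ℕ) : ZMod 8) = 1 := by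
        have h1 : b ≡ 1 [MOD 8] := hb8
        have := (ZMod.natCast_eq_natCast_iff b 1 8).mpr h1
        rw [this]; rfl
      rw [this]; decide
    rw [h8, one_pow, one_mul]
    have hJs : J(D.sign | b) = 1 := by
      rcases hs with h | h <;> rw [h]
      · exact jacobiSym.one_left b
      · rw [jacobiSym.at_neg_one hbo]
        have : ((b : ℕ) : ZMod 4) = 1 := by
          have hb4 : b ≡ 1 [MOD 4] := by
            have : b % 4 = 1 := by omega
            exact this
          have := (ZMod.natCast_eq_natCast_iff b 1 4).mpr hb4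
          rw [this]; rfl
        rw [this]; decide
    rw [hJs]; norm_num

/-- finite sets of primes with large reciprocal sum modulo which `D` is a non-residue -/
lemma exists_primes_nonres (D : ℤ) (hD : ¬ IsSquare D) (C : ℝ) :
    ∃ P : Finset ℕ, (∀ p ∈ P, p.Prime ∧ ¬ IsSquare (D : ZMod p)) ∧
      C < ∑ p ∈ P, (1:ℝ)/p := by
  obtain ⟨b, hbo, hJ⟩ := exists_b D hD
  have hD0 : D ≠ 0 := by rintro rfl; exact hD ⟨0, rfl⟩
  set q := 4 * D.natAbs with hq
  have hq0 : q ≠ 0 := by
    have := Int.natAbs_ne_zero.mpr hD0; omega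
  have : NeZero q := ⟨hq0⟩
  have hcop : Nat.Coprime b q := by
    rw [hq]
    refine Nat.Coprime.mul_right ?_ ?_
    · have : Nat.Coprime b (2^2) := Nat.Coprime.pow_right 2 (Nat.coprime_two_right.mpr hbo)
      simpa using this
    · by_contra hcon
      have : J(D | b) = 0 := by
        rw [jacobiSym.eq_zero_iff]
        refine ⟨by have := hbo.pos; omega, ?_⟩
        intro h
        apply hcon
        rw [Nat.coprime_comm]
        have h2 : D.gcd b = Nat.gcd D.natAbs b := by
          rw [Int.gcd_eq_natAbs_gcd_natAbs]; simp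
        rw [h2] at h
        exact h
      rw [this] at hJ; norm_num at hJ
  have ha : IsUnit ((b : ℕ) : ZMod q) := (ZMod.isUnit_iff_coprime b q).mpr hcop
  have hns := not_summable_prime_class ha
  obtain ⟨u, hu⟩ : ∃ u : Finset ℕ, C < ∑ n ∈ u, pc ((b : ℕ) : ZMod q) n / n := by
    by_contra hcon
    push Not at hcon
    exact hns (summable_of_sum_le (fun n => by have := pc_nonneg ((b : ℕ) : ZMod q) n; positivity)
      hcon)
  classical
  refine ⟨u.filter (fun n => n.Prime ∧ (n : ZMod q) = ((b : ℕ) : ZMod q)), ?_, ?_⟩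
  · intro p hp
    rw [mem_filter] at hp
    obtain ⟨-, hpp, hpb⟩ := hp
    refine ⟨hpp, ?_⟩
    have : Fact p.Prime := ⟨hpp⟩
    have hmod : p ≡ b [MOD q] := (ZMod.natCast_eq_natCast_iff _ _ _).mp hpb
    have hpo : Odd p := by
      have h2 : p ≡ b [MOD 2] := hmod.of_dvd ⟨2 * D.natAbs, by rw [hq]; ring⟩
      rw [Nat.odd_iff] at hbo ⊢
      unfold Nat.ModEq at h2
      omega
    have hJp : J(D | p) = -1 := by
      rw [jacobiSym.mod_right D hpo, ← hq]
      have : p % q = b % q := hmod
      rw [this, hq, ← jacobiSym.mod_right D hbo, hJ]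
    exact (ZMod.nonsquare_iff_jacobiSym_eq_neg_one).mp hJp
  · refine lt_of_lt_of_le hu (le_of_eq ?_)
    rw [sum_filter]
    refine sum_congr rfl fun n _ => ?_
    unfold pc
    split_ifs <;> simp

end Pool.Agent.H12
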