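import Mathlib

/-!
Brun's pure sieve in abstract form.
-/

namespace Pool.Agent.H12

open Finset

set_option linter.unusedSectionVars false

variable {ι : Type*} [DecidableEq ι]

/-- elementary symmetric function of the numbers `δ p`, `p ∈ P` -/
noncomputable def esym (P : Finset ι) (δ : ι → ℝ) (j : ℕ) : ℝ :=
  ∑ D ∈ P.powersetCard j, ∏ p ∈ D, δ p

lemma esym_zero (P : Finset ι) (δ : ι → ℝ) : esym P δ 0 = 1 := by
  simp [esym]

lemma esym_empty_succ (δ : ι → ℝ) (j : ℕ) : esym (∅ : Finset ι) δ (j+1) = 0 := by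
  unfold esym
  rw [powersetCard_eq_empty.mpr (by simp)]
  simp

lemma esym_insert (P : Finset ι) (δ : ι → ℝ) (j : ℕ) (q : ι) (hq : q ∉ P) :
    esym (insert q P) δ (j+1) = esym P δ (j+1) + δ q * esym P δ j := by
  unfold esym
  rw [powersetCard_succ_insert hq, sum_union]
  · congr 1
    rw [sum_image]
    · rw [mul_sum]
      refine sum_congr rfl fun D hD => ?_
      rw [mem_powersetCard] at hD
      rw [prod_insert (fun h => hq (hD.1 h))]
    · intro D hD D' hD' h
      rw [mem_coe, mem_powersetCard] at hD hD'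
      have h1 : (insert q D).erase q = (insert q D').erase q := by rw [h]
      rwa [erase_insert (fun h => hq (hD.1 h)), erase_insert (fun h => hq (hD'.1 h))] at h1
  · rw [disjoint_left]
    intro D hD hD'
    rw [mem_powersetCard] at hD
    rw [mem_image] at hD'
    obtain ⟨D', -, rfl⟩ := hD'
    exact hq (hD.1 (mem_insert_self q D'))

lemma esym_nonneg (P : Finset ι) (δ : ι → ℝ) (hδ : ∀ p ∈ P, 0 ≤ δ p) (j : ℕ) :
    0 ≤ esym P δ j := by
  unfold esym
  refine sum_nonneg fun D hD => prod_nonneg fun p hp => ?_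
  rw [mem_powersetCard] at hD
  exact hδ p (hD.1 hp)

/-- truncated inclusion-exclusion sum -/
noncomputable def tsum' (P : Finset ι) (δ : ι → ℝ) (r : ℕ) : ℝ :=
  ∑ j ∈ range (r+1), (-1)^j * esym P δ j

lemma tsum'_zero (P : Finset ι) (δ : ι → ℝ) : tsum' P δ 0 = 1 := by
  simp [tsum', esym_zero]

lemma tsum'_insert (P : Finset ι) (δ : ι → ℝ) (r : ℕ) (q : ι) (hq : q ∉ P) :
    tsum' (insert q P) δ (r+1) = tsum' P δ (r+1) - δ q * tsum' P δ r := by
  unfold tsum'
  rw [sum_range_succ' _ (r+1), sum_range_succ' _ (r+1)]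
  simp only [esym_zero, esym_insert P δ _ q hq]
  rw [mul_sum]
  have : ∑ k ∈ range (r+1), (-1:ℝ)^(k+1) * (esym P δ (k+1) + δ q * esym P δ k) =
      ∑ k ∈ range (r+1), (-1:ℝ)^(k+1) * esym P δ (k+1) -
      ∑ k ∈ range (r+1), δ q * ((-1)^k * esym P δ k) := by
    rw [← sum_sub_distrib]
    refine sum_congr rfl fun k _ => ?_
    ring
  rw [this]
  ring

/-- Bonferroni inequalities -/
lemma bonferroni (P : Finset ι) (δ : ι → ℝ) (hδ : ∀ p ∈ P, 0 ≤ δ p ∧ δ p ≤ 1) (r : ℕ) :
    0 ≤ (-1)^r * (tsum' P δ r - ∏ p ∈ P, (1 - δ p)) ∧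
      (-1)^r * (tsum' P δ r - ∏ p ∈ P, (1 - δ p)) ≤ esym P δ (r+1) := by
  induction P using Finset.induction_on generalizing r with
  | empty =>
    rw [esym_empty_succ]
    have : tsum' (∅ : Finset ι) δ r = 1 := by
      unfold tsum'
      rw [sum_range_succ' _ r, esym_zero]
      simp [esym_empty_succ]
    rw [this]; simp
  | insert q P hq ih =>
    have hq' := hδ q (mem_insert_self q P)
    have hδ' : ∀ p ∈ P, 0 ≤ δ p ∧ δ p ≤ 1 := fun p hp => hδ p (mem_insert_of_mem hp)
    have hprod0 : 0 ≤ ∏ p ∈ P, (1 - δ p) := prod_nonneg fun p hp => by linarith [(hδ' p hp).2]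
    have hprod1 : ∏ p ∈ P, (1 - δ p) ≤ 1 := prod_le_one
      (fun p hp => by linarith [(hδ' p hp).2]) (fun p hp => by linarith [(hδ' p hp).1])
    rw [prod_insert hq, esym_insert P δ r q hq]
    cases r with
    | zero =>
      have h := ih hδ' 0
      rw [tsum'_zero] at h ⊢
      rw [esym_zero]
      simp only [pow_zero, one_mul, zero_add] at h ⊢
      constructor
      · nlinarith
      · nlinarith
    | succ r =>
      have h1 := ih hδ' (r+1)
      have h2 := ih hδ' r
      rw [tsum'_insert P δ r q hq]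
      have e : (-1:ℝ)^(r+1) * (tsum' P δ (r+1) - δ q * tsum' P δ r -
          (1 - δ q) * ∏ p ∈ P, (1 - δ p)) =
          (-1)^(r+1) * (tsum' P δ (r+1) - ∏ p ∈ P, (1 - δ p)) +
          δ q * ((-1)^r * (tsum' P δ r - ∏ p ∈ P, (1 - δ p))) := by ring
      rw [e]
      constructor
      · have := mul_nonneg hq'.1 h2.1
        linarith [h1.1]
      · have := mul_le_mul_of_nonneg_left h2.2 hq'.1
        linarith [h1.2]

lemma esym_le (P : Finset ι) (δ : ι → ℝ) (hδ : ∀ p ∈ P, 0 ≤ δ p) (j : ℕ) :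
    esym P δ j ≤ (∑ p ∈ P, δ p)^j / (j.factorial : ℝ) := by
  induction P using Finset.induction_on generalizing j with
  | empty =>
    cases j with
    | zero => simp [esym_zero]
    | succ j => rw [esym_empty_succ]; simp
  | insert q P hq ih =>
    have hq' := hδ q (mem_insert_self q P)
    have hδ' : ∀ p ∈ P, 0 ≤ δ p := fun p hp => hδ p (mem_insert_of_mem hp)
    cases j with
    | zero => simp [esym_zero]
    | succ j =>
      rw [esym_insert P δ j q hq, sum_insert hq]
      have h1 := ih hδ' (j+1)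
      have h2 := mul_le_mul_of_nonneg_left (ih hδ' j) hq'
      set s := ∑ p ∈ P, δ p with hs
      have hs0 : 0 ≤ s := sum_nonneg hδ'
      refine (add_le_add h1 h2).trans ?_
      have hf : ((j+1).factorial : ℝ) = (j+1) * (j.factorial : ℝ) := by
        rw [Nat.factorial_succ]; push_cast; ring
      have hf0 : (0:ℝ) < (j.factorial : ℝ) := by exact_mod_cast Nat.factorial_pos j
      rw [hf]
      have key : s^(j+1) + (j+1) * (δ q * s^j) ≤ (δ q + s)^(j+1) := by
        have hb : ∀ n : ℕ, s^(n+1) + (n+1) * (δ q * s^n) ≤ (δ q + s)^(n+1) := by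
          intro n
          induction n with
          | zero => simp; linarith
          | succ n ihn =>
            have h3 : (δ q + s)^(n+1+1) = (δ q + s)^(n+1) * (δ q + s) := by ring
            rw [h3]
            have h4 := mul_le_mul_of_nonneg_right ihn (show 0 ≤ δ q + s by linarith)
            refine le_trans ?_ h4
            have e : (s^(n+1) + (n+1) * (δ q * s^n)) * (δ q + s) -
              (s^(n+1+1) + ((n+1:ℕ)+1) * (δ q * s^(n+1))) = (n+1) * (δ q * δ q * s^n) := by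
              push_cast; ring
            have : 0 ≤ (n+1) * (δ q * δ q * s^n) := by positivity
            linarith
        exact hb j
      have e1 : s^(j+1) / ((j+1) * (j.factorial : ℝ)) + δ q * (s^j / (j.factorial : ℝ)) =
          (s^(j+1) + (j+1) * (δ q * s^j)) / ((j+1) * (j.factorial : ℝ)) := by
        field_simp
      rw [e1]
      exact div_le_div_of_nonneg_right key (by positivity)

lemma sum_choose_le (n r : ℕ) : ∑ j ∈ range (r+1), (n.choose j : ℝ) ≤ ((n:ℝ)+1)^r := by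
  rw [add_pow]
  refine sum_le_sum fun j hj => ?_
  rw [mem_range] at hj
  have h1 : n.choose j ≤ n^j := Nat.choose_le_pow n j
  have h2 : 1 ≤ r.choose j := Nat.choose_pos (by omega)
  have h3 : (n.choose j : ℝ) ≤ (n:ℝ)^j := by exact_mod_cast h1
  have h4 : (1:ℝ) ≤ r.choose j := by exact_mod_cast h2
  rw [one_pow, mul_one]
  nlinarith [show (0:ℝ) ≤ (n:ℝ)^j by positivity]

open Classical in
/-- Brun's pure sieve -/
theorem brun {α : Type*} (Ω : Finset α) (P : Finset ι) (Ev : ι → α → Prop) (δ : ι → ℝ)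
    (hδ : ∀ p ∈ P, 0 ≤ δ p ∧ δ p ≤ 1) (r : ℕ) (hr : Even r) (W Err : ℝ) (hW : 0 ≤ W)
    (hErr : 0 ≤ Err)
    (hcount : ∀ D ⊆ P, D.card ≤ r →
      |((Ω.filter (fun ω => ∀ p ∈ D, Ev p ω)).card : ℝ) - W * ∏ p ∈ D, δ p| ≤ Err) :
    ((Ω.filter (fun ω => ∀ p ∈ P, ¬ Ev p ω)).card : ℝ) ≤
      W * (∏ p ∈ P, (1 - δ p) + (∑ p ∈ P, δ p)^(r+1) / ((r+1).factorial : ℝ)) +
        ((P.card : ℝ) + 1)^r * Err := by
  have hrr : (-1:ℝ)^r = 1 := hr.neg_one_pow
  -- pointwise
  have h1 : ((Ω.filter (fun ω => ∀ p ∈ P, ¬ Ev p ω)).card : ℝ) ≤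
      ∑ ω ∈ Ω, tsum' P (fun p => if Ev p ω then 1 else 0) r := by
    rw [← sum_boole (R := ℝ)]
    refine sum_le_sum fun ω _ => ?_
    have h := (bonferroni P (fun p => if Ev p ω then (1:ℝ) else 0) (fun p _ => by
      split_ifs <;> norm_num) r).1
    rw [hrr, one_mul] at h
    have h2 : (if ∀ p ∈ P, ¬ Ev p ω then (1:ℝ) else 0) ≤
        ∏ p ∈ P, (1 - if Ev p ω then (1:ℝ) else 0) := by
      split_ifs with hc
      · rw [prod_eq_one]
        intro p hp
        rw [if_neg (hc p hp), sub_zero]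
      · refine prod_nonneg fun p _ => ?_
        split_ifs <;> norm_num
    linarith
  have h2 : ∑ ω ∈ Ω, tsum' P (fun p => if Ev p ω then (1:ℝ) else 0) r =
      ∑ j ∈ range (r+1), (-1)^j * ∑ D ∈ P.powersetCard j,
        ((Ω.filter (fun ω => ∀ p ∈ D, Ev p ω)).card : ℝ) := by
    unfold tsum' esym
    rw [sum_comm]
    refine sum_congr rfl fun j _ => ?_
    rw [← mul_sum, sum_comm]
    congr 1
    refine sum_congr rfl fun D _ => ?_
    rw [← sum_boole (R := ℝ)]
    refine sum_congr rfl fun ω _ => ?_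
    split_ifs with hc
    · exact prod_eq_one fun p hp => if_pos (hc p hp)
    · push Not at hc
      obtain ⟨p, hp, hpe⟩ := hc
      exact prod_eq_zero hp (if_neg hpe)
  have h3 : ∑ j ∈ range (r+1), (-1:ℝ)^j * ∑ D ∈ P.powersetCard j,
        ((Ω.filter (fun ω => ∀ p ∈ D, Ev p ω)).card : ℝ) ≤
      W * tsum' P δ r + ∑ j ∈ range (r+1), ((P.card.choose j : ℕ) : ℝ) * Err := by
    unfold tsum' esym
    rw [mul_sum, ← sum_add_distrib]
    refine sum_le_sum fun j hj => ?_
    rw [mem_range] at hj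
    have e1 : W * ((-1:ℝ)^j * ∑ D ∈ P.powersetCard j, ∏ p ∈ D, δ p) =
        (-1:ℝ)^j * ∑ D ∈ P.powersetCard j, W * ∏ p ∈ D, δ p := by
      rw [← mul_sum]; ring
    rw [e1]
    have e2 : (-1:ℝ)^j * ∑ D ∈ P.powersetCard j,
        ((Ω.filter (fun ω => ∀ p ∈ D, Ev p ω)).card : ℝ) -
        (-1:ℝ)^j * ∑ D ∈ P.powersetCard j, W * ∏ p ∈ D, δ p =
        (-1:ℝ)^j * ∑ D ∈ P.powersetCard j,
          (((Ω.filter (fun ω => ∀ p ∈ D, Ev p ω)).card : ℝ) - W * ∏ p ∈ D, δ p) := by
      rw [sum_sub_distrib]; ring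
    have e3 : |(-1:ℝ)^j * ∑ D ∈ P.powersetCard j,
          (((Ω.filter (fun ω => ∀ p ∈ D, Ev p ω)).card : ℝ) - W * ∏ p ∈ D, δ p)| ≤
          ((P.card.choose j : ℕ) : ℝ) * Err := by
      rw [abs_mul, abs_pow, abs_neg, abs_one, one_pow, one_mul]
      refine (abs_sum_le_sum_abs _ _).trans ?_
      have : ∑ D ∈ P.powersetCard j,
          |((Ω.filter (fun ω => ∀ p ∈ D, Ev p ω)).card : ℝ) - W * ∏ p ∈ D, δ p| ≤
          ∑ D ∈ P.powersetCard j, Err := by
        refine sum_le_sum fun D hD => ?_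
        rw [mem_powersetCard] at hD
        exact hcount D hD.1 (by omega)
      refine this.trans ?_
      rw [sum_const, card_powersetCard, nsmul_eq_mul]
    have e4 := le_abs_self ((-1:ℝ)^j * ∑ D ∈ P.powersetCard j,
          (((Ω.filter (fun ω => ∀ p ∈ D, Ev p ω)).card : ℝ) - W * ∏ p ∈ D, δ p))
    linarith
  have h4 := (bonferroni P δ hδ r).2
  rw [hrr, one_mul] at h4
  have h5 := esym_le P δ (fun p hp => (hδ p hp).1) (r+1)
  have h6 : ∑ j ∈ range (r+1), ((P.card.choose j : ℕ) : ℝ) * Err ≤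
      ((P.card : ℝ) + 1)^r * Err := by
    rw [← sum_mul]
    exact mul_le_mul_of_nonneg_right (sum_choose_le _ _) hErr
  have h7 : W * tsum' P δ r ≤
      W * (∏ p ∈ P, (1 - δ p) + (∑ p ∈ P, δ p)^(r+1) / ((r+1).factorial : ℝ)) :=
    mul_le_mul_of_nonneg_left (by linarith) hW
  linarith [h1, h2 ▸ h3]

end Pool.Agent.H12
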