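import Mathlib

/-!
Sums of periodic functions, Chinese remainder theorem for products.
-/

namespace Pool.Agent.H12

open Finset

lemma sum_range_periodic (Q : ℕ) (F : ℕ → ℝ) (hF : ∀ z, F (z % Q) = F z) (q r : ℕ) :
    ∑ z ∈ range (Q * q + r), F z = q * ∑ z ∈ range Q, F z + ∑ z ∈ range r, F z := by
  induction q with
  | zero => simp
  | succ q ih =>
    have e : Q * (q+1) + r = Q + (Q * q + r) := by ring
    rw [e, sum_range_add (fun z => F z) Q (Q*q+r)]
    have : ∀ z, F (Q + z) = F z := by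
      intro z
      rw [← hF (Q + z), ← hF z, Nat.add_mod_left]
    simp only [this]
    rw [ih]; push_cast; ring

lemma per_avg (Q : ℕ) (hQ : 0 < Q) (F : ℕ → ℝ) (hF : ∀ z, F (z % Q) = F z)
    (h0 : ∀ z, 0 ≤ F z) (S : ℕ) :
    |∑ z ∈ range S, F z - (S:ℝ) / Q * ∑ z ∈ range Q, F z| ≤ ∑ z ∈ range Q, F z := by
  have hS : S = Q * (S / Q) + S % Q := (Nat.div_add_mod S Q).symm
  have hr : S % Q < Q := Nat.mod_lt _ hQ
  set q := S / Q with hq
  set r := S % Q with hr'
  have h1 := sum_range_periodic Q F hF q r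
  rw [← hS] at h1
  rw [h1]
  have hQ' : (0:ℝ) < Q := by exact_mod_cast hQ
  set T := ∑ z ∈ range Q, F z with hT
  have hT0 : 0 ≤ T := sum_nonneg fun z _ => h0 z
  have h2 : ∑ z ∈ range r, F z ≤ T := sum_le_sum_of_subset_of_nonneg
    (range_subset_range.mpr hr.le) (fun z _ _ => h0 z)
  have h3 : 0 ≤ ∑ z ∈ range r, F z := sum_nonneg fun z _ => h0 z
  have h4 : (S:ℝ) / Q * T = q * T + (r:ℝ)/Q * T := by
    have : (S:ℝ) = Q * q + r := by exact_mod_cast hS
    rw [this]; field_simp
  have h5 : 0 ≤ (r:ℝ)/Q * T := by positivity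
  have h6 : (r:ℝ)/Q * T ≤ T := by
    have : (r:ℝ)/Q ≤ 1 := by
      rw [div_le_one hQ']; exact_mod_cast hr.le
    nlinarith
  rw [h4, abs_le]
  constructor <;> linarith

/-- two moduli -/
lemma crt_two (m n : ℕ) (hm : 0 < m) (hn : 0 < n) (hmn : Nat.Coprime m n) (f g : ℕ → ℝ)
    (hf : ∀ z, f (z % m) = f z) (hg : ∀ z, g (z % n) = g z) :
    ∑ z ∈ range (m * n), f z * g z = (∑ z ∈ range m, f z) * ∑ z ∈ range n, g z := by
  rw [sum_mul_sum, ← sum_product']
  have hinj : Set.InjOn (fun z => (z % m, z % n)) (range (m*n) : Finset ℕ) := by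
    intro z hz z' hz' h
    rw [mem_coe, mem_range] at hz hz'
    simp only [Prod.mk.injEq] at h
    have : z ≡ z' [MOD m*n] := (Nat.modEq_and_modEq_iff_modEq_mul hmn).mp ⟨h.1, h.2⟩
    exact Nat.ModEq.eq_of_lt_of_lt this hz hz'
  have himg : (range (m*n)).image (fun z => (z % m, z % n)) = range m ×ˢ range n := by
    apply eq_of_subset_of_card_le
    · intro x hx
      rw [mem_image] at hx
      obtain ⟨z, -, rfl⟩ := hx
      rw [mem_product, mem_range, mem_range]
      exact ⟨Nat.mod_lt _ hm, Nat.mod_lt _ hn⟩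
    · rw [card_image_of_injOn hinj, card_product, card_range, card_range, card_range]
  rw [← himg, sum_image hinj]
  refine sum_congr rfl fun z _ => ?_
  simp only [hf, hg]

/-- product of the squares -/
lemma crt_prod (D : Finset ℕ) (hD : ∀ p ∈ D, p.Prime) (F : ℕ → ℕ → ℝ)
    (hF : ∀ p ∈ D, ∀ z, F p (z % p^2) = F p z) :
    ∑ z ∈ range (∏ p ∈ D, p^2), ∏ p ∈ D, F p z = ∏ p ∈ D, ∑ z ∈ range (p^2), F p z := by
  induction D using Finset.induction_on with
  | empty => simp
  | insert q D hq ih =>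
    have hq' := hD q (mem_insert_self q D)
    have hD' : ∀ p ∈ D, p.Prime := fun p hp => hD p (mem_insert_of_mem hp)
    have hF' : ∀ p ∈ D, ∀ z, F p (z % p^2) = F p z := fun p hp => hF p (mem_insert_of_mem hp)
    rw [prod_insert hq, prod_insert hq, ← ih hD' hF']
    simp only [prod_insert hq]
    apply crt_two
    · exact pow_pos hq'.pos 2
    · exact prod_pos fun p hp => pow_pos (hD' p hp).pos 2
    · refine Nat.Coprime.prod_right fun p hp => ?_
      exact Nat.Coprime.pow 2 2 ((Nat.coprime_primes hq' (hD' p hp)).mpr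
        (fun h => hq (h ▸ hp)))
    · exact hF q (mem_insert_self q D)
    · intro z
      refine prod_congr rfl fun p hp => ?_
      rw [← hF' p hp z, ← hF' p hp (z % _)]
      congr 1
      exact Nat.mod_mod_of_dvd z (Finset.dvd_prod_of_mem (fun p => p^2) hp)

lemma card_affine (Q y x0 : ℕ) (hQ : 0 < Q) (hy : Nat.Coprime y Q) (C : ℕ → Prop)
    [DecidablePred C] :
    ((range Q).filter (fun t => C ((y*t+x0) % Q))).card = ((range Q).filter C).card := by
  have hinj : Set.InjOn (fun t => (y*t+x0) % Q) (range Q : Finset ℕ) := by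
    intro t ht t' ht' h
    rw [mem_coe, mem_range] at ht ht'
    have h1 : y*t+x0 ≡ y*t'+x0 [MOD Q] := h
    have h2 : y*t ≡ y*t' [MOD Q] := Nat.ModEq.add_right_cancel' x0 h1
    have h3 : t ≡ t' [MOD Q] := Nat.ModEq.cancel_left_of_coprime
      (by rw [Nat.gcd_comm]; exact hy) h2
    exact Nat.ModEq.eq_of_lt_of_lt h3 ht ht'
  have himg : (range Q).image (fun t => (y*t+x0) % Q) = range Q := by
    apply eq_of_subset_of_card_le
    · intro x hx
      rw [mem_image] at hx
      obtain ⟨z, -, rfl⟩ := hx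
      rw [mem_range]; exact Nat.mod_lt _ hQ
    · rw [card_image_of_injOn hinj]
  have h1 : ((range Q).filter (fun t => C ((y*t+x0) % Q))).image (fun t => (y*t+x0) % Q) =
      (range Q).filter C := by
    ext w
    rw [mem_image, mem_filter]
    constructor
    · rintro ⟨t, ht, rfl⟩
      rw [mem_filter] at ht
      refine ⟨?_, ht.2⟩
      rw [mem_range]; exact Nat.mod_lt _ hQ
    · rintro ⟨hw, hc⟩
      rw [← himg, mem_image] at hw
      obtain ⟨t, ht, rfl⟩ := hw
      exact ⟨t, by rw [mem_filter]; exact ⟨ht, hc⟩, rfl⟩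
  rw [← h1, card_image_of_injOn]
  exact hinj.mono (by
    intro t ht
    rw [mem_coe, mem_filter] at ht
    rw [mem_coe]; exact ht.1)

end Pool.Agent.H12
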