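import Mathlib

/-!
Elementary sieve: counting integers in residue classes with prescribed square conditions.
-/

namespace Pool.Agent.H12

open Finset

open Classical in
lemma card_sq (p : ℕ) [hp : Fact p.Prime] (h2 : p ≠ 2) :
    2 * ((univ : Finset (ZMod p)).filter (fun x => IsSquare x)).card ≤ p + 1 := by
  have h1 : ((univ : Finset (ZMod p)).filter (fun x => IsSquare x)) ⊆
      (range (p/2+1)).image (fun w : ℕ => ((w:ZMod p))^2) := by
    intro x hx
    rw [mem_filter] at hx
    obtain ⟨y, rfl⟩ := hx.2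
    rw [mem_image]
    refine ⟨y.valMinAbs.natAbs, ?_, ?_⟩
    · rw [mem_range]
      have := ZMod.natAbs_valMinAbs_le y
      omega
    · have h3 : ((y.valMinAbs : ℤ) : ZMod p) = y := ZMod.coe_valMinAbs y
      have h4 : ((y.valMinAbs.natAbs : ℤ))^2 = y.valMinAbs^2 := Int.natAbs_sq _
      have h5 := congrArg (Int.cast : ℤ → ZMod p) h4
      simp only [Int.cast_pow, Int.cast_natCast, h3] at h5
      rw [h5, sq]
  have h3 := card_le_card h1
  have h4 : ((range (p/2+1)).image (fun w : ℕ => ((w:ZMod p))^2)).card ≤ p/2+1 := by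
    refine card_image_le.trans ?_
    simp
  have h5 : p % 2 = 1 := by
    rcases hp.out.eq_two_or_odd with h | h
    · exact absurd h h2
    · exact h
  omega

/-- the residues `w < p` with `e (a w + 1)` a square mod `p` -/
noncomputable def sqres (a : ℕ) (e : ℤ) (p : ℕ) : Finset ℕ := by
  classical
  exact (range p).filter (fun w => IsSquare ((e : ZMod p) * ((a:ZMod p) * w + 1)))

lemma card_sqres (a : ℕ) (e : ℤ) (he : e = 1 ∨ e = -1) (p : ℕ) (hp : p.Prime) (h2 : p ≠ 2)
    (hpa : ¬ p ∣ a) : (((sqres a e p).card : ℕ) : ℝ) ≤ 2/3 * p := by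
  classical
  have : Fact p.Prime := ⟨hp⟩
  have h1 : (sqres a e p).card ≤ ((univ : Finset (ZMod p)).filter (fun x => IsSquare x)).card := by
    refine card_le_card_of_injOn (fun w : ℕ => (e : ZMod p) * ((a:ZMod p) * w + 1)) ?_ ?_
    · intro w hw
      simp only [sqres, coe_filter, Set.mem_ofPred_eq] at hw
      simp only [coe_filter, Set.mem_ofPred_eq, mem_univ, true_and]
      convert hw.2
    · intro w hw w' hw' h
      simp only [sqres, coe_filter, Set.mem_ofPred_eq, mem_range] at hw hw'
      have he' : (e : ZMod p) ≠ 0 := by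
        rcases he with h | h <;> rw [h] <;> simp
      have ha' : (a : ZMod p) ≠ 0 := by
        rw [Ne, ZMod.natCast_eq_zero_iff]; exact hpa
      have h3 := mul_left_cancel₀ he' h
      have h4 := mul_left_cancel₀ ha' (add_right_cancel h3)
      rw [ZMod.natCast_eq_natCast_iff] at h4
      exact Nat.ModEq.eq_of_lt_of_lt h4 hw.1 hw'.1
  have h3 := card_sq p h2
  have h4 : 3 ≤ p := by
    have := hp.two_le
    omega
  have h5 : 2 * (sqres a e p).card ≤ p + 1 := by omega
  have h6 : (2:ℝ) * (sqres a e p).card ≤ p + 1 := by exact_mod_cast h5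
  have h7 : (3:ℝ) ≤ p := by exact_mod_cast h4
  linarith

lemma modEq_prod {S : Finset ℕ} (hS : ∀ p ∈ S, p.Prime) {r s : ℕ}
    (h : ∀ p ∈ S, r ≡ s [MOD p]) : r ≡ s [MOD ∏ p ∈ S, p] := by
  wlog hrs : r ≤ s generalizing r s
  · exact (this (fun p hp => (h p hp).symm) (by omega)).symm
  rw [Nat.modEq_iff_dvd' hrs]
  refine Finset.prod_primes_dvd _ (fun p hp => (hS p hp).prime) (fun p hp => ?_)
  exact (Nat.modEq_iff_dvd' hrs).mp (h p hp)

/-- a counting principle: the number of `b ≤ B` whose residue mod `Q` lies in `R` -/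
lemma card_range_mod (B Q : ℕ) (hQ : 0 < Q) (C : ℕ → Prop) [DecidablePred C]
    (hC : ∀ b, C b → C (b % Q)) :
    (((range (B+1)).filter C).card : ℝ) ≤ (((range Q).filter C).card : ℝ) * (B / Q + 1) := by
  have h1 : ((range (B+1)).filter C).card ≤ (((range Q).filter C) ×ˢ (range (B/Q+1))).card := by
    refine card_le_card_of_injOn (fun b => (b % Q, b / Q)) ?_ ?_
    · intro b hb
      simp only [coe_filter, mem_range, Set.mem_ofPred_eq] at hb
      simp only [coe_product, coe_filter, mem_range, coe_range, Set.mem_prod, Set.mem_ofPred_eq,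
        Set.mem_Iio]
      refine ⟨⟨Nat.mod_lt _ hQ, hC b hb.2⟩, ?_⟩
      have : b / Q ≤ B / Q := Nat.div_le_div_right (by omega)
      omega
    · intro b _ b' _ h
      simp only [Prod.mk.injEq] at h
      rw [← Nat.div_add_mod b Q, ← Nat.div_add_mod b' Q, h.1, h.2]
  rw [card_product, card_range] at h1
  have h2 : (((range (B+1)).filter C).card : ℝ) ≤
      (((range Q).filter C).card : ℝ) * ((B/Q : ℕ) + 1) := by exact_mod_cast h1
  refine h2.trans ?_
  have h3 : ((B/Q : ℕ) : ℝ) ≤ (B:ℝ)/Q := Nat.cast_div_le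
  have h4 : (0:ℝ) ≤ ((range Q).filter C).card := by positivity
  nlinarith

/-- sign attached to the residue -/
def sgn (n : ℕ) : ℤ := (-1)^(n/2)

lemma sgn_mod (n m : ℕ) (h : n % 4 = m % 4) : sgn n = sgn m := by
  unfold sgn
  have h1 : (n/2) % 2 = (m/2) % 2 := by omega
  rw [neg_one_pow_eq_pow_mod_two, h1, ← neg_one_pow_eq_pow_mod_two]

lemma sgn_or (n : ℕ) : sgn n = 1 ∨ sgn n = -1 := by
  unfold sgn
  exact neg_one_pow_eq_or ℤ _

/-- the condition on `b` -/
def Cond (a z : ℕ) (S : Finset ℕ) (b : ℕ) : Prop :=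
  (b * z) % a = 1 % a ∧ ∀ p ∈ S, IsSquare (((sgn (a*b) : ℤ) : ZMod p) * ((a:ZMod p) * b + 1))

open Classical in
/-- main counting lemma for one pair `(a,z)` -/
lemma count_cond (a z : ℕ) (ha : 0 < a) (S : Finset ℕ) (hS : ∀ p ∈ S, p.Prime)
    (hS2 : ∀ p ∈ S, p ≠ 2) (hSz : ∀ p ∈ S, p ∣ z) (B : ℕ) :
    (((range (B+1)).filter (Cond a z S)).card : ℝ) ≤
      ((B:ℝ) / a + 4 * ∏ p ∈ S, (p:ℝ)) * (2/3)^S.card := by
  by_cases hz : Nat.Coprime z a
  swap
  · -- empty
    have : (range (B+1)).filter (Cond a z S) = ∅ := by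
      rw [filter_eq_empty_iff]
      intro b _ hb
      apply hz
      have h1 : (b * z) ≡ 1 [MOD a] := hb.1
      have h2 : Nat.gcd (b*z) a = 1 := by
        rw [h1.gcd_eq]; simp
      exact Nat.Coprime.coprime_mul_left h2
    rw [this, card_empty, Nat.cast_zero]
    positivity
  set M := ∏ p ∈ S, p with hM
  have hM0 : 0 < M := prod_pos fun p hp => (hS p hp).pos
  have hpa : ∀ p ∈ S, ¬ p ∣ a := by
    intro p hp hpa
    have := Nat.dvd_gcd (hSz p hp) hpa
    rw [hz] at this
    exact (hS p hp).one_lt.ne' (Nat.dvd_one.mp this)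
  have hcopM : Nat.Coprime (4*a) M := by
    rw [hM]
    refine Nat.Coprime.prod_right fun p hp => ?_
    refine Nat.Coprime.mul_left ?_ ?_
    · have : Nat.Coprime (2^2) p := Nat.Coprime.pow_left 2
        ((Nat.coprime_primes Nat.prime_two (hS p hp)).mpr (hS2 p hp).symm)
      simpa using this
    · exact ((Nat.Prime.coprime_iff_not_dvd (hS p hp)).mpr (hpa p hp)).symm
  set Q := (4*a)*M with hQ
  have hQ0 : 0 < Q := by positivity
  -- periodicity
  have hper : ∀ b, Cond a z S b → Cond a z S (b % Q) := by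
    intro b hb
    have e1 : b % Q ≡ b [MOD Q] := Nat.mod_modEq b Q
    refine ⟨?_, fun p hp => ?_⟩
    · have e2 : b % Q ≡ b [MOD a] := e1.of_dvd ⟨4*M, by rw [hQ]; ring⟩
      have := (e2.mul_right z)
      unfold Nat.ModEq at this
      rw [this]; exact hb.1
    · have e2 : b % Q ≡ b [MOD p] := e1.of_dvd
        (Dvd.dvd.mul_left (Finset.dvd_prod_of_mem (fun p => p) hp) _)
      have e3 : ((b % Q : ℕ) : ZMod p) = (b : ZMod p) := (ZMod.natCast_eq_natCast_iff _ _ _).mpr e2
      have e4 : sgn (a * (b % Q)) = sgn (a*b) := by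
        apply sgn_mod
        have : a * (b % Q) ≡ a * b [MOD 4] := (e1.of_dvd ⟨a*M, by rw [hQ]; ring⟩).mul_left a
        exact this
      rw [e3, e4]; exact hb.2 p hp
  have h1 := card_range_mod B Q hQ0 (Cond a z S) hper
  -- bound the number of residues
  have h2 : (((range Q).filter (Cond a z S)).card : ℝ) ≤ 4 * (M * (2/3)^S.card) := by
    -- split by residue u mod 4a
    set U := (range (4*a)).filter (fun u => (u*z) % a = 1 % a) with hU
    have hUcard : U.card ≤ 4 := by
      have : U.card ≤ (range 4).card := by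
        refine card_le_card_of_injOn (fun u => u / a) ?_ ?_
        · intro u hu
          simp only [hU, coe_filter, mem_range, Set.mem_ofPred_eq] at hu
          simp only [coe_range, Set.mem_Iio]
          exact Nat.div_lt_of_lt_mul (by linarith [hu.1])
        · intro u hu u' hu' h
          simp only [hU, coe_filter, mem_range, Set.mem_ofPred_eq] at hu hu'
          have h5 : u * z ≡ u' * z [MOD a] := by
            unfold Nat.ModEq
            rw [hu.2, hu'.2]
          have h6 : u ≡ u' [MOD a] := Nat.ModEq.cancel_right_of_coprime (by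
            rw [Nat.gcd_comm]; exact hz) h5
          rw [← Nat.div_add_mod u a, ← Nat.div_add_mod u' a]
          unfold Nat.ModEq at h6
          simp only at h
          rw [h, h6]
      simpa using this
    have h3 : ((range Q).filter (Cond a z S)).card ≤
        (U.sigma (fun u => S.pi (fun p => sqres a (sgn (a*u)) p))).card := by
      refine card_le_card_of_injOn (fun r => ⟨r % (4*a), fun p _ => r % p⟩) ?_ ?_
      · intro r hr
        simp only [coe_filter, mem_range, Set.mem_ofPred_eq] at hr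
        simp only [coe_sigma, Set.mem_sigma_iff, mem_coe]
        refine ⟨?_, ?_⟩
        · rw [hU, mem_filter, mem_range]
          refine ⟨Nat.mod_lt _ (by positivity), ?_⟩
          have e2 : r % (4*a) ≡ r [MOD a] := (Nat.mod_modEq r (4*a)).of_dvd ⟨4, by ring⟩
          have := (e2.mul_right z)
          unfold Nat.ModEq at this
          rw [this]; exact hr.2.1
        · rw [mem_pi]
          intro p hp
          unfold sqres
          rw [mem_filter, mem_range]
          refine ⟨Nat.mod_lt _ (hS p hp).pos, ?_⟩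
          have e3 : ((r % p : ℕ) : ZMod p) = (r : ZMod p) :=
            (ZMod.natCast_eq_natCast_iff _ _ _).mpr (Nat.mod_modEq r p)
          have e4 : sgn (a * (r % (4*a))) = sgn (a*r) := by
            apply sgn_mod
            have : a * (r % (4*a)) ≡ a * r [MOD 4] :=
              ((Nat.mod_modEq r (4*a)).of_dvd ⟨a, by ring⟩).mul_left a
            exact this
          rw [e3, e4]; exact hr.2.2 p hp
      · intro r hr r' hr' h
        simp only [coe_filter, mem_range, Set.mem_ofPred_eq] at hr hr'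
        simp only [Sigma.mk.injEq] at h
        obtain ⟨h5, h6⟩ := h
        have h7 := eq_of_heq h6
        have h8 : r ≡ r' [MOD M] := modEq_prod hS (by
          intro p hp
          exact congrFun (congrFun h7 p) hp)
        have h9 : r ≡ r' [MOD 4*a] := h5
        have h10 : r ≡ r' [MOD Q] := (Nat.modEq_and_modEq_iff_modEq_mul hcopM).mp ⟨h9, h8⟩
        exact Nat.ModEq.eq_of_lt_of_lt h10 hr.1 hr'.1
    rw [card_sigma] at h3
    have h4 : ∀ u ∈ U, (((S.pi (fun p => sqres a (sgn (a*u)) p)).card : ℕ) : ℝ) ≤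
        M * (2/3)^S.card := by
      intro u _
      rw [card_pi]
      push_cast
      have : ∏ p ∈ S, ((sqres a (sgn (a*u)) p).card : ℝ) ≤ ∏ p ∈ S, (2/3 * (p:ℝ)) := by
        refine prod_le_prod (fun _ _ => by positivity) (fun p hp => ?_)
        exact card_sqres a _ (sgn_or _) p (hS p hp) (hS2 p hp) (hpa p hp)
      refine this.trans ?_
      rw [prod_mul_distrib, prod_const, hM]
      push_cast
      rw [mul_comm]
    have h5 : (((range Q).filter (Cond a z S)).card : ℝ) ≤
        ∑ u ∈ U, (((S.pi (fun p => sqres a (sgn (a*u)) p)).card : ℕ) : ℝ) := by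
      exact_mod_cast h3
    refine h5.trans ((sum_le_sum h4).trans ?_)
    rw [sum_const, nsmul_eq_mul]
    have : (U.card : ℝ) ≤ 4 := by exact_mod_cast hUcard
    exact mul_le_mul_of_nonneg_right this (by positivity)
  refine h1.trans ?_
  have ha' : (0:ℝ) < a := by exact_mod_cast ha
  have hM' : (0:ℝ) < M := by exact_mod_cast hM0
  have h3 : (0:ℝ) ≤ (B:ℝ) / Q + 1 := by positivity
  refine (mul_le_mul_of_nonneg_right h2 h3).trans ?_
  have h4 : (∏ p ∈ S, (p:ℝ)) = M := by rw [hM]; push_cast; rfl
  rw [h4, hQ]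
  push_cast
  apply le_of_eq
  field_simp

end Pool.Agent.H12
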