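import Mathlib
import Pool.Agent.H12.Sieve
import Pool.Agent.H12.Periodic

/-!
Local counts for the two-variable sieve.
-/

namespace Pool.Agent.H12

open Finset Classical

/-- number of non-squares mod `p` -/
noncomputable def nsq (p : ℕ) : ℕ := Nat.card {u : ZMod p // ¬ IsSquare u}

lemma nsq_eq (p : ℕ) [NeZero p] :
    nsq p = ((univ : Finset (ZMod p)).filter (fun u => ¬ IsSquare u)).card := by
  unfold nsq
  rw [Nat.card_eq_fintype_card, Fintype.card_subtype]

lemma nsq_lower (p : ℕ) [hp : Fact p.Prime] (h2 : p ≠ 2) : p ≤ 2 * nsq p + 1 := by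
  rw [nsq_eq]
  have h1 := card_sq p h2
  have h3 := card_filter_add_card_filter_not (s := (univ : Finset (ZMod p)))
    (fun u => IsSquare u)
  rw [card_univ, ZMod.card] at h3
  have h4 : ((univ : Finset (ZMod p)).filter (fun x => IsSquare x)).card ≤ (p+1)/2 := by
    convert (show ((univ : Finset (ZMod p)).filter (fun x => IsSquare x)).card ≤ (p+1)/2 by
      omega)
  have h5 : p % 2 = 1 := by
    rcases hp.out.eq_two_or_odd with h | h
    · exact absurd h h2
    · exact h
  omega

lemma nsq_upper (p : ℕ) [hp : Fact p.Prime] : nsq p ≤ p := by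
  rw [nsq_eq]
  refine (card_filter_le _ _).trans ?_
  rw [card_univ, ZMod.card]

lemma range_count (p : ℕ) [NeZero p] (C : ZMod p → Prop) [DecidablePred C] :
    ((range p).filter (fun w : ℕ => C (w : ZMod p))).card =
      ((univ : Finset (ZMod p)).filter C).card := by
  refine card_bij (fun w _ => (w : ZMod p)) ?_ ?_ ?_
  · intro w hw
    rw [mem_filter] at hw ⊢
    exact ⟨mem_univ _, hw.2⟩
  · intro w hw w' hw' h
    rw [mem_filter, mem_range] at hw hw'
    rw [ZMod.natCast_eq_natCast_iff] at h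
    exact Nat.ModEq.eq_of_lt_of_lt h hw.1 hw'.1
  · intro u hu
    rw [mem_filter] at hu
    refine ⟨u.val, ?_, ?_⟩
    · rw [mem_filter, mem_range]
      refine ⟨ZMod.val_lt u, ?_⟩
      rw [ZMod.natCast_zmod_val]; exact hu.2
    · exact ZMod.natCast_zmod_val u

lemma card_comp_bij {α : Type*} [Fintype α] (f : α → α) (hf : Function.Injective f)
    (C : α → Prop) [DecidablePred C] : ((univ : Finset α).filter (fun x => C (f x))).card =
      ((univ : Finset α).filter C).card := by
  refine card_bij (fun x _ => f x) ?_ ?_ ?_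
  · intro w hw
    rw [mem_filter] at hw ⊢
    exact ⟨mem_univ _, hw.2⟩
  · intro w _ w' _ h
    exact hf h
  · intro u hu
    obtain ⟨x, rfl⟩ := (Finite.injective_iff_surjective.mp hf) u
    rw [mem_filter] at hu
    exact ⟨x, by rw [mem_filter]; exact ⟨mem_univ _, hu.2⟩, rfl⟩

lemma card_exact (p : ℕ) (hp : p.Prime) :
    ((range (p^2)).filter (fun w => p ∣ w ∧ ¬ p^2 ∣ w)).card = p - 1 := by
  have : (Icc 1 (p-1)).card = ((range (p^2)).filter (fun w => p ∣ w ∧ ¬ p^2 ∣ w)).card := by
    refine card_bij (fun i _ => p * i) ?_ ?_ ?_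
    · intro i hi
      rw [mem_Icc] at hi
      rw [mem_filter, mem_range]
      have hp1 := hp.one_lt
      refine ⟨?_, Dvd.intro i rfl, ?_⟩
      · have : i < p := by omega
        nlinarith
      · intro h
        rw [sq] at h
        have := Nat.dvd_of_mul_dvd_mul_left hp.pos h
        have := Nat.le_of_dvd (by omega) this
        omega
    · intro i _ j _ h
      exact Nat.eq_of_mul_eq_mul_left hp.pos h
    · intro w hw
      rw [mem_filter, mem_range] at hw
      obtain ⟨hw1, ⟨i, rfl⟩, hw3⟩ := hw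
      refine ⟨i, ?_, rfl⟩
      rw [mem_Icc]
      have h1 : i ≠ 0 := by rintro rfl; simp at hw3
      have h2 : i < p := by
        rw [sq] at hw1
        exact Nat.lt_of_mul_lt_mul_left hw1
      omega
  rw [← this]; simp

lemma card_dvd (p : ℕ) (hp : p.Prime) :
    ((range (p^2)).filter (fun w => p ∣ w)).card = p := by
  have : (range p).card = ((range (p^2)).filter (fun w => p ∣ w)).card := by
    refine card_bij (fun i _ => p * i) ?_ ?_ ?_
    · intro i hi
      rw [mem_range] at hi
      rw [mem_filter, mem_range]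
      refine ⟨?_, Dvd.intro i rfl⟩
      rw [sq]; exact Nat.mul_lt_mul_of_pos_left hi hp.pos
    · intro i _ j _ h
      exact Nat.eq_of_mul_eq_mul_left hp.pos h
    · intro w hw
      rw [mem_filter, mem_range] at hw
      obtain ⟨hw1, ⟨i, rfl⟩⟩ := hw
      refine ⟨i, ?_, rfl⟩
      rw [mem_range]
      rw [sq] at hw1
      exact Nat.lt_of_mul_lt_mul_left hw1
  rw [← this]; simp

/-- the bad event at `p` -/
def Bad (a : ℕ) (e : ℤ) (p z x0 v0 t : ℕ) : Prop :=
  (p ∣ a ∧ p ∣ z) ∨
  (¬ p ∣ a ∧ (p ∣ z ∧ ¬ p^2 ∣ z) ∧ ¬ IsSquare ((e : ZMod p) * ((a:ZMod p)^2 * t + v0))) ∨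
  (¬ p ∣ a ∧ ¬ IsSquare (-(e : ZMod p) * ((a:ZMod p) - z) * z) ∧
    (p ∣ (a - z) * t + x0 ∧ ¬ p^2 ∣ (a - z) * t + x0))

/-- number of bad `t` mod `p^2` -/
noncomputable def beta (a : ℕ) (e : ℤ) (p z : ℕ) : ℝ :=
  if p ∣ a then (if p ∣ z then (p:ℝ)^2 else 0)
  else (if p ∣ z ∧ ¬ p^2 ∣ z then (p:ℝ) * nsq p else 0) +
    (if ¬ IsSquare (-(e : ZMod p) * ((a:ZMod p) - z) * z) then (p:ℝ) - 1 else 0)

lemma beta_nonneg (a : ℕ) (e : ℤ) (p z : ℕ) (hp : p.Prime) : 0 ≤ beta a e p z := by
  unfold beta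
  have : (1:ℝ) ≤ p := by exact_mod_cast hp.one_lt.le
  have h2 : (0:ℝ) ≤ p * nsq p := by positivity
  split_ifs <;> positivity

lemma mod_facts (p w : ℕ) : (p ∣ w % p^2 ↔ p ∣ w) ∧ (p^2 ∣ w % p^2 ↔ p^2 ∣ w) ∧
    ((w % p^2 : ℕ) : ZMod p) = (w : ZMod p) := by
  refine ⟨(Nat.dvd_mod_iff (Dvd.intro_left (p^1) rfl)), Nat.dvd_mod_iff dvd_rfl, ?_⟩
  rw [ZMod.natCast_eq_natCast_iff]
  exact (Nat.mod_modEq w (p^2)).of_dvd (Dvd.intro_left (p^1) rfl)

lemma beta_mod (a : ℕ) (e : ℤ) (p z : ℕ) : beta a e p (z % p^2) = beta a e p z := by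
  obtain ⟨h1, h2, h3⟩ := mod_facts p z
  unfold beta
  simp only [h1, h2, h3]

lemma bad_mod (a : ℕ) (e : ℤ) (p z x0 v0 t : ℕ) :
    Bad a e p z x0 v0 (t % p^2) ↔ Bad a e p z x0 v0 t := by
  obtain ⟨-, -, h3⟩ := mod_facts p t
  have h4 : (a - z) * (t % p^2) + x0 ≡ (a - z) * t + x0 [MOD p^2] :=
    ((Nat.mod_modEq t (p^2)).mul_left _).add_right _
  have h5 : p ∣ (a - z) * (t % p^2) + x0 ↔ p ∣ (a - z) * t + x0 := by
    have h6 := h4.of_dvd (Dvd.intro_left (p^1) rfl : p ∣ p^2)
    exact h6.dvd_iff dvd_rfl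
  have h6 : p^2 ∣ (a - z) * (t % p^2) + x0 ↔ p^2 ∣ (a - z) * t + x0 := h4.dvd_iff dvd_rfl
  unfold Bad
  rw [h3, h5, h6]

/-- the indicator sum over `t` -/
lemma sum_bad (a : ℕ) (e : ℤ) (he : e = 1 ∨ e = -1) (p z x0 v0 : ℕ) (hp : p.Prime)
    (hz : z < a) :
    ∑ t ∈ range (p^2), (if Bad a e p z x0 v0 t then (1:ℝ) else 0) = beta a e p z := by
  have : Fact p.Prime := ⟨hp⟩
  have he' : (e : ZMod p) ≠ 0 := by
    rcases he with h | h <;> rw [h] <;> simp
  rw [sum_boole]
  unfold beta
  by_cases hpa : p ∣ a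
  · rw [if_pos hpa]
    by_cases hpz : p ∣ z
    · rw [if_pos hpz]
      have : (range (p^2)).filter (fun t => Bad a e p z x0 v0 t) = range (p^2) := by
        rw [filter_eq_self]
        intro t _; left; exact ⟨hpa, hpz⟩
      rw [this, card_range]; push_cast; rfl
    · rw [if_neg hpz]
      have : (range (p^2)).filter (fun t => Bad a e p z x0 v0 t) = ∅ := by
        rw [filter_eq_empty_iff]
        rintro t _ (h | h | h)
        · exact hpz h.2
        · exact h.1 hpa
        · exact h.1 hpa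
      rw [this]; simp
  · rw [if_neg hpa]
    have ha' : (a : ZMod p) ≠ 0 := by
      rw [Ne, ZMod.natCast_eq_zero_iff]; exact hpa
    by_cases hpz : p ∣ z ∧ ¬ p^2 ∣ z
    · rw [if_pos hpz]
      have hz0 : (z : ZMod p) = 0 := by rw [ZMod.natCast_eq_zero_iff]; exact hpz.1
      have hsq : IsSquare (-(e : ZMod p) * ((a:ZMod p) - z) * z) := by
        rw [hz0, mul_zero]; exact IsSquare.zero
      rw [if_neg (by push Not; exact hsq), add_zero]
      have h1 : ((range (p^2)).filter (fun t => Bad a e p z x0 v0 t)).card =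
          ((range (p^2)).filter (fun t : ℕ =>
            ¬ IsSquare ((e : ZMod p) * ((a:ZMod p)^2 * t + v0)))).card := by
        congr 1
        refine filter_congr fun t _ => ?_
        constructor
        · rintro (h | h | h)
          · exact absurd h.1 hpa
          · exact h.2.2
          · exact absurd hsq h.2.1
        · intro h; right; left; exact ⟨hpa, hpz, h⟩
      rw [h1]
      have h2 : ∑ t ∈ range (p^2), (if ¬ IsSquare ((e : ZMod p) * ((a:ZMod p)^2 * (t:ℕ) + v0))
          then (1:ℝ) else 0) = p * ∑ t ∈ range p, (if ¬ IsSquare ((e : ZMod p) *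
            ((a:ZMod p)^2 * (t:ℕ) + v0)) then (1:ℝ) else 0) := by
        have := sum_range_periodic p (fun t : ℕ => if ¬ IsSquare ((e : ZMod p) *
          ((a:ZMod p)^2 * (t:ℕ) + v0)) then (1:ℝ) else 0) (by
            intro t
            have : ((t % p : ℕ) : ZMod p) = (t : ZMod p) :=
              (ZMod.natCast_eq_natCast_iff _ _ _).mpr (Nat.mod_modEq t p)
            rw [this]) p 0
        rw [add_zero, ← sq] at this
        rw [this]; simp
      rw [sum_boole, sum_boole] at h2
      rw [h2]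
      congr 1
      have h3 := range_count p (fun u => ¬ IsSquare ((e : ZMod p) * ((a:ZMod p)^2 * u + v0)))
      have h4 := card_comp_bij (fun u : ZMod p => (e : ZMod p) * ((a:ZMod p)^2 * u + v0)) (by
        intro u u' h
        have h5 := mul_left_cancel₀ he' h
        have h6 := add_right_cancel h5
        exact mul_left_cancel₀ (pow_ne_zero 2 ha') h6) (fun u => ¬ IsSquare u)
      rw [nsq_eq, ← h4, ← h3]
    · rw [if_neg hpz, zero_add]
      by_cases hsq : ¬ IsSquare (-(e : ZMod p) * ((a:ZMod p) - z) * z)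
      · rw [if_pos hsq]
        have hy : ¬ p ∣ a - z := by
          intro h
          apply hsq
          have h1 : ((a - z : ℕ) : ZMod p) = 0 := by rwa [ZMod.natCast_eq_zero_iff]
          rw [Nat.cast_sub hz.le] at h1
          rw [h1, mul_zero, zero_mul]; exact IsSquare.zero
        have hcop : Nat.Coprime (a - z) (p^2) :=
          (Nat.Coprime.pow_left 2 ((Nat.Prime.coprime_iff_not_dvd hp).mpr hy)).symm
        have h1 : ((range (p^2)).filter (fun t => Bad a e p z x0 v0 t)).card =
            ((range (p^2)).filter (fun t => (fun w => p ∣ w ∧ ¬ p^2 ∣ w)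
              (((a - z) * t + x0) % p^2))).card := by
          congr 1
          refine filter_congr fun t _ => ?_
          obtain ⟨m1, m2, -⟩ := mod_facts p ((a - z) * t + x0)
          simp only [m1, m2]
          constructor
          · rintro (h | h | h)
            · exact absurd h.1 hpa
            · exact absurd h.2.1 hpz
            · exact h.2.2
          · intro h; right; right; exact ⟨hpa, hsq, h⟩
        have h2 := card_affine (p^2) (a - z) x0 (pow_pos hp.pos 2) hcop
          (fun w => p ∣ w ∧ ¬ p^2 ∣ w)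
        rw [h1]
        rw [card_exact p hp] at h2
        have h3 : (((range (p^2)).filter (fun t => (fun w => p ∣ w ∧ ¬ p^2 ∣ w)
              (((a - z) * t + x0) % p^2))).card : ℝ) = ((p - 1 : ℕ) : ℝ) := by
          rw [← h2]
        rw [h3, Nat.cast_sub hp.one_lt.le, Nat.cast_one]
      · rw [if_neg hsq]
        have : (range (p^2)).filter (fun t => Bad a e p z x0 v0 t) = ∅ := by
          rw [filter_eq_empty_iff]
          rintro t _ (h | h | h)
          · exact hpa h.1
          · exact hpz h.2.1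
          · exact hsq h.2.1
        rw [this]; simp

/-- number of bad pairs mod `p^2` -/
noncomputable def Nbad (a : ℕ) (e : ℤ) (p : ℕ) : ℝ := ∑ z ∈ range (p^2), beta a e p z

lemma nminus (a : ℕ) (e : ℤ) (he : e = 1 ∨ e = -1) (p : ℕ) [hp : Fact p.Prime]
    (hpa : ¬ p ∣ a) :
    nsq p ≤ ((univ : Finset (ZMod p)).filter (fun u =>
      ¬ IsSquare (-(e : ZMod p) * ((a:ZMod p) - u) * u))).card + 1 := by
  have ha' : (a : ZMod p) ≠ 0 := by
    rw [Ne, ZMod.natCast_eq_zero_iff]; exact hpa
  have hee : (e : ZMod p) * e = 1 := by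
    rcases he with h | h <;> rw [h] <;> simp
  rw [nsq_eq]
  have h1 : (((univ : Finset (ZMod p)).filter (fun u => ¬ IsSquare u)).erase (e : ZMod p)).card ≤
      ((univ : Finset (ZMod p)).filter (fun u =>
      ¬ IsSquare (-(e : ZMod p) * ((a:ZMod p) - u) * u))).card := by
    refine card_le_card_of_injOn (fun u => (a:ZMod p) * (1 - e * u)⁻¹) ?_ ?_
    · intro u hu
      rw [mem_coe, mem_erase, mem_filter] at hu
      rw [mem_coe, mem_filter]
      refine ⟨mem_univ _, ?_⟩
      have hne : 1 - (e : ZMod p) * u ≠ 0 := by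
        intro h
        apply hu.1
        have : (e : ZMod p) * u = 1 := (sub_eq_zero.mp h).symm
        calc u = (e * e) * u := by rw [hee, one_mul]
          _ = e * (e * u) := by ring
          _ = e := by rw [this, mul_one]
      intro hsq
      apply hu.2.2
      obtain ⟨s, hs⟩ := hsq
      set m := (1 - (e : ZMod p) * u)⁻¹ with hm
      have hmm : m * (1 - e * u) = 1 := inv_mul_cancel₀ hne
      have hm0 : m ≠ 0 := by rw [hm]; exact inv_ne_zero hne
      have key : -(e : ZMod p) * ((a:ZMod p) - a * m) * (a * m) = (a * m)^2 * u := by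
        have e1 : (1:ZMod p) - m = -(m * (e * u)) := by
          linear_combination -hmm
        calc -(e : ZMod p) * ((a:ZMod p) - a * m) * (a * m)
            = -(e : ZMod p) * (a * (1 - m)) * (a * m) := by ring
          _ = (e * e) * ((a * m)^2 * u) := by rw [e1]; ring
          _ = (a * m)^2 * u := by rw [hee, one_mul]
      have ham : (a:ZMod p) * m ≠ 0 := mul_ne_zero ha' hm0
      refine ⟨s * (a * m)⁻¹, ?_⟩
      have h2 : (a * m)^2 * u = s * s := by rw [← key]; exact hs
      have h3 : u = (s * s) * ((a * m)⁻¹ * (a * m)⁻¹) := by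
        rw [← h2]
        field_simp
      rw [h3]; ring
    · intro u hu u' hu' h
      simp only at h
      have h2 := mul_left_cancel₀ ha' h
      have h3 := inv_injective h2
      have h4 : (e : ZMod p) * u = e * u' := by linear_combination -h3
      have he0 : (e : ZMod p) ≠ 0 := by
        intro h5; rw [h5] at hee; simp at hee
      exact mul_left_cancel₀ he0 h4
  have h2 := pred_card_le_card_erase (s := (univ : Finset (ZMod p)).filter
    (fun u => ¬ IsSquare u)) (a := (e : ZMod p))
  omega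

lemma Nbad_bounds (a : ℕ) (e : ℤ) (he : e = 1 ∨ e = -1) (p : ℕ) (hp : p.Prime) (h2 : p ≠ 2) :
    (p:ℝ) * (p-1) * (p-2) ≤ Nbad a e p ∧ Nbad a e p ≤ 2 * (p:ℝ)^3 := by
  have : Fact p.Prime := ⟨hp⟩
  have hp3 : 3 ≤ p := by
    have := hp.two_le
    omega
  have hp3' : (3:ℝ) ≤ p := by exact_mod_cast hp3
  unfold Nbad beta
  by_cases hpa : p ∣ a
  · simp only [if_pos hpa]
    have h1 : ∑ z ∈ range (p^2), (if p ∣ z then (p:ℝ)^2 else 0) = p^3 := by
      rw [← sum_filter, sum_const, card_dvd p hp, nsmul_eq_mul]; ring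
    rw [h1]
    constructor
    · nlinarith
    · nlinarith [pow_pos (show (0:ℝ) < p by linarith) 3]
  · simp only [if_neg hpa]
    rw [sum_add_distrib]
    have h1 : ∑ z ∈ range (p^2), (if p ∣ z ∧ ¬ p^2 ∣ z then (p:ℝ) * nsq p else 0) =
        (p-1) * (p * nsq p) := by
      rw [← sum_filter, sum_const, card_exact p hp, nsmul_eq_mul, Nat.cast_sub hp.one_lt.le,
        Nat.cast_one]
    set nm := ((univ : Finset (ZMod p)).filter (fun u =>
      ¬ IsSquare (-(e : ZMod p) * ((a:ZMod p) - u) * u))).card with hnm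
    have h3 : ∑ z ∈ range (p^2), (if ¬ IsSquare (-(e : ZMod p) * ((a:ZMod p) - (z:ℕ)) * (z:ℕ))
        then (p:ℝ) - 1 else 0) = p * (nm * (p - 1)) := by
      have := sum_range_periodic p (fun z : ℕ => if ¬ IsSquare (-(e : ZMod p) *
        ((a:ZMod p) - (z:ℕ)) * (z:ℕ)) then (p:ℝ) - 1 else 0) (by
          intro t
          have : ((t % p : ℕ) : ZMod p) = (t : ZMod p) :=
            (ZMod.natCast_eq_natCast_iff _ _ _).mpr (Nat.mod_modEq t p)
          rw [this]) p 0
      rw [add_zero, ← sq] at this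
      have h8 := range_count p (fun u => ¬ IsSquare (-(e : ZMod p) * ((a:ZMod p) - u) * u))
      rw [this, ← sum_filter, sum_const, nsmul_eq_mul, hnm, ← h8]
      simp
    rw [h1]
    suffices h : ((p:ℝ)*(p-1)*(p-2) ≤ (p-1)*(p*nsq p) + p*(nm*(p-1)) ∧
        (p-1)*(p*nsq p) + p*(nm*(p-1)) ≤ 2*(p:ℝ)^3) by
      rw [← h3] at h
      convert h
    have h4 := nsq_lower p h2
    have h5 := nsq_upper p
    have h6 : nsq p ≤ nm + 1 := by
      rw [hnm]
      convert nminus a e he p hpa
    have h7 : nm ≤ p := by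
      rw [hnm]
      refine (card_filter_le _ _).trans ?_
      rw [card_univ, ZMod.card]
    have h4' : (p:ℝ) ≤ 2 * nsq p + 1 := by exact_mod_cast h4
    have h5' : (nsq p : ℝ) ≤ p := by exact_mod_cast h5
    have h6' : (nsq p : ℝ) ≤ nm + 1 := by exact_mod_cast h6
    have h7' : (nm : ℝ) ≤ p := by exact_mod_cast h7
    have hpp : (0:ℝ) ≤ p * (p - 1) := by nlinarith
    constructor
    · have : (p:ℝ) - 2 ≤ nsq p + nm := by linarith
      have := mul_le_mul_of_nonneg_left this hpp
      linarith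
    · have h8 : (nsq p : ℝ) + nm ≤ 2 * p := by linarith
      have h9 := mul_le_mul_of_nonneg_left h8 hpp
      have h10 : (p:ℝ) * (p-1) * (2*p) ≤ 2 * p^3 := by nlinarith
      linarith

end Pool.Agent.H12
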