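import Mathlib
import Pool.Agent.H12.Local
import Pool.Agent.H12.Brun

/-!
Joint count over pairs `(z,t)` and the sieve bound for one `a`.
-/

namespace Pool.Agent.H12

open Finset Classical

lemma Nbad_nonneg (a : ℕ) (e : ℤ) (p : ℕ) (hp : p.Prime) : 0 ≤ Nbad a e p :=
  sum_nonneg fun z _ => beta_nonneg a e p z hp

/-- density of the bad event -/
noncomputable def dens (a : ℕ) (e : ℤ) (p : ℕ) : ℝ := Nbad a e p / (p:ℝ)^4

lemma dens_bounds (a : ℕ) (e : ℤ) (he : e = 1 ∨ e = -1) (p : ℕ) (hp : p.Prime) (h2 : p ≠ 2) :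
    0 ≤ dens a e p ∧ dens a e p ≤ 1 ∧ dens a e p ≤ 2 / p ∧ 1/(p:ℝ) - 3/(p:ℝ)^2 ≤ dens a e p := by
  have hp3 : 3 ≤ p := by
    have := hp.two_le
    omega
  have hp3' : (3:ℝ) ≤ p := by exact_mod_cast hp3
  obtain ⟨h1, h3⟩ := Nbad_bounds a e he p hp h2
  have h4 : dens a e p ≤ 2 / p := by
    unfold dens
    rw [div_le_div_iff₀ (by positivity) (by positivity)]
    have : 2 * (p:ℝ)^4 = 2 * (p:ℝ)^3 * p := by ring
    rw [this]
    exact mul_le_mul_of_nonneg_right h3 (by positivity)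
  refine ⟨div_nonneg (Nbad_nonneg a e p hp) (by positivity), ?_, h4, ?_⟩
  · refine h4.trans ?_
    rw [div_le_one (by positivity)]; linarith
  · unfold dens
    rw [le_div_iff₀ (by positivity)]
    refine le_trans ?_ h1
    have : (1/(p:ℝ) - 3/(p:ℝ)^2) * (p:ℝ)^4 = (p:ℝ)^3 - 3 * (p:ℝ)^2 := by
      field_simp
    rw [this]; nlinarith

lemma joint_count (a S : ℕ) (e : ℤ) (he : e = 1 ∨ e = -1) (x0 v0 : ℕ → ℕ)
    (D : Finset ℕ) (hD : ∀ p ∈ D, p.Prime) (hD2 : ∀ p ∈ D, p ≠ 2) :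
    |(((range a ×ˢ range S).filter (fun ω : ℕ × ℕ =>
      ∀ p ∈ D, Bad a e p ω.1 (x0 ω.1) (v0 ω.1) ω.2)).card : ℝ) -
      ((a:ℝ) * S) * ∏ p ∈ D, dens a e p| ≤
    ((a:ℝ) + S) * ((∏ p ∈ D, p^2 : ℕ) : ℝ) + ((∏ p ∈ D, p^2 : ℕ) : ℝ)^2 := by
  set Q := ∏ p ∈ D, p^2 with hQ
  have hQ0 : 0 < Q := prod_pos fun p hp => pow_pos (hD p hp).pos 2
  have hQ' : (0:ℝ) < Q := by exact_mod_cast hQ0
  set B : ℕ → ℝ := fun z => ∏ p ∈ D, beta a e p z with hB
  set NN := ∏ p ∈ D, Nbad a e p with hNN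
  have hB0 : ∀ z, 0 ≤ B z := fun z => prod_nonneg fun p hp => beta_nonneg a e p z (hD p hp)
  have hBper : ∀ z, B (z % Q) = B z := by
    intro z
    refine prod_congr rfl fun p hp => ?_
    rw [← beta_mod a e p z, ← beta_mod a e p (z % Q)]
    congr 1
    exact Nat.mod_mod_of_dvd z (Finset.dvd_prod_of_mem (fun p => p^2) hp)
  have hBsum : ∑ z ∈ range Q, B z = NN := by
    rw [hQ]
    exact crt_prod D hD (fun p z => beta a e p z) (fun p _ z => beta_mod a e p z)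
  have h1 := per_avg Q hQ0 B hBper hB0 a
  rw [hBsum] at h1
  have hNN0 : 0 ≤ NN := prod_nonneg fun p hp => Nbad_nonneg a e p (hD p hp)
  -- inner sum
  have h2 : ∀ z ∈ range a, |((range S).filter (fun t =>
      ∀ p ∈ D, Bad a e p z (x0 z) (v0 z) t)).card - (S:ℝ)/Q * B z| ≤ B z := by
    intro z hz
    rw [mem_range] at hz
    set F : ℕ → ℝ := fun t => ∏ p ∈ D, (if Bad a e p z (x0 z) (v0 z) t then (1:ℝ) else 0) with hF
    have hF0 : ∀ t, 0 ≤ F t := fun t => prod_nonneg fun p _ => by split_ifs <;> norm_num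
    have hFper : ∀ t, F (t % Q) = F t := by
      intro t
      refine prod_congr rfl fun p hp => ?_
      have e1 : t % Q % p^2 = t % p^2 :=
        Nat.mod_mod_of_dvd t (Finset.dvd_prod_of_mem (fun p => p^2) hp)
      have e2 : Bad a e p z (x0 z) (v0 z) (t % Q) ↔ Bad a e p z (x0 z) (v0 z) t := by
        rw [← bad_mod a e p z (x0 z) (v0 z) (t % Q), e1, bad_mod]
      simp only [e2]
    have hFsum : ∑ t ∈ range Q, F t = B z := by
      rw [hQ, hB]
      simp only [hF]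
      rw [crt_prod D hD (fun p t => if Bad a e p z (x0 z) (v0 z) t then (1:ℝ) else 0)]
      · exact prod_congr rfl fun p hp => sum_bad a e he p z (x0 z) (v0 z) (hD p hp) hz
      · intro p _ t
        simp only [bad_mod]
    have h3 := per_avg Q hQ0 F hFper hF0 S
    rw [hFsum] at h3
    have h4 : (((range S).filter (fun t => ∀ p ∈ D, Bad a e p z (x0 z) (v0 z) t)).card : ℝ) =
        ∑ t ∈ range S, F t := by
      rw [← sum_boole (R := ℝ)]
      refine sum_congr rfl fun t _ => ?_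
      simp only [hF]
      split_ifs with hc
      · exact (prod_eq_one fun p hp => if_pos (hc p hp)).symm
      · push Not at hc
        obtain ⟨p, hp, hpe⟩ := hc
        exact (prod_eq_zero hp (if_neg hpe)).symm
    rw [h4]; exact h3
  -- total
  have h3 : (((range a ×ˢ range S).filter (fun ω : ℕ × ℕ =>
      ∀ p ∈ D, Bad a e p ω.1 (x0 ω.1) (v0 ω.1) ω.2)).card : ℝ) =
      ∑ z ∈ range a, (((range S).filter (fun t =>
        ∀ p ∈ D, Bad a e p z (x0 z) (v0 z) t)).card : ℝ) := by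
    rw [← sum_boole (R := ℝ), sum_product]
    refine sum_congr rfl fun z _ => ?_
    rw [← sum_boole (R := ℝ)]
  rw [h3]
  have h4 : |∑ z ∈ range a, (((range S).filter (fun t =>
        ∀ p ∈ D, Bad a e p z (x0 z) (v0 z) t)).card : ℝ) - (S:ℝ)/Q * ∑ z ∈ range a, B z| ≤
        ∑ z ∈ range a, B z := by
    rw [mul_sum, ← sum_sub_distrib]
    exact (abs_sum_le_sum_abs _ _).trans (sum_le_sum h2)
  have h5 : ((a:ℝ) * S) * ∏ p ∈ D, dens a e p = (S:ℝ)/Q * ((a:ℝ)/Q * NN) := by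
    have : ∏ p ∈ D, dens a e p = NN / (Q:ℝ)^2 := by
      unfold dens
      rw [prod_div_distrib, hNN, hQ]
      congr 1
      push_cast
      rw [← prod_pow]
      refine prod_congr rfl fun p _ => ?_
      ring
    rw [this]; field_simp
  have hNQ : NN ≤ (Q:ℝ)^2 := by
    have : (Q:ℝ)^2 = ∏ p ∈ D, (p:ℝ)^4 := by
      rw [hQ]; push_cast; rw [← prod_pow]
      refine prod_congr rfl fun p _ => ?_
      ring
    rw [this, hNN]
    refine prod_le_prod (fun p hp => Nbad_nonneg a e p (hD p hp)) fun p hp => ?_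
    have h6 := (Nbad_bounds a e he p (hD p hp) (hD2 p hp)).2
    have h7 : (2:ℝ) ≤ p := by exact_mod_cast (hD p hp).two_le
    have h8 : (0:ℝ) ≤ (p:ℝ)^3 := by positivity
    nlinarith
  rw [abs_le] at h1 h4
  have hsq : 0 ≤ (S:ℝ)/Q := by positivity
  have hm1 := mul_le_mul_of_nonneg_left h1.1 hsq
  have hm2 := mul_le_mul_of_nonneg_left h1.2 hsq
  have hfin : ((a:ℝ)/Q + 1 + S/Q) * NN ≤ ((a:ℝ) + S) * Q + (Q:ℝ)^2 := by
    have : ((a:ℝ)/Q + 1 + S/Q) * NN ≤ ((a:ℝ)/Q + 1 + S/Q) * (Q:ℝ)^2 :=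
      mul_le_mul_of_nonneg_left hNQ (by positivity)
    refine this.trans (le_of_eq ?_)
    field_simp
    ring
  rw [h5, abs_le]
  constructor
  · nlinarith [h4.1, h4.2, hm1, hm2, h1.1, h1.2, hfin]
  · nlinarith [h4.1, h4.2, hm1, hm2, h1.1, h1.2, hfin]

/-- the number of pairs `(z,t)` without bad events at the primes of `P` -/
theorem sieve_bound (a S : ℕ) (e : ℤ) (he : e = 1 ∨ e = -1) (x0 v0 : ℕ → ℕ)
    (P : Finset ℕ) (hP : ∀ p ∈ P, p.Prime) (hP2 : ∀ p ∈ P, p ≠ 2) (r : ℕ) (hr : Even r)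
    (Y : ℝ) (hY : ∀ p ∈ P, (p:ℝ) ≤ Y) (hPY : (P.card : ℝ) + 1 ≤ Y) (hY1 : 1 ≤ Y) :
    (((range a ×ˢ range S).filter (fun ω : ℕ × ℕ =>
      ∀ p ∈ P, ¬ Bad a e p ω.1 (x0 ω.1) (v0 ω.1) ω.2)).card : ℝ) ≤
    ((a:ℝ) * S) * (∏ p ∈ P, (1 - dens a e p) +
      (∑ p ∈ P, dens a e p)^(r+1) / ((r+1).factorial : ℝ)) +
      Y^r * (((a:ℝ) + S) * Y^(2*r) + Y^(4*r)) := by
  have hY0 : (0:ℝ) ≤ Y := by linarith
  have h := brun (range a ×ˢ range S) P
    (fun p ω => Bad a e p ω.1 (x0 ω.1) (v0 ω.1) ω.2) (dens a e)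
    (fun p hp => ⟨(dens_bounds a e he p (hP p hp) (hP2 p hp)).1,
      (dens_bounds a e he p (hP p hp) (hP2 p hp)).2.1⟩) r hr ((a:ℝ) * S)
    (((a:ℝ) + S) * Y^(2*r) + Y^(4*r)) (by positivity) (by positivity) ?_
  · refine h.trans ?_
    have : ((P.card : ℝ) + 1)^r ≤ Y^r := pow_le_pow_left₀ (by positivity) hPY r
    have h2 := mul_le_mul_of_nonneg_right this
      (show (0:ℝ) ≤ ((a:ℝ) + S) * Y^(2*r) + Y^(4*r) by positivity)
    linarith
  · intro D hD hDr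
    have h1 := joint_count a S e he x0 v0 D (fun p hp => hP p (hD hp)) (fun p hp => hP2 p (hD hp))
    refine h1.trans ?_
    have hQ : ((∏ p ∈ D, p^2 : ℕ) : ℝ) ≤ Y^(2*r) := by
      push_cast
      calc ∏ p ∈ D, (p:ℝ)^2 ≤ ∏ p ∈ D, Y^2 :=
            prod_le_prod (fun p _ => by positivity) (fun p hp =>
              pow_le_pow_left₀ (by positivity) (hY p (hD hp)) 2)
        _ = (Y^2)^D.card := by rw [prod_const]
        _ ≤ (Y^2)^r := pow_le_pow_right₀ (by nlinarith) hDr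
        _ = Y^(2*r) := by rw [← pow_mul]
    have hQ2 : ((∏ p ∈ D, p^2 : ℕ) : ℝ)^2 ≤ Y^(4*r) := by
      calc ((∏ p ∈ D, p^2 : ℕ) : ℝ)^2 ≤ (Y^(2*r))^2 := pow_le_pow_left₀ (by positivity) hQ 2
        _ = Y^(4*r) := by rw [← pow_mul]; congr 1; ring
    have := mul_le_mul_of_nonneg_left hQ (show (0:ℝ) ≤ (a:ℝ) + S by positivity)
    linarith

end Pool.Agent.H12
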