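import Mathlib
import Pool.Agent.H12.Sieve

/-!
Average of `(2/3)^(number of primes exactly dividing z)`.
-/

namespace Pool.Agent.H12

open Finset

/-- the primes of `P` which divide `z` exactly once -/
def exactly (P : Finset ℕ) (z : ℕ) : Finset ℕ := P.filter (fun p => p ∣ z ∧ ¬ p^2 ∣ z)

/-- local factor -/
noncomputable def hfac (p w : ℕ) : ℝ := if p ∣ w ∧ ¬ p^2 ∣ w then 2/3 else 1

lemma hfac_pos (p w : ℕ) : 0 < hfac p w := by
  unfold hfac; split_ifs <;> norm_num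

lemma hfac_mod (p w : ℕ) : hfac p (w % p^2) = hfac p w := by
  unfold hfac
  have h1 : p ∣ w % p^2 ↔ p ∣ w := (Nat.dvd_mod_iff (Dvd.intro_left (p^1) rfl))
  have h2 : p^2 ∣ w % p^2 ↔ p^2 ∣ w := Nat.dvd_mod_iff dvd_rfl
  simp only [h1, h2]

lemma pow_exactly (P : Finset ℕ) (z : ℕ) :
    ((2:ℝ)/3)^(exactly P z).card = ∏ p ∈ P, hfac p z := by
  unfold exactly hfac
  rw [prod_ite, prod_const, prod_const_one, mul_one]

lemma sum_hfac (p : ℕ) (hp : p.Prime) :
    ∑ w ∈ range (p^2), hfac p w ≤ (p:ℝ)^2 * (1 - (p-1)/(3*p^2)) := by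
  have h1 : ∑ w ∈ range (p^2), hfac p w =
      (p:ℝ)^2 - (1/3) * ((range (p^2)).filter (fun w => p ∣ w ∧ ¬ p^2 ∣ w)).card := by
    have : ∀ w, hfac p w = 1 - (1/3) * (if p ∣ w ∧ ¬ p^2 ∣ w then (1:ℝ) else 0) := by
      intro w; unfold hfac; split_ifs <;> norm_num
    simp only [this]
    rw [sum_sub_distrib, ← mul_sum, sum_boole]
    simp
  have h2 : p - 1 ≤ ((range (p^2)).filter (fun w => p ∣ w ∧ ¬ p^2 ∣ w)).card := by
    have : (Icc 1 (p-1)).card ≤ ((range (p^2)).filter (fun w => p ∣ w ∧ ¬ p^2 ∣ w)).card := by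
      refine card_le_card_of_injOn (fun i => p * i) ?_ ?_
      · intro i hi
        simp only [coe_Icc, Set.mem_Icc] at hi
        simp only [coe_filter, mem_range, Set.mem_ofPred_eq]
        have hp1 := hp.one_lt
        refine ⟨?_, Dvd.intro i rfl, ?_⟩
        · have : i < p := by omega
          nlinarith
        · intro h
          rw [sq] at h
          have := Nat.dvd_of_mul_dvd_mul_left hp.pos h
          have := Nat.le_of_dvd (by omega) this
          omega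
      · intro i _ j _ h
        exact Nat.eq_of_mul_eq_mul_left hp.pos h
    simpa using this
  rw [h1]
  have hp1 := hp.one_lt
  have h3 : ((p:ℝ) - 1) ≤ ((range (p^2)).filter (fun w => p ∣ w ∧ ¬ p^2 ∣ w)).card := by
    have : ((p - 1 : ℕ) : ℝ) ≤ ((range (p^2)).filter (fun w => p ∣ w ∧ ¬ p^2 ∣ w)).card := by
      exact_mod_cast h2
    rwa [Nat.cast_sub hp1.le, Nat.cast_one] at this
  have hp0 : (p:ℝ) ≠ 0 := by exact_mod_cast hp.ne_zero
  have h4 : (p:ℝ)^2 * (1 - (p-1)/(3*p^2)) = p^2 - (1/3)*(p-1) := by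
    field_simp
  rw [h4]
  linarith

/-- modulus -/
def Qsq (P : Finset ℕ) : ℕ := ∏ p ∈ P, p^2

/-- the density -/
noncomputable def delta (P : Finset ℕ) : ℝ := ∏ p ∈ P, (1 - ((p:ℝ)-1)/(3*p^2))

lemma modEq_prod_sq {S : Finset ℕ} (hS : ∀ p ∈ S, p.Prime) {r s : ℕ}
    (h : ∀ p ∈ S, r ≡ s [MOD p^2]) : r ≡ s [MOD ∏ p ∈ S, p^2] := by
  wlog hrs : r ≤ s generalizing r s
  · exact (this (fun p hp => (h p hp).symm) (by omega)).symm
  rw [Nat.modEq_iff_dvd' hrs]
  refine Finset.prod_dvd_of_isRelPrime ?_ (fun p hp => (Nat.modEq_iff_dvd' hrs).mp (h p hp))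
  intro p hp q hq hpq
  have := (Nat.coprime_primes (hS p hp) (hS q hq)).mpr hpq
  exact Nat.coprime_iff_isRelPrime.mp (Nat.Coprime.pow 2 2 this)

lemma sum_period (P : Finset ℕ) (hP : ∀ p ∈ P, p.Prime) :
    ∑ z ∈ range (Qsq P), ∏ p ∈ P, hfac p z ≤ Qsq P * delta P := by
  have h1 : ∏ p ∈ P, ∑ w ∈ range (p^2), hfac p w ≤ Qsq P * delta P := by
    have : (Qsq P : ℝ) * delta P = ∏ p ∈ P, ((p:ℝ)^2 * (1 - (p-1)/(3*p^2))) := by
      unfold Qsq delta
      rw [prod_mul_distrib]; push_cast; rfl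
    rw [this]
    refine prod_le_prod (fun p _ => sum_nonneg fun w _ => (hfac_pos p w).le) fun p hp => ?_
    exact sum_hfac p (hP p hp)
  refine le_trans ?_ h1
  rw [prod_sum]
  have h2 : ∑ z ∈ range (Qsq P), ∏ p ∈ P, hfac p z =
      ∑ z ∈ range (Qsq P), (fun f : (p : ℕ) → p ∈ P → ℕ => ∏ x ∈ P.attach, hfac x.1 (f x.1 x.2))
        (fun p _ => z % p^2) := by
    refine sum_congr rfl fun z _ => ?_
    simp only [hfac_mod]
    rw [← prod_attach]
  rw [h2, ← sum_image (f := fun f : (p : ℕ) → p ∈ P → ℕ =>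
    ∏ x ∈ P.attach, hfac x.1 (f x.1 x.2)) (g := fun z => (fun p _ => z % p^2))]
  · refine sum_le_sum_of_subset_of_nonneg ?_ (fun f _ _ => ?_)
    · intro f hf
      rw [mem_image] at hf
      obtain ⟨z, hz, rfl⟩ := hf
      rw [mem_pi]
      intro p hp
      rw [mem_range]
      exact Nat.mod_lt _ (by have := (hP p hp).pos; positivity)
    · exact prod_nonneg fun x _ => (hfac_pos _ _).le
  · intro z hz z' hz' h
    simp only [coe_range, Set.mem_Iio] at hz hz'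
    have h3 : z ≡ z' [MOD ∏ p ∈ P, p^2] := modEq_prod_sq hP (by
      intro p hp
      exact congrFun (congrFun h p) hp)
    exact Nat.ModEq.eq_of_lt_of_lt h3 hz hz'

lemma avg_z (P : Finset ℕ) (hP : ∀ p ∈ P, p.Prime) (a : ℕ) :
    ∑ z ∈ range a, ((2:ℝ)/3)^(exactly P z).card ≤ (a + Qsq P) * delta P := by
  have hQ0 : 0 < Qsq P := prod_pos fun p hp => pow_pos (hP p hp).pos 2
  simp only [pow_exactly]
  have hmod : ∀ z, ∏ p ∈ P, hfac p z = ∏ p ∈ P, hfac p (z % Qsq P) := by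
    intro z
    refine prod_congr rfl fun p hp => ?_
    rw [← hfac_mod p z, ← hfac_mod p (z % Qsq P)]
    congr 1
    have : z % Qsq P ≡ z [MOD p^2] := (Nat.mod_modEq z (Qsq P)).of_dvd
      (Finset.dvd_prod_of_mem (fun p => p^2) hp)
    exact this.symm
  have h1 : ∑ z ∈ range a, ∏ p ∈ P, hfac p z ≤
      ∑ x ∈ (range (Qsq P)) ×ˢ (range (a / Qsq P + 1)), ∏ p ∈ P, hfac p x.1 := by
    have : ∑ z ∈ range a, ∏ p ∈ P, hfac p z =
        ∑ z ∈ range a, (fun x : ℕ × ℕ => ∏ p ∈ P, hfac p x.1) (z % Qsq P, z / Qsq P) :=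
      sum_congr rfl fun z _ => hmod z
    rw [this, ← sum_image (f := fun x : ℕ × ℕ => ∏ p ∈ P, hfac p x.1)
      (g := fun z => (z % Qsq P, z / Qsq P))]
    · refine sum_le_sum_of_subset_of_nonneg ?_ (fun f _ _ => ?_)
      · intro x hx
        rw [mem_image] at hx
        obtain ⟨z, hz, rfl⟩ := hx
        rw [mem_range] at hz
        rw [mem_product, mem_range, mem_range]
        refine ⟨Nat.mod_lt _ hQ0, ?_⟩
        have : z / Qsq P ≤ a / Qsq P := Nat.div_le_div_right hz.le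
        simp only; omega
      · exact prod_nonneg fun x _ => (hfac_pos _ _).le
    · intro z _ z' _ h
      simp only [Prod.mk.injEq] at h
      rw [← Nat.div_add_mod z (Qsq P), ← Nat.div_add_mod z' (Qsq P), h.1, h.2]
  refine h1.trans ?_
  rw [sum_product]
  simp only [sum_const, card_range, nsmul_eq_mul]
  rw [← mul_sum]
  have h2 := sum_period P hP
  have h3 : (((a / Qsq P + 1 : ℕ)) : ℝ) ≤ (a:ℝ) / Qsq P + 1 := by
    push_cast
    have : ((a / Qsq P : ℕ) : ℝ) ≤ (a:ℝ) / Qsq P := Nat.cast_div_le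
    linarith
  have h4 : (0:ℝ) ≤ (Qsq P : ℝ) * delta P := le_trans
    (sum_nonneg fun z _ => prod_nonneg fun x _ => (hfac_pos _ _).le) h2
  have hQ' : (Qsq P : ℝ) ≠ 0 := by exact_mod_cast hQ0.ne'
  calc (((a / Qsq P + 1 : ℕ)) : ℝ) * ∑ z ∈ range (Qsq P), ∏ p ∈ P, hfac p z
      ≤ (((a / Qsq P + 1 : ℕ)) : ℝ) * (Qsq P * delta P) := by gcongr
    _ ≤ ((a:ℝ) / Qsq P + 1) * (Qsq P * delta P) := mul_le_mul_of_nonneg_right h3 h4
    _ = (a + Qsq P) * delta P := by field_simp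

end Pool.Agent.H12
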