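import Mathlib

/-!
Definitions: symmetric designs and their parameter triples.
-/

namespace Pool.Agent.H12

open Finset

/-- There is a symmetric `(v,k,l)`-design: `k < v`, and there is an indexed family of `v` blocks
(subsets of a `v`-element set) such that every block has exactly `k` points, every point lies in
exactly `r` blocks (for some number `r`) and any two distinct points lie together in exactly `l`
blocks. -/
def SymmetricDesignExists (v k l : ℕ) : Prop :=
  k < v ∧ ∃ (r : ℕ) (B : Fin v → Finset (Fin v)),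
    (∀ j, (B j).card = k) ∧
    (∀ x, (univ.filter (fun j => x ∈ B j)).card = r) ∧
    (∀ x y, x ≠ y → (univ.filter (fun j => x ∈ B j ∧ y ∈ B j)).card = l)

/-- The triples `(v,k,l)` of positive integers with `k < v ≤ X` and `l (v-1) = k (k-1)`. -/
def admissibleTriples (X : ℕ) : Set (ℕ × ℕ × ℕ) :=
  {t | 0 < t.2.1 ∧ 0 < t.2.2 ∧ t.2.1 < t.1 ∧ t.1 ≤ X ∧ t.2.2 * (t.1 - 1) = t.2.1 * (t.2.1 - 1)}

/-- The triples `(v,k,l)` of positive integers with `k < v ≤ X` for which a symmetric
`(v,k,l)`-design exists. -/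
def designTriples (X : ℕ) : Set (ℕ × ℕ × ℕ) :=
  {t | 0 < t.2.1 ∧ 0 < t.2.2 ∧ t.2.1 < t.1 ∧ t.1 ≤ X ∧ SymmetricDesignExists t.1 t.2.1 t.2.2}

/-- For fixed `l`, the block sizes `l < k ≤ K` with `l ∣ k (k-1)`; for these (and only these)
`k ≤ K` there is an integer `v > k` with `l (v-1) = k (k-1)`. -/
def admissibleSizes (l K : ℕ) : Set ℕ := {k | l < k ∧ k ≤ K ∧ l ∣ k * (k - 1)}

/-- For fixed `l`, the block sizes `0 < k ≤ K` such that a symmetric `(v,k,l)`-design exists for
some `v`, where in case `l` is a perfect square the designs with `v % 4 = 1` are left out. -/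
def designSizes (l K : ℕ) : Set ℕ :=
  {k | 0 < k ∧ k ≤ K ∧ ∃ v, SymmetricDesignExists v k l ∧ (¬ IsSquare l ∨ v % 4 ≠ 1)}

end Pool.Agent.H12
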