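import Mathlib
import Pool.Agent.H12.Defs

/-!
Bruck-Ryser-Chowla theorem (necessary conditions for symmetric designs), proved from scratch.
-/

namespace Pool.Agent.H12

open Finset

/-- elimination lemma -/
lemma elim (m : ℕ) : ∀ f : Fin m → ((Fin (m+1) → ℚ) →ₗ[ℚ] ℚ),
    ∃ y : Fin (m+1) → ℚ, y (Fin.last m) = 1 ∧ ∀ i : Fin m, (f i y)^2 = (y i.castSucc)^2 := by
  induction m with
  | zero => intro f; exact ⟨fun _ => 1, rfl, fun i => i.elim0⟩
  | succ m ih =>
    intro f
    obtain ⟨e, he1, he2⟩ : ∃ e : ℚ, e^2 = 1 ∧ e - f 0 (Pi.single 0 1) ≠ 0 := by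
      by_cases h : f 0 (Pi.single 0 1) = 1
      · refine ⟨-1, by norm_num, ?_⟩
        rw [h]; norm_num
      · refine ⟨1, by norm_num, ?_⟩
        intro h'; apply h; linarith
    set c := f 0 (Pi.single 0 1) with hc
    let ι : (Fin (m+1) → ℚ) →ₗ[ℚ] (Fin (m+2) → ℚ) :=
      { toFun := fun z => Fin.cons ((e - c)⁻¹ * f 0 (Fin.cons 0 z)) z
        map_add' := by
          intro z w
          funext i
          refine Fin.cases ?_ (fun j => ?_) i
          · have : (Fin.cons 0 (z + w) : Fin (m+2) → ℚ) = Fin.cons 0 z + Fin.cons 0 w := by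
              funext i
              refine Fin.cases ?_ (fun j => ?_) i <;> simp
            simp only [Fin.cons_zero, Pi.add_apply]
            rw [this, map_add]; ring
          · simp
        map_smul' := by
          intro a z
          funext i
          refine Fin.cases ?_ (fun j => ?_) i
          · have : (Fin.cons 0 (a • z) : Fin (m+2) → ℚ) = a • Fin.cons 0 z := by
              funext i
              refine Fin.cases ?_ (fun j => ?_) i <;> simp
            simp only [Fin.cons_zero, Pi.smul_apply, RingHom.id_apply, smul_eq_mul]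
            rw [this, map_smul, smul_eq_mul]; ring
          · simp }
    obtain ⟨z, hz1, hz2⟩ := ih (fun i => (f i.succ).comp ι)
    refine ⟨ι z, ?_, ?_⟩
    · have : ι z (Fin.last (m+1)) = z (Fin.last m) := by
        rw [← Fin.succ_last]; simp [ι]
      rw [this, hz1]
    · intro i
      refine Fin.cases ?_ (fun j => ?_) i
      · have h1 : ι z = ((e - c)⁻¹ * f 0 (Fin.cons 0 z)) • (Pi.single 0 1) + Fin.cons 0 z := by
          funext i
          refine Fin.cases ?_ (fun j => ?_) i
          · simp [ι]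
          · simp [ι]
        have h2 : f 0 (ι z) = e * ((e - c)⁻¹ * f 0 (Fin.cons 0 z)) := by
          rw [h1, map_add, map_smul, ← hc, smul_eq_mul]
          field_simp
          ring
        have h3 : ι z (Fin.castSucc 0) = (e - c)⁻¹ * f 0 (Fin.cons 0 z) := by
          simp [ι]
        rw [h2, h3, mul_pow, he1, one_mul]
      · have := hz2 j
        have h3 : ι z (Fin.castSucc j.succ) = z j.castSucc := by
          rw [← Fin.succ_castSucc]; simp [ι]
        rw [h3, ← this]; rfl

/-- four square transform on one block of four coordinates -/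
lemma four_block (n : ℕ) (hn : 0 < n) : ∃ T : (Fin 4 → ℚ) →ₗ[ℚ] (Fin 4 → ℚ),
    ∀ y, (n : ℚ) * ∑ i, (T y i)^2 = ∑ i, (y i)^2 := by
  obtain ⟨a, b, c, d, h⟩ := Nat.sum_four_squares n
  have hn' : (n : ℚ) ≠ 0 := by exact_mod_cast hn.ne'
  have h' : (a:ℚ)^2 + b^2 + c^2 + d^2 = n := by exact_mod_cast h
  let M : Matrix (Fin 4) (Fin 4) ℚ :=
    !![(a:ℚ)/n, b/n, c/n, d/n; b/n, -a/n, d/n, -c/n; c/n, -d/n, -a/n, b/n; d/n, c/n, -b/n, -a/n]
  refine ⟨Matrix.mulVecLin M, fun y => ?_⟩
  simp only [Matrix.mulVecLin_apply, Matrix.mulVec, dotProduct, Fin.sum_univ_four, M]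
  simp only [Matrix.of_apply, Matrix.cons_val', Matrix.cons_val_zero, Matrix.cons_val_one,
    Matrix.cons_val_two, Matrix.cons_val_three, Matrix.head_cons, Matrix.tail_cons,
    Matrix.empty_val', Matrix.cons_val_fin_one, Matrix.head_fin_const]
  field_simp
  rw [← h']
  ring

lemma four_transform (n : ℕ) (hn : 0 < n) (s : ℕ) :
    ∃ T : (Fin (s*4) → ℚ) →ₗ[ℚ] (Fin (s*4) → ℚ),
    ∀ y, (n : ℚ) * ∑ i, (T y i)^2 = ∑ i, (y i)^2 := by
  obtain ⟨T, hT⟩ := four_block n hn
  let e : Fin s × Fin 4 ≃ Fin (s*4) := finProdFinEquiv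
  refine ⟨{ toFun := fun y i => T (fun j => y (e ((e.symm i).1, j))) (e.symm i).2
            map_add' := ?_, map_smul' := ?_ }, ?_⟩
  · intro y z
    funext i
    have : (fun j => (y + z) (e ((e.symm i).1, j))) =
      (fun j => y (e ((e.symm i).1, j))) + (fun j => z (e ((e.symm i).1, j))) := rfl
    change T (fun j => (y + z) (e ((e.symm i).1, j))) (e.symm i).2 = _
    rw [this, map_add]; rfl
  · intro a y
    funext i
    have : (fun j => (a • y) (e ((e.symm i).1, j))) =
      a • (fun j => y (e ((e.symm i).1, j))) := rfl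
    change T (fun j => (a • y) (e ((e.symm i).1, j))) (e.symm i).2 = _
    rw [this, map_smul]; rfl
  · intro y
    rw [← e.sum_comp (fun i => (y i)^2)]
    rw [← e.sum_comp, Fintype.sum_prod_type, Fintype.sum_prod_type, Finset.mul_sum]
    refine Finset.sum_congr rfl fun i _ => ?_
    have := hT (fun j => y (e (i, j)))
    rw [← this]
    congr 1
    refine Finset.sum_congr rfl fun j _ => ?_
    simp

lemma four_transform' (n : ℕ) (hn : 0 < n) (M : ℕ) (hM : M % 4 = 0) :
    ∃ T : (Fin M → ℚ) →ₗ[ℚ] (Fin M → ℚ),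
    ∀ y, (n : ℚ) * ∑ i, (T y i)^2 = ∑ i, (y i)^2 := by
  obtain ⟨s, rfl⟩ : ∃ s, M = s * 4 := ⟨M / 4, by omega⟩
  exact four_transform n hn s

section design

variable {v k l : ℕ}

/-- the incidence matrix and its Gram matrix -/
lemma incidence (h : SymmetricDesignExists v k l) :
    ∃ N : Matrix (Fin v) (Fin v) ℚ, (∀ j, ∑ x, N x j = k) ∧
      ∀ x y, ∑ j, N x j * N y j = if x = y then (k:ℚ) else l := by
  obtain ⟨hkv, r, B, h1, h2, h3⟩ := h
  have hv : 0 < v := by omega
  have hr : r = k := by
    have e1 : ∑ j, (B j).card = ∑ x, (univ.filter (fun j => x ∈ B j)).card := by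
      have := Finset.sum_card_bipartiteAbove_eq_sum_card_bipartiteBelow
        (s := (univ : Finset (Fin v))) (t := (univ : Finset (Fin v))) (fun x j => x ∈ B j)
      simp only [Finset.bipartiteAbove, Finset.bipartiteBelow] at this
      rw [this]
      refine Finset.sum_congr rfl fun j _ => ?_
      congr 1
      ext x; simp
    simp only [h1, h2, Finset.sum_const, Finset.card_univ, Fintype.card_fin, smul_eq_mul] at e1
    exact (Nat.eq_of_mul_eq_mul_left hv e1).symm
  subst hr
  refine ⟨fun x j => if x ∈ B j then 1 else 0, fun j => ?_, fun x y => ?_⟩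
  · rw [Finset.sum_boole]
    have := h1 j
    rw [← this]; congr 2; ext x; simp
  · have : ∀ j, (if x ∈ B j then (1:ℚ) else 0) * (if y ∈ B j then (1:ℚ) else 0) =
        if (x ∈ B j ∧ y ∈ B j) then 1 else 0 := by
      intro j; split_ifs <;> simp_all
    simp only [this]
    rw [Finset.sum_boole]
    split_ifs with hxy
    · subst hxy
      have := h2 x
      simp only [and_self]
      exact_mod_cast this
    · exact_mod_cast h3 x y hxy

/-- basic quadratic identity of a symmetric design -/
lemma quad_identity (h : SymmetricDesignExists v k l) :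
    ∃ L : Fin v → ((Fin v → ℚ) →ₗ[ℚ] ℚ), (∀ j, L j (fun _ => 1) = k) ∧ ∀ u : Fin v → ℚ,
      ∑ j, (L j u)^2 = ((k:ℚ) - l) * ∑ i, (u i)^2 + l * (∑ i, u i)^2 := by
  obtain ⟨N, e0, e⟩ := incidence h
  refine ⟨fun j => ∑ x, N x j • LinearMap.proj x, fun j => ?_, fun u => ?_⟩
  · simp [e0]
  have e2 : ∀ j, ((∑ x, N x j • (LinearMap.proj x : (Fin v → ℚ) →ₗ[ℚ] ℚ)) u)^2 =
      ∑ x, ∑ y, u x * u y * (N x j * N y j) := by
    intro j
    simp only [LinearMap.sum_apply, LinearMap.smul_apply, LinearMap.proj_apply, smul_eq_mul]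
    rw [sq, Finset.sum_mul_sum]
    refine Finset.sum_congr rfl fun x _ => Finset.sum_congr rfl fun y _ => ?_
    ring
  simp only [e2]
  rw [Finset.sum_comm]
  have e3 : ∀ x, ∑ j, ∑ y, u x * u y * (N x j * N y j) =
      ((k:ℚ) - l) * (u x)^2 + l * (u x * ∑ y, u y) := by
    intro x
    rw [Finset.sum_comm]
    simp only [← Finset.mul_sum, e]
    have : ∀ y, u x * u y * (if x = y then (k:ℚ) else l) =
       (if x = y then ((k:ℚ) - l) * (u x * u y) else 0) + l * (u x * u y) := by
      intro y; split_ifs <;> ring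
    simp only [this, Finset.sum_add_distrib, Finset.sum_ite_eq, Finset.mem_univ, if_true,
      ← Finset.mul_sum]
    ring
  simp only [e3, Finset.sum_add_distrib, ← Finset.mul_sum, ← Finset.sum_mul]
  ring

/-- the counting identity `k^2 = (k - l) + l v` -/
lemma count_identity (h : SymmetricDesignExists v k l) : (k:ℚ)^2 = (k - l) + l * v := by
  obtain ⟨L, hL0, hL⟩ := quad_identity h
  have hv : (v:ℚ) ≠ 0 := by
    have := h.1
    have : v ≠ 0 := by omega
    exact_mod_cast this
  have := hL (fun _ => 1)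
  simp only [hL0, Finset.sum_const, Finset.card_univ, Fintype.card_fin, nsmul_eq_mul, one_pow,
    mul_one] at this
  have h2 : (v:ℚ) * (k^2 - ((k - l) + l * v)) = 0 := by linear_combination this
  rcases mul_eq_zero.mp h2 with h3 | h3
  · exact absurd h3 hv
  · linarith

/-- `v` even: the order is a square -/
lemma brc_even (h : SymmetricDesignExists v k l) (hl : l < k) (hv : v % 2 = 0) :
    IsSquare (k - l) := by
  obtain ⟨N, e0, e⟩ := incidence h
  have hc := count_identity h
  have hkl : ((k - l : ℕ) : ℚ) = k - l := by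
    rw [Nat.cast_sub hl.le]
  set n : ℚ := (k:ℚ) - l with hn
  have hn0 : n ≠ 0 := by
    have : (l:ℚ) < k := by exact_mod_cast hl
    rw [hn]; linarith
  have hv0 : 0 < v := by have := h.1; omega
  obtain ⟨s, rfl⟩ : ∃ s, v = 2 * s + 2 := ⟨v / 2 - 1, by omega⟩
  have hNN : N * N.transpose = n • (1 + Matrix.replicateCol Unit (fun _ => (l:ℚ)/n) *
      Matrix.replicateRow Unit (fun _ => (1:ℚ))) := by
    ext x y
    rw [Matrix.mul_apply]
    simp only [Matrix.transpose_apply, e, Matrix.smul_apply, Matrix.add_apply, Matrix.one_apply,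
      Matrix.mul_apply, Matrix.replicateCol_apply, Matrix.replicateRow_apply, smul_eq_mul,
      Finset.univ_unique, Finset.sum_singleton, mul_one]
    split_ifs
    · rw [mul_add, mul_div_cancel₀ _ hn0, hn]; ring
    · rw [zero_add, mul_div_cancel₀ _ hn0]
  have hdet : N.det ^ 2 = n ^ (2*s+2) * (1 + (2*s+2 : ℕ) * (l/n)) := by
    have := congrArg Matrix.det hNN
    rw [Matrix.det_mul, Matrix.det_transpose, Matrix.det_smul,
      Matrix.det_one_add_replicateCol_mul_replicateRow, Fintype.card_fin] at this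
    rw [sq, this]
    congr 2
    simp [dotProduct]
  have h4 : N.det ^ 2 = n * (n ^ s * k)^2 := by
    rw [hdet]
    have : n ^ (2*s+2) * (1 + (2*s+2 : ℕ) * (l/n)) = n^(2*s+1) * (n + l * (2*s+2 : ℕ)) := by
      field_simp
      ring
    rw [this, ← hc]; ring
  have hk0 : (k:ℚ) ≠ 0 := by
    have : k ≠ 0 := by omega
    exact_mod_cast this
  have h5 : IsSquare ((k - l : ℕ) : ℚ) := by
    rw [hkl]
    refine ⟨N.det / (n^s * k), ?_⟩
    have : n ^ s * (k:ℚ) ≠ 0 := mul_ne_zero (pow_ne_zero _ hn0) hk0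
    field_simp
    rw [h4]; ring
  exact Rat.isSquare_natCast_iff.mp h5

/-- BRC for `v ≡ 1 mod 4`. -/
lemma brc_one (h : SymmetricDesignExists v k l) (hl : l < k) (hv : v % 4 = 1) :
    ∃ a b : ℚ, a^2 = ((k - l : ℕ) : ℚ) + l * b^2 := by
  obtain ⟨L, -, hL⟩ := quad_identity h
  obtain ⟨s, rfl⟩ : ∃ s, v = s * 4 + 1 := ⟨v / 4, by omega⟩
  obtain ⟨T, hT⟩ := four_transform (k - l) (by omega) s
  have hkl : ((k - l : ℕ) : ℚ) = k - l := by
    rw [Nat.cast_sub hl.le]
  let U : (Fin (s*4+1) → ℚ) →ₗ[ℚ] (Fin (s*4+1) → ℚ) :=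
    { toFun := fun y => Fin.snoc (T (fun i => y i.castSucc)) (y (Fin.last _))
      map_add' := by
        intro y z
        have : (fun i : Fin (s*4) => (y + z) i.castSucc) =
          (fun i => y i.castSucc) + (fun i => z i.castSucc) := rfl
        funext i
        refine Fin.lastCases ?_ (fun j => ?_) i
        · simp
        · rw [this, map_add]; simp
      map_smul' := by
        intro a y
        have : (fun i : Fin (s*4) => (a • y) i.castSucc) =
          a • (fun i => y i.castSucc) := rfl
        funext i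
        refine Fin.lastCases ?_ (fun j => ?_) i
        · simp
        · rw [this, map_smul]; simp }
  obtain ⟨y, hy1, hy2⟩ := elim (s*4) (fun i => (L i.castSucc).comp U)
  have key := hL (U y)
  rw [Fin.sum_univ_castSucc (f := fun j => (L j (U y))^2),
    Fin.sum_univ_castSucc (f := fun j => (U y j)^2)] at key
  have e1 : ∀ i : Fin (s*4), U y i.castSucc = T (fun i => y i.castSucc) i := by
    intro i; simp [U]
  have e2 : U y (Fin.last _) = 1 := by simp [U, hy1]
  have e3 : ∀ i : Fin (s*4), (L i.castSucc (U y))^2 = (y i.castSucc)^2 := hy2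
  simp only [e1, e2, e3] at key
  refine ⟨L (Fin.last _) (U y), ∑ i, U y i, ?_⟩
  have := hT (fun i => y i.castSucc)
  rw [hkl] at this ⊢
  linarith

/-- BRC for `v ≡ 3 mod 4`. -/
lemma brc_three (h : SymmetricDesignExists v k l) (hl : l < k) (hv : v % 4 = 3) :
    ∃ a b : ℚ, ((k - l : ℕ) : ℚ) * a^2 = 1 + l * b^2 := by
  obtain ⟨L, -, hL⟩ := quad_identity h
  obtain ⟨s, rfl⟩ : ∃ s, v = s * 4 + 3 := ⟨v / 4, by omega⟩
  obtain ⟨T', hT'⟩ := four_transform' (k - l) (by omega) (s*4+3+1) (by omega)
  have hkl : ((k - l : ℕ) : ℚ) = k - l := by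
    rw [Nat.cast_sub hl.le]
  let U : (Fin (s*4+3+1) → ℚ) →ₗ[ℚ] (Fin (s*4+3) → ℚ) :=
    { toFun := fun y => fun i => T' y i.castSucc
      map_add' := by intro y z; funext i; simp
      map_smul' := by intro a y; funext i; simp }
  obtain ⟨y, hy1, hy2⟩ := elim (s*4+3) (fun i => (L i).comp U)
  have key := hL (U y)
  have e3 : ∀ i : Fin (s*4+3), (L i (U y))^2 = (y i.castSucc)^2 := hy2
  have e1 : ∀ i : Fin (s*4+3), U y i = T' y i.castSucc := by
    intro i; rfl
  simp only [e3] at key
  have h1 := hT' y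
  rw [Fin.sum_univ_castSucc (f := fun j => (T' y j)^2),
    Fin.sum_univ_castSucc (f := fun j => (y j)^2), hy1] at h1
  refine ⟨T' y (Fin.last _), ∑ i, U y i, ?_⟩
  simp only [e1] at key ⊢
  rw [hkl] at h1 ⊢
  linarith

/-- complement of a symmetric design -/
lemma compl_design (h : SymmetricDesignExists v k l) (hk : 0 < k) :
    SymmetricDesignExists v (v - k) (v + l - 2 * k) := by
  have hr := h
  obtain ⟨hkv, r, B, h1, h2, h3⟩ := h
  refine ⟨by omega, v - r, fun j => (B j)ᶜ, fun j => ?_, fun x => ?_, fun x y hxy => ?_⟩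
  · rw [Finset.card_compl, h1, Fintype.card_fin]
  · have : (univ.filter (fun j => x ∈ (B j)ᶜ)) = (univ.filter (fun j => x ∈ B j))ᶜ := by
      ext j; simp
    rw [this, Finset.card_compl, h2, Fintype.card_fin]
  · have hrk : r = k := by
      have e1 : ∑ j, (B j).card = ∑ x, (univ.filter (fun j => x ∈ B j)).card := by
        have := Finset.sum_card_bipartiteAbove_eq_sum_card_bipartiteBelow
          (s := (univ : Finset (Fin v))) (t := (univ : Finset (Fin v))) (fun x j => x ∈ B j)
        simp only [Finset.bipartiteAbove, Finset.bipartiteBelow] at this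
        rw [this]
        refine Finset.sum_congr rfl fun j _ => ?_
        congr 1
        ext x; simp
      simp only [h1, h2, Finset.sum_const, Finset.card_univ, Fintype.card_fin, smul_eq_mul] at e1
      exact (Nat.eq_of_mul_eq_mul_left (by omega) e1).symm
    have e : (univ.filter (fun j => x ∈ (B j)ᶜ ∧ y ∈ (B j)ᶜ)) =
        ((univ.filter (fun j => x ∈ B j)) ∪ (univ.filter (fun j => y ∈ B j)))ᶜ := by
      ext j; simp
    have e2 := Finset.card_union_add_card_inter (univ.filter (fun j => x ∈ B j))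
      (univ.filter (fun j => y ∈ B j))
    have e3 : (univ.filter (fun j => x ∈ B j)) ∩ (univ.filter (fun j => y ∈ B j)) =
        univ.filter (fun j => x ∈ B j ∧ y ∈ B j) := by
      ext j; simp
    rw [e3, h2, h2, h3 x y hxy] at e2
    rw [e, Finset.card_compl, Fintype.card_fin]
    have hle : ((univ.filter (fun j => x ∈ B j)) ∪ (univ.filter (fun j => y ∈ B j))).card ≤ v := by
      have := Finset.card_le_univ ((univ.filter (fun j => x ∈ B j)) ∪
        (univ.filter (fun j => y ∈ B j)))
      simpa using this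
    omega

lemma descent (p : ℕ) [hp : Fact p.Prime] (n : ℕ) (h1 : p ∣ n) (h2 : ¬ p^2 ∣ n) (m : ℤ)
    (t : ℕ) : ∀ A B C : ℤ, C.natAbs = t → C ≠ 0 → A^2 = n * C^2 + m * B^2 →
      IsSquare (m : ZMod p) := by
  have hpp : Prime (p : ℤ) := Nat.prime_iff_prime_int.mp hp.out
  have hp0 : (p:ℤ) ≠ 0 := hpp.ne_zero
  induction t using Nat.strong_induction_on with
  | _ t ih =>
    intro A B C ht hC h
    by_cases hB : (p:ℤ) ∣ B
    · obtain ⟨B', rfl⟩ := hB
      obtain ⟨n', hn'⟩ := h1
      have hA : (p:ℤ) ∣ A := by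
        apply hpp.dvd_of_dvd_pow (n := 2)
        rw [h, hn']
        push_cast
        exact Dvd.intro (n' * C^2 + m * (p * B'^2)) (by ring)
      obtain ⟨A', rfl⟩ := hA
      have hn'' : ¬ (p:ℤ) ∣ n' := by
        intro hd
        apply h2
        have : p ∣ n' := by exact_mod_cast hd
        obtain ⟨c, rfl⟩ := this
        rw [hn']; exact ⟨c, by ring⟩
      have h3 : (n':ℤ) * C^2 = p * (A'^2 - m * B'^2) := by
        have : (p:ℤ) * (n' * C^2) = p * (p * (A'^2 - m * B'^2)) := by
          rw [hn'] at h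
          push_cast at h
          linear_combination -h
        exact mul_left_cancel₀ hp0 this
      have hC' : (p:ℤ) ∣ C := by
        have : (p:ℤ) ∣ n' * C^2 := ⟨_, h3⟩
        rcases hpp.dvd_or_dvd this with h | h
        · exact absurd h hn''
        · exact hpp.dvd_of_dvd_pow h
      obtain ⟨C', rfl⟩ := hC'
      have hC0 : C' ≠ 0 := by rintro rfl; simp at hC
      refine ih C'.natAbs ?_ A' B' C' rfl hC0 ?_
      · rw [← ht, Int.natAbs_mul, Int.natAbs_natCast]
        have := hp.out.one_lt
        have h5 : 0 < C'.natAbs := Int.natAbs_pos.mpr hC0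
        nlinarith
      · have : (p:ℤ)^2 * A'^2 = p^2 * (n * C'^2 + m * B'^2) := by linear_combination h
        exact mul_left_cancel₀ (pow_ne_zero 2 hp0) this
    · have hB' : ((B : ℤ) : ZMod p) ≠ 0 := by
        rw [Ne, ZMod.intCast_zmod_eq_zero_iff_dvd]; exact hB
      refine ⟨(A : ZMod p) / B, ?_⟩
      have h4 := congrArg (fun z : ℤ => (z : ZMod p)) h
      push_cast at h4
      have h5 : (n : ZMod p) = 0 := by
        rwa [ZMod.natCast_eq_zero_iff]
      rw [h5, zero_mul, zero_add] at h4
      field_simp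
      rw [h4]

/-- local consequence of the Bruck-Ryser-Chowla theorem -/
lemma brc_local (h : SymmetricDesignExists v k l) (hl : l < k) (p : ℕ) [hp : Fact p.Prime]
    (h1 : p ∣ k - l) (h2 : ¬ p^2 ∣ k - l) :
    v % 2 = 1 ∧ IsSquare ((((-1)^((v-1)/2) * (l:ℤ) : ℤ)) : ZMod p) := by
  rcases Nat.even_or_odd' v with ⟨c, hc | hc⟩
  · exfalso
    have := brc_even h hl (by omega)
    obtain ⟨s, hs⟩ := this
    apply h2
    have : p ∣ s := by
      rw [hs] at h1
      rcases hp.out.dvd_or_dvd h1 with h | h <;> exact h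
    obtain ⟨c, rfl⟩ := this
    rw [hs]; exact ⟨c * c, by ring⟩
  · refine ⟨by omega, ?_⟩
    have h4 : v % 4 = 1 ∨ v % 4 = 3 := by omega
    rcases h4 with h4 | h4
    · have he : Even ((v-1)/2) := by
        rw [Nat.even_iff]; omega
      rw [he.neg_one_pow, one_mul]
      obtain ⟨a, b, hab⟩ := brc_one h hl h4
      refine descent p (k - l) h1 h2 l _ (a.num * b.den) (b.num * a.den) (a.den * b.den) rfl ?_ ?_
      · have := a.den_pos
        have := b.den_pos
        positivity
      · have ha : a = a.num / a.den := (Rat.num_div_den a).symm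
        have hb : b = b.num / b.den := (Rat.num_div_den b).symm
        have ha0 : (a.den : ℚ) ≠ 0 := by exact_mod_cast a.den_pos.ne'
        have hb0 : (b.den : ℚ) ≠ 0 := by exact_mod_cast b.den_pos.ne'
        rw [ha, hb] at hab
        field_simp at hab
        have : ((a.num * b.den : ℤ) : ℚ)^2 = (k - l : ℕ) * ((a.den * b.den : ℤ) : ℚ)^2 +
            (l:ℤ) * ((b.num * a.den : ℤ):ℚ)^2 := by
          push_cast
          linear_combination hab
        exact_mod_cast this
    · have he : Odd ((v-1)/2) := by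
        rw [Nat.odd_iff]; omega
      rw [he.neg_one_pow]
      obtain ⟨a, b, hab⟩ := brc_three h hl h4
      refine descent p (k - l) h1 h2 (-1 * l) _ (a.den * b.den) (b.num * a.den)
        (a.num * b.den) rfl ?_ ?_
      · have h5 := b.den_pos
        have h6 : a.num ≠ 0 := by
          intro h0
          have : a = 0 := Rat.num_eq_zero.mp h0
          rw [this] at hab
          have : (0:ℚ) ≤ l * b^2 := by positivity
          linarith
        have h7 : (b.den : ℤ) ≠ 0 := by exact_mod_cast h5.ne'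
        exact mul_ne_zero h6 h7
      · have ha : a = a.num / a.den := (Rat.num_div_den a).symm
        have hb : b = b.num / b.den := (Rat.num_div_den b).symm
        have ha0 : (a.den : ℚ) ≠ 0 := by exact_mod_cast a.den_pos.ne'
        have hb0 : (b.den : ℚ) ≠ 0 := by exact_mod_cast b.den_pos.ne'
        rw [ha, hb] at hab
        field_simp at hab
        have : ((a.den * b.den : ℤ) : ℚ)^2 = (k - l : ℕ) * ((a.num * b.den : ℤ) : ℚ)^2 +
            (-1 * (l:ℤ) : ℤ) * ((b.num * a.den : ℤ):ℚ)^2 := by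
          push_cast
          linear_combination -hab
        exact_mod_cast this

end design

end Pool.Agent.H12
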