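import Mathlib
import Pool.Agent.H12.BRC
import Pool.Agent.H12.Average

/-!
Parametrisation of admissible triples by coprime pairs.
-/

namespace Pool.Agent.H12

open Finset

/-- admissible triples of positive integers: `k < v` and `l (v-1) = k (k-1)` -/
def Admissible (v k l : ℕ) : Prop := 0 < k ∧ 0 < l ∧ k < v ∧ l * (v - 1) = k * (k - 1)

lemma admissible_facts {v k l : ℕ} (h : Admissible v k l) :
    ∃ x y : ℕ, Nat.gcd k (v-1) * Nat.gcd (k-1) (v-1) = v - 1 ∧
      Nat.Coprime (Nat.gcd k (v-1)) (Nat.gcd (k-1) (v-1)) ∧ 2 ≤ Nat.gcd k (v-1) ∧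
      k = Nat.gcd k (v-1) * x ∧ k = Nat.gcd (k-1) (v-1) * y + 1 ∧ l = x * y ∧
      0 < x ∧ 0 < y ∧ y < Nat.gcd k (v-1) := by
  obtain ⟨hk, hl, hkv, h⟩ := h
  set m := v - 1 with hm
  have hm0 : 0 < m := by omega
  have hcop : Nat.Coprime k (k-1) := by
    obtain ⟨k', rfl⟩ : ∃ k', k = k' + 1 := ⟨k - 1, by omega⟩
    simp
  have hab : Nat.gcd k m * Nat.gcd (k-1) m = m := by
    rw [Nat.gcd_comm k m, Nat.gcd_comm (k-1) m, ← Nat.Coprime.gcd_mul m hcop]
    exact Nat.gcd_eq_left ⟨l, by rw [← h]; ring⟩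
  have hcop' : Nat.Coprime (Nat.gcd k m) (Nat.gcd (k-1) m) :=
    Nat.Coprime.coprime_dvd_left (Nat.gcd_dvd_left k m)
      (Nat.Coprime.coprime_dvd_right (Nat.gcd_dvd_left (k-1) m) hcop)
  obtain ⟨x, hx⟩ := Nat.gcd_dvd_left k m
  obtain ⟨y, hy⟩ := Nat.gcd_dvd_left (k-1) m
  set a := Nat.gcd k m with ha
  set b := Nat.gcd (k-1) m with hb
  have hab0 : 0 < a * b := by rw [hab]; exact hm0
  have ha0 : 0 < a := Nat.pos_of_mul_pos_right hab0 |> fun _ => Nat.pos_of_ne_zero (by
    rintro h0; rw [h0] at hab0; simp at hab0)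
  have hb0 : 0 < b := Nat.pos_of_ne_zero (by
    rintro h0; rw [h0] at hab0; simp at hab0)
  have hxy : l = x * y := by
    have : l * (a * b) = (x * y) * (a * b) := by
      rw [hab, h]
      nth_rewrite 1 [hx]
      rw [hy]
      rw [← hab]
      ring
    exact Nat.eq_of_mul_eq_mul_right hab0 this
  have hx0 : 0 < x := Nat.pos_of_ne_zero (by rintro h0; rw [h0] at hxy; simp at hxy; omega)
  have hy0 : 0 < y := Nat.pos_of_ne_zero (by rintro h0; rw [h0] at hxy; simp at hxy; omega)
  have hya : y < a := by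
    by_contra hcon
    push Not at hcon
    have h1 : b * a ≤ b * y := Nat.mul_le_mul_left b hcon
    rw [← hy] at h1
    have : b * a = m := by rw [mul_comm]; exact hab
    omega
  refine ⟨x, y, hab, hcop', ?_, hx, by omega, hxy, hx0, hy0, hya⟩
  omega

/-- A design gives a residue `z` satisfying the local conditions. -/
lemma exists_z {v k l : ℕ} (h : Admissible v k l) (hd : SymmetricDesignExists v k l)
    (P : Finset ℕ) (hP : ∀ p ∈ P, p.Prime) :
    ∃ z, z < Nat.gcd k (v-1) ∧
      Cond (Nat.gcd k (v-1)) z (exactly P z) (Nat.gcd (k-1) (v-1)) := by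
  obtain ⟨x, y, hab, hcop, ha2, hkx, hky, hl, hx0, hy0, hya⟩ := admissible_facts h
  set a := Nat.gcd k (v-1) with ha
  set b := Nat.gcd (k-1) (v-1) with hb
  obtain ⟨z, hz⟩ : ∃ z, a = y + z := ⟨a - y, by omega⟩
  have hv : v = a * b + 1 := by
    have := h.2.2.1
    omega
  have hk1 : a * x = b * y + 1 := by rw [← hkx, ← hky]
  have hn : k - l = x * z := by
    rw [hl, hkx, hz]
    have : (y + z) * x = x * y + x * z := by ring
    rw [this]; simp
  refine ⟨z, by omega, ?_, ?_⟩
  · have e1 : b * z + a * x = a * b + 1 := by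
      rw [hk1, hz]; ring
    have e2 : b * z + a * x ≡ 1 + a * b [MOD a] := by rw [e1, add_comm]
    have e3 : b * z + a * x ≡ b * z [MOD a] := by
      unfold Nat.ModEq; simp
    have e4 : 1 + a * b ≡ 1 [MOD a] := by
      unfold Nat.ModEq; simp
    exact e3.symm.trans (e2.trans e4)
  · intro p hp
    unfold exactly at hp
    rw [mem_filter] at hp
    obtain ⟨hpP, hpz, hpz2⟩ := hp
    have hpp := hP p hpP
    have : Fact p.Prime := ⟨hpp⟩
    have hz0 : ((z:ℕ) : ZMod p) = 0 := by rwa [ZMod.natCast_eq_zero_iff]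
    have hay : (a : ZMod p) = y := by
      rw [hz]; push_cast; rw [hz0, add_zero]
    have hk2 : (a : ZMod p) * x = b * y + 1 := by
      have := congrArg (Nat.cast : ℕ → ZMod p) hk1
      push_cast at this
      exact this
    have hvl : (a : ZMod p) * b + 1 = l := by
      rw [hl]; push_cast
      calc (a : ZMod p) * b + 1 = b * y + 1 := by rw [hay]; ring
        _ = a * x := hk2.symm
        _ = x * y := by rw [hay]; ring
    rw [hvl]
    by_cases hpx : p ∣ x
    · have : (l : ZMod p) = 0 := by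
        rw [ZMod.natCast_eq_zero_iff, hl]
        exact Dvd.dvd.mul_right hpx y
      rw [this, mul_zero]
      exact IsSquare.zero
    · have h1 : p ∣ k - l := by rw [hn]; exact Dvd.dvd.mul_left hpz x
      have h2 : ¬ p^2 ∣ k - l := by
        rw [hn]
        intro h3
        have h4 : Nat.Coprime (p^2) x := Nat.Coprime.pow_left 2
          ((Nat.Prime.coprime_iff_not_dvd hpp).mpr hpx)
        exact hpz2 (h4.dvd_of_dvd_mul_left h3)
      have hlk : l < k := by
        by_contra hcon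
        have : k - l = 0 := by omega
        rw [this] at h2
        exact h2 (dvd_zero _)
      obtain ⟨-, h3⟩ := brc_local hd hlk p h1 h2
      unfold sgn
      have e5 : (v-1)/2 = a*b/2 := by rw [← hab]
      rw [e5] at h3
      push_cast at h3 ⊢
      exact h3

/-- the triple is determined by the pair -/
lemma pair_injective {v k l v' k' l' : ℕ} (h : Admissible v k l) (h' : Admissible v' k' l')
    (ha : Nat.gcd k (v-1) = Nat.gcd k' (v'-1))
    (hb : Nat.gcd (k-1) (v-1) = Nat.gcd (k'-1) (v'-1)) : v = v' ∧ k = k' ∧ l = l' := by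
  obtain ⟨x, y, hab, hcop, ha2, hkx, hky, hl, hx0, hy0, hya⟩ := admissible_facts h
  obtain ⟨x', y', hab', hcop', ha2', hkx', hky', hl', hx0', hy0', hya'⟩ := admissible_facts h'
  rw [← ha] at hab' hcop' ha2' hkx' hya'
  rw [← hb] at hab' hcop' hky'
  set a := Nat.gcd k (v-1) with ha
  set b := Nat.gcd (k-1) (v-1) with hb
  have hv : v - 1 = v' - 1 := by rw [← hab, ← hab']
  have h1 := h.2.2.1
  have h1' := h'.2.2.1
  have hvv : v = v' := by omega
  have hmod : k ≡ k' [MOD a*b] := by
    rw [← Nat.modEq_and_modEq_iff_modEq_mul hcop]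
    constructor
    · have e1 : k ≡ 0 [MOD a] := by rw [hkx]; simp [Nat.ModEq]
      have e2 : k' ≡ 0 [MOD a] := by rw [hkx']; simp [Nat.ModEq]
      exact e1.trans e2.symm
    · have e1 : k ≡ 1 [MOD b] := by rw [hky]; simp [Nat.ModEq]
      have e2 : k' ≡ 1 [MOD b] := by rw [hky']; simp [Nat.ModEq]
      exact e1.trans e2.symm
  rw [hab] at hmod
  have hk : k = k' := by
    -- both in (0, v-1]
    have e1 := h.1
    have e2 := h'.1
    have e3 : k - 1 ≡ k' - 1 [MOD (v-1)] := by
      have : (k - 1) + 1 ≡ (k' - 1) + 1 [MOD (v-1)] := by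
        rw [Nat.sub_add_cancel e1, Nat.sub_add_cancel e2]; exact hmod
      exact Nat.ModEq.add_right_cancel' 1 this
    have := Nat.ModEq.eq_of_lt_of_lt e3 (by omega) (by omega)
    omega
  refine ⟨hvv, hk, ?_⟩
  have e1 := h.2.2.2
  have e2 := h'.2.2.2
  rw [← hvv, ← hk, ← e1] at e2
  exact (Nat.eq_of_mul_eq_mul_right (by omega) e2).symm

end Pool.Agent.H12
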