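import Mathlib
import Pool.Agent.H12.Param

/-!
Upper bound for the number of triples realised by symmetric designs.
-/

namespace Pool.Agent.H12

open Finset Classical

/-- admissible triples with `v ≤ X` -/
noncomputable def Adm (X : ℕ) : Finset (ℕ × ℕ × ℕ) :=
  (Icc 1 X ×ˢ Icc 1 X ×ˢ Icc 1 X).filter (fun t => Admissible t.1 t.2.1 t.2.2)

/-- realised triples -/
noncomputable def Rea (X : ℕ) : Finset (ℕ × ℕ × ℕ) :=
  (Adm X).filter (fun t => SymmetricDesignExists t.1 t.2.1 t.2.2)

lemma mem_Adm {X : ℕ} {t : ℕ × ℕ × ℕ} :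
    t ∈ Adm X ↔ t.1 ≤ X ∧ Admissible t.1 t.2.1 t.2.2 := by
  unfold Adm
  rw [mem_filter, mem_product, mem_product, mem_Icc, mem_Icc, mem_Icc]
  constructor
  · rintro ⟨⟨h1, h2⟩, h⟩; exact ⟨h1.2, h⟩
  · rintro ⟨h1, h⟩
    refine ⟨⟨⟨?_, h1⟩, ⟨h.1, ?_⟩, h.2.1, ?_⟩, h⟩
    · have := h.2.2.1; omega
    · have := h.2.2.1; omega
    · obtain ⟨x, y, hab, hcop, ha2, hkx, hky, hl, hx0, hy0, hya⟩ := admissible_facts h
      have h3 : t.2.2 ≤ t.2.1 := by
        rw [hl]
        refine (Nat.mul_le_mul_left x hya.le).trans ?_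
        rw [mul_comm]
        exact hkx.symm.le
      have := h.2.2.1
      omega

/-- first coordinate of the pair -/
def aOf (t : ℕ × ℕ × ℕ) : ℕ := Nat.gcd t.2.1 (t.1 - 1)
/-- second coordinate of the pair -/
def bOf (t : ℕ × ℕ × ℕ) : ℕ := Nat.gcd (t.2.1 - 1) (t.1 - 1)

/-- the complementary triple -/
def comp (t : ℕ × ℕ × ℕ) : ℕ × ℕ × ℕ := (t.1, t.1 - t.2.1, t.1 + t.2.2 - 2 * t.2.1)

lemma comp_facts {t : ℕ × ℕ × ℕ} (h : Admissible t.1 t.2.1 t.2.2) (hb : bOf t ≠ 1) :
    Admissible (comp t).1 (comp t).2.1 (comp t).2.2 ∧ aOf (comp t) = bOf t ∧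
      bOf (comp t) = aOf t := by
  obtain ⟨v, k, l⟩ := t
  obtain ⟨x, y, hab, hcop, ha2, hkx, hky, hl, hx0, hy0, hya⟩ := admissible_facts h
  unfold comp aOf bOf at *
  simp only at *
  have hk := h.1
  have hkv := h.2.2.1
  have hcnt := h.2.2.2
  set a := Nat.gcd k (v-1) with ha
  set b := Nat.gcd (k-1) (v-1) with hb'
  obtain ⟨z, hz⟩ : ∃ z, a = y + z := ⟨a - y, by omega⟩
  have hz0 : 0 < z := by omega
  have hv : v = a * b + 1 := by omega
  have hk1 : a * x = b * y + 1 := by rw [← hkx, ← hky]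
  -- x < b
  have hxb : x < b := by
    by_contra hcon
    push Not at hcon
    have e1 : a * b ≤ a * x := Nat.mul_le_mul_left a hcon
    have e2 : b * y + 1 ≤ b * a := by
      have e3 : b * (y+1) ≤ b * a := Nat.mul_le_mul_left b hya
      have e4 : 0 < b := by
        rcases Nat.eq_zero_or_pos b with h0 | h0
        · rw [h0] at hv; simp at hv; omega
        · exact h0
      nlinarith
    have e3 : a * x = a * b := by
      have : a * b = b * a := mul_comm a b
      omega
    have e4 : b * (a - y) = 1 := by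
      have e5 : a - y = z := by omega
      rw [e5]
      have : b * a = b * y + b * z := by rw [hz]; ring
      have : a * b = b * a := mul_comm a b
      omega
    exact hb (Nat.eq_one_of_mul_eq_one_right e4)
  obtain ⟨w, hw⟩ : ∃ w, b = x + w := ⟨b - x, by omega⟩
  have hw0 : 0 < w := by omega
  have hvk : v - k = b * z + 1 - 1 + (1 - 1) + 0 + (0) := by
    rw [hv, hky]
    have : a * b = b * y + b * z := by rw [hz]; ring
    omega
  have hvk : v - k = b * z := by simpa using hvk
  have hvk' : v - k = a * w + 1 := by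
    rw [hv, hkx]
    have : a * b = a * x + a * w := by rw [hw]; ring
    omega
  have hl' : v + l - 2 * k = z * w := by
    have e1 : v + l = 2 * k + z * w := by
      have e2 : v = a * x + a * w + 1 := by rw [hv, hw]; ring
      have e3 : k = a * x := hkx
      have e4 : a * w + 1 = b * z := by rw [← hvk', hvk]
      -- v + l = ax + aw + 1 + xy ; 2k + zw = 2ax + zw
      -- aw + 1 + xy = ax + zw ; aw + 1 = bz = xz + wz ; xz + wz + xy = x a + zw
      rw [e2, hl, e3]
      have e5 : a * x + a * w + 1 + x * y = a * x + (a * w + 1) + x * y := by ring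
      rw [e5, e4, hw, hz]; ring
    omega
  have g1 : Nat.gcd (v - k) (v - 1) = b := by
    have : v - 1 = a * b := by omega
    rw [hvk, this, mul_comm a b, Nat.gcd_mul_left]
    have hcz : Nat.Coprime z a := by
      -- gcd(z,a) | ... b z = a w + 1
      have e4 : a * w + 1 = b * z := by rw [← hvk', hvk]
      have e5 : Nat.gcd z a ∣ 1 := by
        have e6 : Nat.gcd z a ∣ a * w + 1 := by
          rw [e4]; exact Dvd.dvd.mul_left (Nat.gcd_dvd_left z a) b
        have e7 : Nat.gcd z a ∣ a * w := Dvd.dvd.mul_right (Nat.gcd_dvd_right z a) w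
        exact (Nat.dvd_add_right e7).mp e6
      exact Nat.dvd_one.mp e5
    rw [hcz, mul_one]
  have g2 : Nat.gcd (v - k - 1) (v - 1) = a := by
    have : v - 1 = a * b := by omega
    have e1 : v - k - 1 = a * w := by omega
    rw [e1, this, Nat.gcd_mul_left]
    have hcw : Nat.Coprime w b := by
      have e4 : a * w + 1 = b * z := by rw [← hvk', hvk]
      have e5 : Nat.gcd w b ∣ 1 := by
        have e6 : Nat.gcd w b ∣ a * w + 1 := by
          rw [e4]; exact Dvd.dvd.mul_right (Nat.gcd_dvd_right w b) z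
        have e7 : Nat.gcd w b ∣ a * w := Dvd.dvd.mul_left (Nat.gcd_dvd_left w b) a
        exact (Nat.dvd_add_right e7).mp e6
      exact Nat.dvd_one.mp e5
    rw [hcw, mul_one]
  refine ⟨⟨by omega, ?_, by omega, ?_⟩, g1, g2⟩
  · rw [hl']; positivity
  · rw [hl', hvk]
    have e1 : b * z - 1 = a * w := by omega
    have e2 : v - 1 = a * b := by omega
    rw [e1, e2]; ring

/-- Part of the realised triples -/
noncomputable def T1 (X : ℕ) : Finset (ℕ × ℕ × ℕ) :=
  (Rea X).filter (fun t => aOf t < bOf t)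

lemma card_Rea_le (X : ℕ) : (Rea X).card ≤ X + 2 * (T1 X).card := by
  set T0 := (Rea X).filter (fun t => bOf t = 1) with hT0
  set T2 := (Rea X).filter (fun t => bOf t ≠ 1 ∧ bOf t < aOf t) with hT2
  have hsub : Rea X ⊆ T0 ∪ (T1 X ∪ T2) := by
    intro t ht
    rw [mem_union, mem_union]
    by_cases h1 : bOf t = 1
    · left; rw [hT0, mem_filter]; exact ⟨ht, h1⟩
    · right
      rcases lt_trichotomy (aOf t) (bOf t) with h | h | h
      · left; unfold T1; rw [mem_filter]; exact ⟨ht, h⟩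
      · exfalso
        have hA : Admissible t.1 t.2.1 t.2.2 := by
          unfold Rea at ht
          rw [mem_filter, mem_Adm] at ht
          exact ht.1.2
        obtain ⟨x, y, hab, hcop, ha2, -⟩ := admissible_facts hA
        change Nat.Coprime (aOf t) (bOf t) at hcop
        change 2 ≤ aOf t at ha2
        rw [← h, Nat.coprime_self] at hcop
        omega
      · right; rw [hT2, mem_filter]; exact ⟨ht, h1, h⟩
  have h0 : T0.card ≤ X := by
    have : T0.card ≤ (Icc 1 X).card := by
      refine card_le_card_of_injOn (fun t => t.1) ?_ ?_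
      · intro t ht
        rw [hT0, mem_coe, mem_filter] at ht
        have := ht.1
        unfold Rea at this
        rw [mem_filter, mem_Adm] at this
        simp only [coe_Icc, Set.mem_Icc]
        have h3 := this.1.2.2.2.1
        exact ⟨by omega, this.1.1⟩
      · intro t ht t' ht' h
        rw [hT0, mem_coe, mem_filter] at ht ht'
        simp only at h
        have hA : Admissible t.1 t.2.1 t.2.2 := by
          have := ht.1
          unfold Rea at this
          rw [mem_filter, mem_Adm] at this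
          exact this.1.2
        have hA' : Admissible t'.1 t'.2.1 t'.2.2 := by
          have := ht'.1
          unfold Rea at this
          rw [mem_filter, mem_Adm] at this
          exact this.1.2
        obtain ⟨x, y, hab, -⟩ := admissible_facts hA
        obtain ⟨x', y', hab', -⟩ := admissible_facts hA'
        have hb := ht.2
        have hb' := ht'.2
        have e := pair_injective hA hA' (by
          change Nat.gcd t.2.1 (t.1-1) * bOf t = t.1 - 1 at hab
          change Nat.gcd t'.2.1 (t'.1-1) * bOf t' = t'.1 - 1 at hab'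
          rw [hb, mul_one] at hab
          rw [hb', mul_one] at hab'
          rw [hab, hab', h]) (by
          change bOf t = bOf t'
          rw [hb, hb'])
        exact Prod.ext e.1 (Prod.ext e.2.1 e.2.2)
    simpa using this
  have h2 : T2.card ≤ (T1 X).card := by
    refine card_le_card_of_injOn comp ?_ ?_
    · intro t ht
      rw [hT2, mem_coe, mem_filter] at ht
      have h3 := ht.1
      unfold Rea at h3
      rw [mem_filter, mem_Adm] at h3
      obtain ⟨c1, c2, c3⟩ := comp_facts h3.1.2 ht.2.1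
      unfold T1 Rea
      rw [mem_coe, mem_filter, mem_filter, mem_Adm]
      refine ⟨⟨⟨h3.1.1, c1⟩, ?_⟩, ?_⟩
      · exact compl_design h3.2 h3.1.2.1
      · rw [c2, c3]; exact ht.2.2
    · intro t ht t' ht' h
      rw [hT2, mem_coe, mem_filter] at ht ht'
      have h3 := ht.1
      unfold Rea at h3
      rw [mem_filter, mem_Adm] at h3
      have h3' := ht'.1
      unfold Rea at h3'
      rw [mem_filter, mem_Adm] at h3'
      obtain ⟨c1, c2, c3⟩ := comp_facts h3.1.2 ht.2.1
      obtain ⟨c1', c2', c3'⟩ := comp_facts h3'.1.2 ht'.2.1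
      have e := pair_injective h3.1.2 h3'.1.2 (by
        change aOf t = aOf t'
        rw [← c3, ← c3', h]) (by
        change bOf t = bOf t'
        rw [← c2, ← c2', h])
      exact Prod.ext e.1 (Prod.ext e.2.1 e.2.2)
  have h3 := card_le_card hsub
  have h4 := card_union_le T0 (T1 X ∪ T2)
  have h5 := card_union_le (T1 X) T2
  omega

lemma card_T1_le (X : ℕ) (P : Finset ℕ) (hP : ∀ p ∈ P, p.Prime) :
    (T1 X).card ≤ ∑ a ∈ Icc 2 (Nat.sqrt X), ∑ z ∈ range a,
      ((range (X/a+1)).filter (Cond a z (exactly P z))).card := by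
  have h1 : (T1 X).card ≤ ((Icc 2 (Nat.sqrt X)).sigma (fun a =>
      (range a).biUnion (fun z => (range (X/a+1)).filter (Cond a z (exactly P z))))).card := by
    refine card_le_card_of_injOn (fun t => ⟨aOf t, bOf t⟩) ?_ ?_
    · intro t ht
      unfold T1 Rea at ht
      rw [mem_coe, mem_filter, mem_filter, mem_Adm] at ht
      obtain ⟨⟨⟨hX, hA⟩, hD⟩, hlt⟩ := ht
      obtain ⟨x, y, hab, hcop, ha2, hkx, hky, hl, hx0, hy0, hya⟩ := admissible_facts hA
      obtain ⟨z, hz1, hz2⟩ := exists_z hA hD P hP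
      change aOf t * bOf t = t.1 - 1 at hab
      change 2 ≤ aOf t at ha2
      have hle : aOf t * bOf t ≤ X := by omega
      rw [mem_coe, mem_sigma]
      simp only
      rw [mem_Icc, mem_biUnion]
      refine ⟨⟨ha2, ?_⟩, z, mem_range.mpr hz1, ?_⟩
      · rw [Nat.le_sqrt]
        exact (Nat.mul_le_mul_left _ hlt.le).trans hle
      · rw [mem_filter, mem_range]
        refine ⟨?_, hz2⟩
        have : bOf t ≤ X / aOf t := by
          rw [Nat.le_div_iff_mul_le (by omega), mul_comm]
          exact hle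
        omega
    · intro t ht t' ht' h
      unfold T1 Rea at ht ht'
      rw [mem_coe, mem_filter, mem_filter, mem_Adm] at ht ht'
      simp only [Sigma.mk.injEq, heq_eq_eq] at h
      have e := pair_injective ht.1.1.2 ht'.1.1.2 h.1 h.2
      exact Prod.ext e.1 (Prod.ext e.2.1 e.2.2)
  refine h1.trans ?_
  rw [card_sigma]
  exact sum_le_sum fun a _ => card_biUnion_le

lemma sum_inv_Icc (s : ℕ) : ∑ a ∈ Icc 2 s, (1:ℝ)/a ≤ Real.log s := by
  rcases Nat.eq_zero_or_pos s with h0 | h0
  · subst h0; simp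
  have h := harmonic_le_one_add_log s
  have h1 : ((harmonic s : ℚ) : ℝ) = ∑ a ∈ Icc 1 s, (1:ℝ)/a := by
    rw [harmonic_eq_sum_Icc]
    push_cast
    simp
  rw [h1] at h
  have h2 : Icc 1 s = insert 1 (Icc 2 s) := by
    ext i; simp only [mem_insert, mem_Icc]; omega
  rw [h2, sum_insert (by simp)] at h
  simp only [Nat.cast_one, div_one] at h
  linarith

lemma sum_inv_sq_Icc (s : ℕ) : ∑ a ∈ Icc 2 s, (1:ℝ)/(a:ℝ)^2 ≤ 1 := by
  rcases Nat.lt_or_ge s 2 with h | h
  · rw [Icc_eq_empty (by omega)]; simp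
  have key : ∀ s : ℕ, 2 ≤ s → ∑ a ∈ Icc 2 s, (1:ℝ)/(a:ℝ)^2 ≤ 1 - 1/s := by
    intro s hs
    induction s, hs using Nat.le_induction with
    | base => simp; norm_num
    | succ n hn ih =>
      rw [← Finset.insert_Icc_right_eq_Icc_add_one (by omega), sum_insert (by simp)]
      have hn' : (0:ℝ) < n := by positivity
      have e : (1:ℝ)/((n+1 : ℕ):ℝ)^2 ≤ 1/n - 1/((n+1:ℕ):ℝ) := by
        push_cast
        rw [div_sub_div _ _ (by positivity) (by positivity), div_le_div_iff₀ (by positivity)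
          (by positivity)]
        nlinarith
      linarith
  have := key s h
  have h2 : (0:ℝ) ≤ 1 / s := by positivity
  linarith

theorem upper_bound (P : Finset ℕ) (hP : ∀ p ∈ P, p.Prime) (hP2 : ∀ p ∈ P, p ≠ 2) :
    ∃ K : ℝ, ∀ X : ℕ, 1 ≤ X → ((Rea X).card : ℝ) ≤ delta P * (X * Real.log X) + K * X := by
  set M : ℝ := ∏ p ∈ P, (p:ℝ) with hM
  set Q : ℝ := ((Qsq P : ℕ) : ℝ) with hQ
  have hδ0 : 0 ≤ delta P := by
    unfold delta
    refine prod_nonneg fun p hp => ?_
    have h1 : (1:ℝ) ≤ p := by exact_mod_cast (hP p hp).one_lt.le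
    have : ((p:ℝ)-1)/(3*p^2) ≤ 1 := by
      rw [div_le_one (by positivity)]; nlinarith
    linarith
  have hM0 : 0 ≤ M := prod_nonneg fun p _ => by positivity
  have hQ0 : 0 ≤ Q := by positivity
  refine ⟨1 + 2 * (delta P * (Q + 4 * M + 4 * M * Q)), fun X hX => ?_⟩
  have hX' : (1:ℝ) ≤ X := by exact_mod_cast hX
  -- bound T1
  have h1 : ((T1 X).card : ℝ) ≤ ∑ a ∈ Icc 2 (Nat.sqrt X), ∑ z ∈ range a,
      (((range (X/a+1)).filter (Cond a z (exactly P z))).card : ℝ) := by
    exact_mod_cast card_T1_le X P hP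
  have h2 : ∀ a ∈ Icc 2 (Nat.sqrt X), ∑ z ∈ range a,
      (((range (X/a+1)).filter (Cond a z (exactly P z))).card : ℝ) ≤
      (X * (1/(a:ℝ)) + X * Q * (1/(a:ℝ)^2) + 4 * M * a + 4 * M * Q) * delta P := by
    intro a ha
    rw [mem_Icc] at ha
    have ha0 : (0:ℝ) < a := by
      have : 0 < a := by omega
      exact_mod_cast this
    have h3 : ∀ z ∈ range a, (((range (X/a+1)).filter (Cond a z (exactly P z))).card : ℝ) ≤
        ((X:ℝ)/a^2 + 4 * M) * (2/3)^(exactly P z).card := by
      intro z _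
      have hsub : exactly P z ⊆ P := filter_subset _ _
      have h4 := count_cond a z (by omega) (exactly P z) (fun p hp => hP p (hsub hp))
        (fun p hp => hP2 p (hsub hp)) (fun p hp => by
          unfold exactly at hp; rw [mem_filter] at hp; exact hp.2.1) (X/a)
      refine h4.trans ?_
      refine mul_le_mul_of_nonneg_right ?_ (by positivity)
      have h5 : ((X/a : ℕ) : ℝ) / a ≤ (X:ℝ)/a^2 := by
        have : ((X/a : ℕ) : ℝ) ≤ (X:ℝ)/a := Nat.cast_div_le
        rw [sq, ← div_div]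
        exact div_le_div_of_nonneg_right this ha0.le
      have h6 : ∏ p ∈ exactly P z, (p:ℝ) ≤ M := by
        have h7 : ∏ p ∈ exactly P z, p ≤ ∏ p ∈ P, p :=
          prod_le_prod_of_subset_of_one_le' hsub (fun p hp _ => (hP p hp).one_lt.le)
        have h8 := (Nat.cast_le (α := ℝ)).mpr h7
        rw [Nat.cast_prod, Nat.cast_prod] at h8
        exact h8
      linarith
    refine (sum_le_sum h3).trans ?_
    rw [← mul_sum]
    have h8 := avg_z P hP a
    have h9 : (0:ℝ) ≤ (X:ℝ)/a^2 + 4 * M := by positivity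
    refine (mul_le_mul_of_nonneg_left h8 h9).trans (le_of_eq ?_)
    rw [← hQ]
    field_simp
    ring
  have h10 := h1.trans (sum_le_sum h2)
  rw [← sum_mul, sum_add_distrib, sum_add_distrib, sum_add_distrib, ← mul_sum, ← mul_sum,
    ← mul_sum, sum_const, nsmul_eq_mul] at h10
  have hs : (Nat.sqrt X) * (Nat.sqrt X) ≤ X := Nat.sqrt_le X
  have hs' : ((Nat.sqrt X : ℕ) : ℝ) * (Nat.sqrt X : ℕ) ≤ X := by exact_mod_cast hs
  have hsX : ((Nat.sqrt X : ℕ) : ℝ) ≤ X := by exact_mod_cast Nat.sqrt_le_self X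
  have hs1 : (1:ℝ) ≤ (Nat.sqrt X : ℕ) := by
    have : 1 ≤ Nat.sqrt X := by rw [Nat.le_sqrt]; omega
    exact_mod_cast this
  have a1 : ∑ a ∈ Icc 2 (Nat.sqrt X), (1:ℝ)/a ≤ (1/2) * Real.log X := by
    refine (sum_inv_Icc _).trans ?_
    have : Real.log ((Nat.sqrt X : ℕ) * (Nat.sqrt X : ℕ)) ≤ Real.log X :=
      Real.log_le_log (by positivity) hs'
    rw [Real.log_mul (by positivity) (by positivity)] at this
    linarith
  have a2 := sum_inv_sq_Icc (Nat.sqrt X)
  have a3 : ∑ a ∈ Icc 2 (Nat.sqrt X), (a:ℝ) ≤ X := by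
    have : ∑ a ∈ Icc 2 (Nat.sqrt X), (a:ℝ) ≤ ∑ a ∈ Icc 2 (Nat.sqrt X), ((Nat.sqrt X : ℕ) : ℝ) := by
      refine sum_le_sum fun a ha => ?_
      rw [mem_Icc] at ha
      exact_mod_cast ha.2
    refine this.trans ?_
    rw [sum_const, nsmul_eq_mul]
    have hc : ((Icc 2 (Nat.sqrt X)).card : ℝ) ≤ (Nat.sqrt X : ℕ) := by
      rw [Nat.card_Icc]
      have : Nat.sqrt X + 1 - 2 ≤ Nat.sqrt X := by omega
      exact_mod_cast this
    nlinarith
  have a4 : ((Icc 2 (Nat.sqrt X)).card : ℝ) ≤ X := by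
    have hc : ((Icc 2 (Nat.sqrt X)).card : ℝ) ≤ (Nat.sqrt X : ℕ) := by
      rw [Nat.card_Icc]
      have : Nat.sqrt X + 1 - 2 ≤ Nat.sqrt X := by omega
      exact_mod_cast this
    linarith
  have h11 : ((T1 X).card : ℝ) ≤
      (X * ((1/2) * Real.log X) + X * Q + 4 * M * X + X * (4 * M * Q)) * delta P := by
    refine h10.trans ?_
    refine mul_le_mul_of_nonneg_right ?_ hδ0
    have b1 : (X:ℝ) * ∑ a ∈ Icc 2 (Nat.sqrt X), (1:ℝ)/a ≤ X * ((1/2) * Real.log X) :=
      mul_le_mul_of_nonneg_left a1 (by positivity)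
    have b2 : (X:ℝ) * Q * ∑ a ∈ Icc 2 (Nat.sqrt X), (1:ℝ)/(a:ℝ)^2 ≤ X * Q := by
      have := mul_le_mul_of_nonneg_left a2 (show (0:ℝ) ≤ (X:ℝ) * Q by positivity)
      linarith
    have b3 : 4 * M * ∑ a ∈ Icc 2 (Nat.sqrt X), (a:ℝ) ≤ 4 * M * X :=
      mul_le_mul_of_nonneg_left a3 (by positivity)
    have b4 : ((Icc 2 (Nat.sqrt X)).card : ℝ) * (4 * M * Q) ≤ X * (4 * M * Q) :=
      mul_le_mul_of_nonneg_right a4 (by positivity)
    linarith
  have h12 : ((Rea X).card : ℝ) ≤ X + 2 * ((T1 X).card : ℝ) := by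
    exact_mod_cast card_Rea_le X
  calc ((Rea X).card : ℝ) ≤ X + 2 * ((T1 X).card : ℝ) := h12
    _ ≤ X + 2 * ((X * ((1/2) * Real.log X) + X * Q + 4 * M * X + X * (4 * M * Q)) * delta P) := by
        linarith
    _ = delta P * (X * Real.log X) + (1 + 2 * (delta P * (Q + 4 * M + 4 * M * Q))) * X := by ring

end Pool.Agent.H12
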