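import Mathlib
import Pool.Agent.H12.Joint
import Pool.Agent.H12.Upper

/-!
Elementary bounds for products and sums over primes.
-/

namespace Pool.Agent.H12

open Finset

/-- `n ↦ 1/n` as a monoid homomorphism -/
noncomputable def invHom : ℕ →* ℝ where
  toFun n := ((n:ℝ))⁻¹
  map_one' := by simp
  map_mul' m n := by push_cast; rw [mul_inv]

lemma prod_primes_le (N : ℕ) (hN : 2 ≤ N) :
    ∏ p ∈ N.primesBelow, (1 - 1/(p:ℝ)) ≤ 1 / Real.log N := by
  have h := EulerProduct.summable_and_hasSum_smoothNumbers_prod_primesBelow_geometric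
    (f := invHom) (by
      intro p hp
      have : (1:ℝ) < p := by exact_mod_cast hp.one_lt
      change ‖((p:ℝ))⁻¹‖ < 1
      rw [norm_inv, Real.norm_natCast]
      exact inv_lt_one_of_one_lt₀ this) N
  obtain ⟨hs, hsum⟩ := h
  have hlogpos : 0 < Real.log N := Real.log_pos (by exact_mod_cast (by omega : 1 < N))
  -- partial sum
  have h1 : Real.log N ≤ ∏ p ∈ N.primesBelow, (1 - invHom p)⁻¹ := by
    rw [← hsum.tsum_eq]
    have hsm : Summable (fun m : N.smoothNumbers => invHom m) := hsum.summable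
    -- finite subset
    have hmem : ∀ n ∈ Icc 1 (N-1), n ∈ N.smoothNumbers := by
      intro n hn
      rw [mem_Icc] at hn
      exact Nat.mem_smoothNumbers_of_lt hn.1 (by omega)
    have h2 : Real.log N ≤ ∑ n ∈ Icc 1 (N-1), (1:ℝ)/n := by
      have := log_add_one_le_harmonic (N-1)
      have e : ((N - 1 : ℕ) : ℝ) + 1 = N := by
        have : 1 ≤ N := by omega
        push_cast [Nat.cast_sub this]; ring
      rw [harmonic_eq_sum_Icc] at this
      push_cast at this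
      have e' : Real.log ((((N - 1 : ℕ)) + 1 : ℝ)) = Real.log N := by rw [e]
      rw [← e']
      refine this.trans (le_of_eq ?_)
      refine sum_congr rfl fun n _ => ?_
      rw [one_div]
    refine h2.trans ?_
    set s : Finset N.smoothNumbers := (Icc 1 (N-1)).attach.map
      ⟨fun n => ⟨n.1, hmem n.1 n.2⟩, fun n n' h => by
        simp only [Subtype.mk.injEq] at h
        exact Subtype.ext h⟩ with hsdef
    have h3 := hsm.sum_le_tsum s (fun m _ => by
      change 0 ≤ (((m:ℕ):ℝ))⁻¹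
      positivity)
    refine le_trans (le_of_eq ?_) h3
    rw [hsdef, sum_map, ← sum_attach]
    refine sum_congr rfl fun n _ => ?_
    change 1 / ((n.1:ℕ):ℝ) = (((n.1:ℕ):ℝ))⁻¹
    rw [one_div]
  have h4 : ∏ p ∈ N.primesBelow, (1 - invHom p)⁻¹ = (∏ p ∈ N.primesBelow, (1 - 1/(p:ℝ)))⁻¹ := by
    rw [← prod_inv_distrib]
    refine prod_congr rfl fun p _ => ?_
    change (1 - ((p:ℝ))⁻¹)⁻¹ = _
    rw [one_div]
  rw [h4] at h1
  have h5 : 0 < ∏ p ∈ N.primesBelow, (1 - 1/(p:ℝ)) := by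
    refine prod_pos fun p hp => ?_
    have : (1:ℝ) < p := by exact_mod_cast (Nat.prime_of_mem_primesBelow hp).one_lt
    have : 1/(p:ℝ) < 1 := by rw [div_lt_one (by linarith)]; exact this
    linarith
  rw [le_div_iff₀ hlogpos]
  calc (∏ p ∈ N.primesBelow, (1 - 1/(p:ℝ))) * Real.log N
      ≤ (∏ p ∈ N.primesBelow, (1 - 1/(p:ℝ))) * (∏ p ∈ N.primesBelow, (1 - 1/(p:ℝ)))⁻¹ :=
        mul_le_mul_of_nonneg_left h1 h5.le
    _ = 1 := mul_inv_cancel₀ h5.ne'

/-- odd primes below `N` -/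
def oddPrimes (N : ℕ) : Finset ℕ := N.primesBelow.erase 2

lemma mem_oddPrimes {N p : ℕ} : p ∈ oddPrimes N ↔ p ≠ 2 ∧ p < N ∧ p.Prime := by
  unfold oddPrimes
  rw [mem_erase, Nat.mem_primesBelow]

lemma oddPrimes_subset (N : ℕ) : oddPrimes N ⊆ Icc 3 (N-1) := by
  intro p hp
  rw [mem_oddPrimes] at hp
  have := hp.2.2.two_le
  rw [mem_Icc]; omega

lemma sum_inv_sq_oddPrimes (N : ℕ) : ∑ p ∈ oddPrimes N, 1/(p:ℝ)^2 ≤ 1 := by
  refine le_trans ?_ (sum_inv_sq_Icc (N-1))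
  refine sum_le_sum_of_subset_of_nonneg ?_ (fun p _ _ => by positivity)
  intro p hp
  have := oddPrimes_subset N hp
  rw [mem_Icc] at this ⊢
  omega

lemma prod_dens_le (a : ℕ) (e : ℤ) (he : e = 1 ∨ e = -1) (N : ℕ) (hN : 3 ≤ N) :
    ∏ p ∈ oddPrimes N, (1 - dens a e p) ≤ 2 * Real.exp 5 / Real.log N := by
  have h1 : ∏ p ∈ oddPrimes N, (1 - dens a e p) ≤
      ∏ p ∈ oddPrimes N, ((1 - 1/(p:ℝ)) * Real.exp (5 * (1/(p:ℝ)^2))) := by
    refine prod_le_prod (fun p hp => ?_) (fun p hp => ?_)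
    · rw [mem_oddPrimes] at hp
      have := (dens_bounds a e he p hp.2.2 hp.1).2.1
      linarith
    · have hp' := oddPrimes_subset N hp
      rw [mem_oddPrimes] at hp
      rw [mem_Icc] at hp'
      have hp3 : (3:ℝ) ≤ p := by exact_mod_cast hp'.1
      have h2 := (dens_bounds a e he p hp.2.2 hp.1).2.2.2
      have h3 : 1 + 5 * (1/(p:ℝ)^2) ≤ Real.exp (5 * (1/(p:ℝ)^2)) := by
        have := Real.add_one_le_exp (5 * (1/(p:ℝ)^2))
        linarith
      have h4 : (0:ℝ) ≤ 1 - 1/(p:ℝ) := by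
        have : 1/(p:ℝ) ≤ 1 := by rw [div_le_one (by linarith)]; linarith
        linarith
      have h5 := mul_le_mul_of_nonneg_left h3 h4
      refine le_trans ?_ h5
      have h6 : (1 - 1/(p:ℝ)) * (1 + 5 * (1/(p:ℝ)^2)) =
          1 - 1/(p:ℝ) + 3/(p:ℝ)^2 + (2/(p:ℝ)^2 - 5/(p:ℝ)^3) := by
        field_simp; ring
      have h7 : 0 ≤ 2/(p:ℝ)^2 - 5/(p:ℝ)^3 := by
        rw [sub_nonneg, div_le_div_iff₀ (by positivity) (by positivity)]
        nlinarith [pow_pos (show (0:ℝ) < p by linarith) 2]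
      rw [h6]; linarith
  refine h1.trans ?_
  rw [prod_mul_distrib, ← Real.exp_sum, ← mul_sum]
  have h2 : Real.exp (5 * ∑ p ∈ oddPrimes N, 1/(p:ℝ)^2) ≤ Real.exp 5 := by
    rw [Real.exp_le_exp]
    have := sum_inv_sq_oddPrimes N
    linarith
  have h3 : ∏ p ∈ oddPrimes N, (1 - 1/(p:ℝ)) ≤ 2 / Real.log N := by
    have h4 := prod_primes_le N (by omega)
    have h5 : 2 ∈ N.primesBelow := by
      rw [Nat.mem_primesBelow]; exact ⟨by omega, Nat.prime_two⟩
    rw [← mul_prod_erase _ _ h5] at h4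
    change (1 - 1/((2:ℕ):ℝ)) * ∏ p ∈ oddPrimes N, (1 - 1/(p:ℝ)) ≤ _ at h4
    have e : (2:ℝ) / Real.log N = 2 * (1 / Real.log N) := by ring
    rw [e]
    push_cast at h4
    linarith
  have h4 : 0 ≤ ∏ p ∈ oddPrimes N, (1 - 1/(p:ℝ)) := by
    refine prod_nonneg fun p hp => ?_
    rw [mem_oddPrimes] at hp
    have : (1:ℝ) < p := by exact_mod_cast hp.2.2.one_lt
    have : 1/(p:ℝ) < 1 := by rw [div_lt_one (by linarith)]; exact this
    linarith
  calc (∏ p ∈ oddPrimes N, (1 - 1/(p:ℝ))) * Real.exp (5 * ∑ p ∈ oddPrimes N, 1/(p:ℝ)^2)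
      ≤ (2 / Real.log N) * Real.exp 5 :=
        mul_le_mul h3 h2 (Real.exp_pos _).le (h4.trans h3)
    _ = 2 * Real.exp 5 / Real.log N := by ring

/-- dyadic block of primes -/
lemma dyadic_primes (j : ℕ) (hj : 1 ≤ j) :
    ∑ p ∈ (Ioc (2^j) (2^(j+1))).filter Nat.Prime, (1:ℝ)/p ≤ 4 / j := by
  set A := (Ioc (2^j) (2^(j+1))).filter Nat.Prime with hA
  have h1 : (2^j)^A.card ≤ 4^(2^(j+1)) := by
    calc (2^j)^A.card = ∏ _p ∈ A, 2^j := by rw [prod_const]
      _ ≤ ∏ p ∈ A, p := prod_le_prod' fun p hp => by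
          rw [hA, mem_filter, mem_Ioc] at hp; exact hp.1.1.le
      _ ≤ primorial (2^(j+1)) := by
          unfold primorial
          refine prod_le_prod_of_subset_of_one_le' ?_ (fun p hp _ => ?_)
          · intro p hp
            rw [hA, mem_filter, mem_Ioc] at hp
            rw [mem_filter, mem_range]
            exact ⟨by omega, hp.2⟩
          · rw [mem_filter] at hp
            exact hp.2.one_lt.le
      _ ≤ 4^(2^(j+1)) := primorial_le_four_pow _
  have h2 : j * A.card ≤ 2 * 2^(j+1) := by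
    have h3 : (2:ℕ)^(j * A.card) ≤ 2^(2 * 2^(j+1)) := by
      rw [pow_mul, pow_mul]; exact h1
    exact (Nat.pow_le_pow_iff_right (by norm_num)).mp h3
  have hj' : (0:ℝ) < j := by exact_mod_cast hj
  have h2' : (j:ℝ) * A.card ≤ 2 * 2^(j+1) := by exact_mod_cast h2
  calc ∑ p ∈ A, (1:ℝ)/p ≤ ∑ _p ∈ A, (1:ℝ)/2^j := by
        refine sum_le_sum fun p hp => ?_
        rw [hA, mem_filter, mem_Ioc] at hp
        apply one_div_le_one_div_of_le (by positivity)
        exact_mod_cast hp.1.1.le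
    _ = A.card / 2^j := by rw [sum_const, nsmul_eq_mul]; ring
    _ ≤ 4 / j := by
        rw [div_le_div_iff₀ (by positivity) hj']
        have : (4:ℝ) * 2^j = 2 * 2^(j+1) := by ring
        rw [this]; linarith

lemma sum_inv_oddPrimes (N J : ℕ) (hN : N ≤ 2^(J+1)) :
    ∑ p ∈ oddPrimes N, (1:ℝ)/p ≤ 4 * (1 + Real.log J) := by
  have h1 : ∀ p ∈ oddPrimes N, Nat.log 2 (p-1) ∈ Icc 1 J := by
    intro p hp
    have hp' := oddPrimes_subset N hp
    rw [mem_Icc] at hp'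
    rw [mem_Icc]
    constructor
    · exact Nat.log_pos (by norm_num) (by omega)
    · have : Nat.log 2 (p-1) < J+1 := Nat.log_lt_of_lt_pow (by omega) (by omega)
      omega
  have h2 : ∑ p ∈ oddPrimes N, (1:ℝ)/p ≤
      ∑ j ∈ Icc 1 J, ∑ p ∈ (Ioc (2^j) (2^(j+1))).filter Nat.Prime, (1:ℝ)/p := by
    rw [← sum_fiberwise_of_maps_to h1]
    refine sum_le_sum fun j hj => ?_
    refine sum_le_sum_of_subset_of_nonneg ?_ (fun p _ _ => by positivity)
    intro p hp
    rw [mem_filter] at hp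
    obtain ⟨hp, rfl⟩ := hp
    have hp' := oddPrimes_subset N hp
    rw [mem_Icc] at hp'
    rw [mem_oddPrimes] at hp
    rw [mem_filter, mem_Ioc]
    refine ⟨⟨?_, ?_⟩, hp.2.2⟩
    · have : 2^(Nat.log 2 (p-1)) ≤ p - 1 := Nat.pow_log_le_self 2 (by omega)
      omega
    · have : p - 1 < 2^(Nat.log 2 (p-1) + 1) := Nat.lt_pow_succ_log_self (by norm_num) _
      omega
  refine h2.trans ?_
  have h3 : ∑ j ∈ Icc 1 J, ∑ p ∈ (Ioc (2^j) (2^(j+1))).filter Nat.Prime, (1:ℝ)/p ≤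
      ∑ j ∈ Icc 1 J, 4 * ((1:ℝ)/j) := by
    refine sum_le_sum fun j hj => ?_
    rw [mem_Icc] at hj
    refine (dyadic_primes j hj.1).trans (le_of_eq ?_)
    ring
  refine h3.trans ?_
  rw [← mul_sum]
  have h4 := harmonic_le_one_add_log J
  rw [harmonic_eq_sum_Icc] at h4
  push_cast at h4
  have h5 : ∑ j ∈ Icc 1 J, (1:ℝ)/j = ∑ j ∈ Icc 1 J, ((j:ℝ))⁻¹ :=
    sum_congr rfl fun j _ => by rw [one_div]
  rw [h5]; linarith

end Pool.Agent.H12
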