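import Mathlib
import Pool.Agent.H12.Upper
import Pool.Agent.H12.Joint

/-!
Designs give pairs without bad events.
-/

namespace Pool.Agent.H12

open Finset Classical

/-- the inverse of `z` mod `a` -/
noncomputable def b0 (a z : ℕ) : ℕ :=
  if h : ∃ c, c < a ∧ (c * z) % a = 1 % a then Nat.find h else 0

/-- `b0 (a-z) + 1` divided by `a` -/
noncomputable def xx0 (a z : ℕ) : ℕ := (b0 a z * (a - z) + 1) / a

/-- constant term of `v` -/
noncomputable def vv0 (a z : ℕ) : ℕ := a * b0 a z + 1

lemma b0_eq {a z b : ℕ} (ha : 0 < a) (h : (b * z) ≡ 1 [MOD a]) : b % a = b0 a z := by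
  have hz : Nat.Coprime z a := by
    have h2 : Nat.gcd (b*z) a = 1 := by
      rw [h.gcd_eq]; simp
    exact Nat.Coprime.coprime_mul_left h2
  have hb : b % a < a ∧ (b % a * z) % a = 1 % a := by
    refine ⟨Nat.mod_lt _ ha, ?_⟩
    have : b % a * z ≡ b * z [MOD a] := (Nat.mod_modEq b a).mul_right z
    exact this.trans h
  have hex : ∃ c, c < a ∧ (c * z) % a = 1 % a := ⟨_, hb⟩
  unfold b0
  rw [dif_pos hex]
  have hf := Nat.find_spec hex
  have h3 : b % a * z ≡ Nat.find hex * z [MOD a] := by
    unfold Nat.ModEq; rw [hb.2, hf.2]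
  have h4 : b % a ≡ Nat.find hex [MOD a] := Nat.ModEq.cancel_right_of_coprime
    (by rw [Nat.gcd_comm]; exact hz) h3
  exact Nat.ModEq.eq_of_lt_of_lt h4 hb.1 hf.1

lemma no_bad {v k l : ℕ} (h : Admissible v k l) (hd : SymmetricDesignExists v k l)
    (hb1 : Nat.gcd (k-1) (v-1) ≠ 1) :
    ∃ z, z < Nat.gcd k (v-1) ∧
      Nat.gcd (k-1) (v-1) % Nat.gcd k (v-1) = b0 (Nat.gcd k (v-1)) z ∧
      ∃ e : ℤ, (e = 1 ∨ e = -1) ∧ ∀ p : ℕ, p.Prime →
        ¬ Bad (Nat.gcd k (v-1)) e p z (xx0 (Nat.gcd k (v-1)) z) (vv0 (Nat.gcd k (v-1)) z)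
          (Nat.gcd (k-1) (v-1) / Nat.gcd k (v-1)) := by
  obtain ⟨x, y, hab, hcop, ha2, hkx, hky, hl, hx0, hy0, hya⟩ := admissible_facts h
  set a := Nat.gcd k (v-1) with ha
  set b := Nat.gcd (k-1) (v-1) with hb
  have hk := h.1
  have hkv := h.2.2.1
  have hcnt := h.2.2.2
  obtain ⟨z, hz⟩ : ∃ z, a = y + z := ⟨a - y, by omega⟩
  have hz0 : 0 < z := by omega
  have hv : v = a * b + 1 := by omega
  have hk1 : a * x = b * y + 1 := by rw [← hkx, ← hky]
  have hb0 : 0 < b := by
    rcases Nat.eq_zero_or_pos b with h0 | h0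
    · rw [h0] at hv; simp at hv; omega
    · exact h0
  have hxb : x < b := by
    by_contra hcon
    push Not at hcon
    have e1 : a * b ≤ a * x := Nat.mul_le_mul_left a hcon
    have e2 : b * y + 1 ≤ b * a := by
      have e3 : b * (y+1) ≤ b * a := Nat.mul_le_mul_left b hya
      nlinarith
    have e3 : a * x = a * b := by
      have : a * b = b * a := mul_comm a b
      omega
    have e4 : b * (a - y) = 1 := by
      have e5 : a - y = z := by omega
      rw [e5]
      have : b * a = b * y + b * z := by rw [hz]; ring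
      have : a * b = b * a := mul_comm a b
      omega
    exact hb1 (Nat.eq_one_of_mul_eq_one_right e4)
  obtain ⟨w, hw⟩ : ∃ w, b = x + w := ⟨b - x, by omega⟩
  have hvk : v - k = b * z := by
    rw [hv, hky]
    have : a * b = b * y + b * z := by rw [hz]; ring
    omega
  have hvk' : v - k = a * w + 1 := by
    rw [hv, hkx]
    have : a * b = a * x + a * w := by rw [hw]; ring
    omega
  have e4 : a * w + 1 = b * z := by rw [← hvk', hvk]
  have hl' : v + l - 2 * k = z * w := by
    have e1 : v + l = 2 * k + z * w := by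
      have e2 : v = a * x + a * w + 1 := by rw [hv, hw]; ring
      have e3 : k = a * x := hkx
      rw [e2, hl, e3]
      have e5 : a * x + a * w + 1 + x * y = a * x + (a * w + 1) + x * y := by ring
      rw [e5, e4, hw, hz]; ring
    omega
  have hxz : x * z = y * w + 1 := by
    have e5 : (y + z) * x = (x + w) * y + 1 := by rw [← hz, ← hw]; exact hk1
    nlinarith
  have hn : k - l = x * z := by
    rw [hl, hkx, hz]
    have : (y + z) * x = x * y + x * z := by ring
    rw [this]; simp
  have hbz : b * z ≡ 1 [MOD a] := by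
    rw [← e4]
    have : a * w + 1 ≡ 0 + 1 [MOD a] := Nat.ModEq.add_right 1 (by simp [Nat.ModEq])
    rw [zero_add] at this; exact this
  have hb0' := b0_eq (by omega) hbz
  have hdm : b = a * (b / a) + b0 a z := by
    rw [← hb0']; exact (Nat.div_add_mod b a).symm
  set t := b / a with ht
  have hay : a - z = y := by omega
  -- x = y t + xx0
  have hx : y * t + xx0 a z = x := by
    have e5 : a * x = a * (y * t) + (b0 a z * y + 1) := by
      rw [hk1]; nth_rewrite 1 [hdm]; ring
    have e6 : y * t ≤ x := by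
      have : a * (y * t) ≤ a * x := by omega
      exact Nat.le_of_mul_le_mul_left this (by omega)
    have e7 : b0 a z * y + 1 = a * (x - y * t) := by
      rw [Nat.mul_sub]; omega
    unfold xx0
    rw [hay, e7, Nat.mul_div_cancel_left _ (by omega : 0 < a)]
    omega
  have hvv : a^2 * t + vv0 a z = a * b + 1 := by
    unfold vv0
    calc a^2 * t + (a * b0 a z + 1) = a * (a * t + b0 a z) + 1 := by ring
      _ = a * b + 1 := by rw [← hdm]
  refine ⟨z, by omega, hb0', sgn (a*b), sgn_or _, fun p hp hbad => ?_⟩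
  have : Fact p.Prime := ⟨hp⟩
  have e8 : (v-1)/2 = a*b/2 := by rw [← hab]
  rcases hbad with ⟨h1, h2⟩ | ⟨h1, ⟨h2, h2'⟩, h3⟩ | ⟨h1, h2, h3, h3'⟩
  · have h4 : p ∣ a * w + 1 := by rw [e4]; exact Dvd.dvd.mul_left h2 b
    have h5 : p ∣ a * w := Dvd.dvd.mul_right h1 w
    have h6 : p ∣ 1 := (Nat.dvd_add_right h5).mp h4
    exact hp.one_lt.ne' (Nat.dvd_one.mp h6)
  · apply h3
    have e9 : ((a:ZMod p)^2 * t + vv0 a z) = ((a * b + 1 : ℕ) : ZMod p) := by
      rw [← hvv]; push_cast; ring
    rw [e9]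
    -- l = v mod p
    have hzz : ((z:ℕ) : ZMod p) = 0 := by rwa [ZMod.natCast_eq_zero_iff]
    have hay' : (a : ZMod p) = y := by
      rw [hz]; push_cast; rw [hzz, add_zero]
    have hk2 : (a : ZMod p) * x = b * y + 1 := by
      have := congrArg (Nat.cast : ℕ → ZMod p) hk1
      push_cast at this
      exact this
    have hvl : ((a * b + 1 : ℕ) : ZMod p) = l := by
      rw [hl]; push_cast
      calc (a : ZMod p) * b + 1 = b * y + 1 := by rw [hay']; ring
        _ = a * x := hk2.symm
        _ = x * y := by rw [hay']; ring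
    rw [hvl]
    by_cases hpx : p ∣ x
    · have : (l : ZMod p) = 0 := by
        rw [ZMod.natCast_eq_zero_iff, hl]
        exact Dvd.dvd.mul_right hpx y
      rw [this, mul_zero]
      exact IsSquare.zero
    · have g1 : p ∣ k - l := by rw [hn]; exact Dvd.dvd.mul_left h2 x
      have g2 : ¬ p^2 ∣ k - l := by
        rw [hn]
        intro g3
        have g4 : Nat.Coprime (p^2) x := Nat.Coprime.pow_left 2
          ((Nat.Prime.coprime_iff_not_dvd hp).mpr hpx)
        exact h2' (g4.dvd_of_dvd_mul_left g3)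
      have hlk : l < k := by
        by_contra hcon
        have : k - l = 0 := by omega
        rw [this] at g2
        exact g2 (dvd_zero _)
      obtain ⟨-, g3⟩ := brc_local hd hlk p g1 g2
      unfold sgn
      rw [e8] at g3
      push_cast at g3 ⊢
      exact g3
  · apply h2
    rw [hay, hx] at h3 h3'
    have hxx : ((x:ℕ) : ZMod p) = 0 := by rwa [ZMod.natCast_eq_zero_iff]
    have hyw : (y : ZMod p) * w = -1 := by
      have := congrArg (Nat.cast : ℕ → ZMod p) hxz
      push_cast at this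
      rw [hxx, zero_mul] at this
      linear_combination -this
    have haz : (a : ZMod p) - z = y := by
      rw [hz]; push_cast; ring
    have key : IsSquare (((sgn (a*b) : ℤ) : ZMod p) * (z * w)) := by
      by_cases hpz : p ∣ z
      · have : ((z:ℕ) : ZMod p) = 0 := by rwa [ZMod.natCast_eq_zero_iff]
        rw [this, zero_mul, mul_zero]; exact IsSquare.zero
      · have hd' := compl_design hd hk
        rw [hl', hvk] at hd'
        have hn' : b * z - z * w = x * z := by
          rw [hw]
          have : (x + w) * z = x * z + z * w := by ring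
          rw [this]; simp
        have g1 : p ∣ b * z - z * w := by rw [hn']; exact Dvd.dvd.mul_right h3 z
        have g2 : ¬ p^2 ∣ b * z - z * w := by
          rw [hn']
          intro g3
          have g4 : Nat.Coprime (p^2) z := Nat.Coprime.pow_left 2
            ((Nat.Prime.coprime_iff_not_dvd hp).mpr hpz)
          exact h3' (g4.dvd_of_dvd_mul_right g3)
        have hlk : z * w < b * z := by
          by_contra hcon
          have : b * z - z * w = 0 := by omega
          rw [this] at g2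
          exact g2 (dvd_zero _)
        obtain ⟨-, g3⟩ := brc_local hd' hlk p g1 g2
        unfold sgn
        rw [e8] at g3
        push_cast at g3 ⊢
        exact g3
    rw [haz]
    obtain ⟨s, hs⟩ := key
    refine ⟨s * y, ?_⟩
    have : s * y * (s * y) = (s * s) * (y * y) := by ring
    rw [this, ← hs]
    linear_combination (-((sgn (a*b) : ℤ) : ZMod p) * z * y) * hyw

/-- the triples in `T1 X` with first coordinate `a` -/
noncomputable def Ta (X a : ℕ) : Finset (ℕ × ℕ × ℕ) := (T1 X).filter (fun t => aOf t = a)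

lemma T1_facts {X : ℕ} {t : ℕ × ℕ × ℕ} (ht : t ∈ T1 X) :
    Admissible t.1 t.2.1 t.2.2 ∧ SymmetricDesignExists t.1 t.2.1 t.2.2 ∧ aOf t < bOf t ∧
      aOf t * bOf t + 1 ≤ X ∧ 2 ≤ aOf t := by
  unfold T1 Rea at ht
  rw [mem_filter, mem_filter, mem_Adm] at ht
  obtain ⟨⟨⟨hX, hA⟩, hD⟩, hlt⟩ := ht
  obtain ⟨x, y, hab, hcop, ha2, hkx, hky, hl, hx0, hy0, hya⟩ := admissible_facts hA
  change aOf t * bOf t = t.1 - 1 at hab
  change 2 ≤ aOf t at ha2
  refine ⟨hA, hD, hlt, ?_, ha2⟩
  have := hA.2.2.1
  omega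

lemma card_T1_eq (X : ℕ) : (T1 X).card = ∑ a ∈ Icc 2 (Nat.sqrt X), (Ta X a).card := by
  unfold Ta
  apply card_eq_sum_card_fiberwise
  intro t ht
  rw [mem_coe] at ht
  obtain ⟨-, -, h1, h2, h3⟩ := T1_facts ht
  rw [mem_coe, mem_Icc]
  refine ⟨h3, ?_⟩
  rw [Nat.le_sqrt]
  have := Nat.mul_le_mul_left (aOf t) h1.le
  omega

lemma card_Ta_trivial (X a : ℕ) (ha : 2 ≤ a) : (Ta X a).card ≤ X / a := by
  have : (Ta X a).card ≤ (Icc 1 (X/a)).card := by
    refine card_le_card_of_injOn bOf ?_ ?_
    · intro t ht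
      unfold Ta at ht
      rw [mem_coe, mem_filter] at ht
      obtain ⟨h1, h2⟩ := ht
      obtain ⟨-, -, h3, h4, h5⟩ := T1_facts h1
      rw [mem_coe, mem_Icc]
      rw [h2] at h4 h3
      refine ⟨by omega, ?_⟩
      rw [Nat.le_div_iff_mul_le (by omega), mul_comm]
      omega
    · intro t ht t' ht' h
      unfold Ta at ht ht'
      rw [mem_coe, mem_filter] at ht ht'
      obtain ⟨h1, -⟩ := T1_facts ht.1
      obtain ⟨h1', -⟩ := T1_facts ht'.1
      have e := pair_injective h1 h1' (by
        change aOf t = aOf t'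
        rw [ht.2, ht'.2]) h
      exact Prod.ext e.1 (Prod.ext e.2.1 e.2.2)
  simpa using this

lemma card_Ta_sieve (X a : ℕ) (ha : 2 ≤ a) (P : Finset ℕ) (hP : ∀ p ∈ P, p.Prime) :
    (Ta X a).card ≤ ∑ e ∈ ({1, -1} : Finset ℤ),
      ((range a ×ˢ range (X/a^2+1)).filter (fun ω : ℕ × ℕ =>
        ∀ p ∈ P, ¬ Bad a e p ω.1 (xx0 a ω.1) (vv0 a ω.1) ω.2)).card := by
  set G : ℤ → Finset (ℕ × ℕ) := fun e => (range a ×ˢ range (X/a^2+1)).filter
    (fun ω : ℕ × ℕ => ∀ p ∈ P, ¬ Bad a e p ω.1 (xx0 a ω.1) (vv0 a ω.1) ω.2) with hG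
  have h1 : (Ta X a).card ≤ (({1, -1} : Finset ℤ).biUnion G).card := by
    have key : ∀ t ∈ Ta X a, ∃ ω ∈ ({1, -1} : Finset ℤ).biUnion G,
        bOf t = a * ω.2 + b0 a ω.1 := by
      intro t ht
      unfold Ta at ht
      rw [mem_filter] at ht
      obtain ⟨h1, h2⟩ := ht
      obtain ⟨hA, hD, h3, h4, h5⟩ := T1_facts h1
      have hb : Nat.gcd (t.2.1-1) (t.1-1) ≠ 1 := by
        change bOf t ≠ 1
        omega
      obtain ⟨z, hz, hbz, e, he, hbad⟩ := no_bad hA hD hb
      change z < aOf t at hz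
      change bOf t % aOf t = b0 (aOf t) z at hbz
      have hbad' : ∀ p : ℕ, p.Prime → ¬ Bad (aOf t) e p z (xx0 (aOf t) z) (vv0 (aOf t) z)
        (bOf t / aOf t) := hbad
      rw [h2] at hz hbz hbad' h4 h3
      refine ⟨(z, bOf t / a), ?_, ?_⟩
      · rw [mem_biUnion]
        refine ⟨e, ?_, ?_⟩
        · rcases he with h | h <;> rw [h] <;> simp
        · rw [hG]
          simp only
          rw [mem_filter, mem_product, mem_range, mem_range]
          refine ⟨⟨hz, ?_⟩, fun p hp => hbad' p (hP p hp)⟩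
          have : bOf t / a ≤ X / a^2 := by
            rw [Nat.le_div_iff_mul_le (by positivity)]
            have e1 : bOf t / a * a ≤ bOf t := Nat.div_mul_le_self _ _
            have e2 : bOf t / a * a^2 = (bOf t / a * a) * a := by ring
            rw [e2]
            have e3 : (bOf t / a * a) * a ≤ bOf t * a := Nat.mul_le_mul_right a e1
            have e4 : bOf t * a = a * bOf t := mul_comm _ _
            omega
          simp only
          omega
      · simp only
        rw [← hbz]; exact (Nat.div_add_mod _ _).symm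
    choose! f hf1 hf2 using key
    refine card_le_card_of_injOn f (fun t ht => hf1 t ht) ?_
    intro t ht t' ht' h
    rw [mem_coe] at ht ht'
    have e1 := hf2 t ht
    have e2 := hf2 t' ht'
    rw [← h, ← e1] at e2
    unfold Ta at ht ht'
    rw [mem_filter] at ht ht'
    obtain ⟨h1, -⟩ := T1_facts ht.1
    obtain ⟨h1', -⟩ := T1_facts ht'.1
    have e := pair_injective h1 h1' (by
      change aOf t = aOf t'
      rw [ht.2, ht'.2]) e2.symm
    exact Prod.ext e.1 (Prod.ext e.2.1 e.2.2)
  exact h1.trans card_biUnion_le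

end Pool.Agent.H12
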