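import Mathlib
import Pool.Agent.H12.NoBad
import Pool.Agent.H12.Mertens

/-!
The sieve bound for one value of `a`.
-/

namespace Pool.Agent.H12

open Finset Classical

lemma tail_bound (s : ℝ) (hs : 0 ≤ s) (n : ℕ) (h : Real.exp 2 * s ≤ n) :
    s^n / (n.factorial : ℝ) ≤ Real.exp (-n) := by
  have h1 := Real.pow_div_factorial_le_exp (Real.exp 2 * s) (by positivity) n
  rw [mul_pow, mul_div_assoc, ← Real.exp_nat_mul] at h1
  have h2 : Real.exp (Real.exp 2 * s) ≤ Real.exp n := Real.exp_le_exp.mpr h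
  have h3 := h1.trans h2
  have h4 : Real.exp (-n) = Real.exp n / Real.exp (n * 2) := by
    rw [← Real.exp_sub]; congr 1; ring
  rw [h4, le_div_iff₀ (Real.exp_pos _)]
  linarith

lemma Ta_bound (X a r : ℕ) (ha : 2 ≤ a) (hr : Even r) (Y : ℝ) (hY : 4 ≤ Y) (hYX : Y ≤ X)
    (hs : Real.exp 2 * (8 * (1 + Real.log (Nat.log 2 X))) ≤ r + 1) :
    ((Ta X a).card : ℝ) ≤ 2 * (((a:ℝ) * ((X/a^2+1 : ℕ) : ℝ)) *
      (4 * Real.exp 5 / Real.log Y + Real.exp (-((r:ℝ)+1))) +
      (((a:ℝ) + ((X/a^2+1 : ℕ) : ℝ)) * Y^(3*r) + Y^(5*r))) := by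
  set S := X/a^2+1 with hS
  set N := ⌊Y⌋₊ with hN
  have hY0 : (0:ℝ) ≤ Y := by linarith
  have hNY : (N:ℝ) ≤ Y := Nat.floor_le hY0
  have hYN : Y < N + 1 := Nat.lt_floor_add_one Y
  have hN4 : 4 ≤ N := Nat.le_floor (by exact_mod_cast hY)
  have hN4' : (4:ℝ) ≤ N := by exact_mod_cast hN4
  have hNX : N ≤ X := by
    have : (N:ℝ) ≤ X := hNY.trans hYX
    exact_mod_cast this
  have hX0 : X ≠ 0 := by omega
  set P := oddPrimes N with hP
  have hPp : ∀ p ∈ P, p.Prime := fun p hp => (mem_oddPrimes.mp hp).2.2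
  have hP2 : ∀ p ∈ P, p ≠ 2 := fun p hp => (mem_oddPrimes.mp hp).1
  have hPY : ∀ p ∈ P, (p:ℝ) ≤ Y := by
    intro p hp
    have h1 := (mem_oddPrimes.mp hp).2.1
    have : (p:ℝ) ≤ N := by exact_mod_cast h1.le
    linarith
  have hPc : (P.card : ℝ) + 1 ≤ Y := by
    have h1 := card_le_card (oddPrimes_subset N)
    rw [Nat.card_Icc] at h1
    have h2 : P.card + 1 ≤ N := by
      rw [hP]; omega
    have : (P.card : ℝ) + 1 ≤ N := by exact_mod_cast h2
    linarith
  have h1 := card_Ta_sieve X a ha P hPp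
  have hlogY : 0 < Real.log Y := Real.log_pos (by linarith)
  have hlogN : Real.log Y ≤ 2 * Real.log N := by
    have : Real.log Y ≤ Real.log ((N:ℝ)^2) := by
      apply Real.log_le_log (by linarith)
      nlinarith
    rwa [Real.log_pow, Nat.cast_ofNat] at this
  have hJ : N ≤ 2^(Nat.log 2 X + 1) := hNX.trans (Nat.lt_pow_succ_log_self (by norm_num) X).le
  have hsum := sum_inv_oddPrimes N (Nat.log 2 X) hJ
  have hlog0 : 0 ≤ 1 + Real.log (Nat.log 2 X) := by
    have : 0 ≤ Real.log ((Nat.log 2 X : ℕ) : ℝ) := Real.log_natCast_nonneg _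
    linarith
  have key : ∀ e ∈ ({1, -1} : Finset ℤ),
      (((range a ×ˢ range S).filter (fun ω : ℕ × ℕ =>
        ∀ p ∈ P, ¬ Bad a e p ω.1 (xx0 a ω.1) (vv0 a ω.1) ω.2)).card : ℝ) ≤
      ((a:ℝ) * S) * (4 * Real.exp 5 / Real.log Y + Real.exp (-((r:ℝ)+1))) +
      (((a:ℝ) + S) * Y^(3*r) + Y^(5*r)) := by
    intro e he
    have he' : e = 1 ∨ e = -1 := by simpa using he
    have h2 := sieve_bound a S e he' (xx0 a) (vv0 a) P hPp hP2 r hr Y hPY hPc (by linarith)
    refine h2.trans ?_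
    have h3 := prod_dens_le a e he' N (by omega)
    have h4 : 2 * Real.exp 5 / Real.log N ≤ 4 * Real.exp 5 / Real.log Y := by
      rw [div_le_div_iff₀ (by linarith) hlogY]
      have := Real.exp_pos 5
      nlinarith
    have h5 : ∑ p ∈ P, dens a e p ≤ 8 * (1 + Real.log (Nat.log 2 X)) := by
      calc ∑ p ∈ P, dens a e p ≤ ∑ p ∈ P, 2 * ((1:ℝ)/p) := by
            refine sum_le_sum fun p hp => ?_
            refine (dens_bounds a e he' p (hPp p hp) (hP2 p hp)).2.2.1.trans (le_of_eq ?_)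
            ring
        _ = 2 * ∑ p ∈ P, (1:ℝ)/p := by rw [mul_sum]
        _ ≤ 2 * (4 * (1 + Real.log (Nat.log 2 X))) := by linarith
        _ = 8 * (1 + Real.log (Nat.log 2 X)) := by ring
    have h5' : 0 ≤ ∑ p ∈ P, dens a e p := sum_nonneg fun p hp =>
      (dens_bounds a e he' p (hPp p hp) (hP2 p hp)).1
    have h6 : (∑ p ∈ P, dens a e p)^(r+1) / ((r+1).factorial : ℝ) ≤
        Real.exp (-((r:ℝ)+1)) := by
      have h7 := tail_bound (8 * (1 + Real.log (Nat.log 2 X))) (by positivity) (r+1) (by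
        push_cast; exact hs)
      push_cast at h7
      refine le_trans ?_ h7
      exact div_le_div_of_nonneg_right (pow_le_pow_left₀ h5' h5 _) (by positivity)
    have h8 : ∏ p ∈ P, (1 - dens a e p) + (∑ p ∈ P, dens a e p)^(r+1) / ((r+1).factorial : ℝ) ≤
        4 * Real.exp 5 / Real.log Y + Real.exp (-((r:ℝ)+1)) := by
      have := h3.trans h4
      linarith
    have h9 := mul_le_mul_of_nonneg_left h8 (show (0:ℝ) ≤ (a:ℝ) * S by positivity)
    have h10 : Y^r * (((a:ℝ) + S) * Y^(2*r) + Y^(4*r)) =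
        ((a:ℝ) + S) * Y^(3*r) + Y^(5*r) := by
      have e1 : Y^(3*r) = Y^r * Y^(2*r) := by rw [← pow_add]; congr 1; ring
      have e2 : Y^(5*r) = Y^r * Y^(4*r) := by rw [← pow_add]; congr 1; ring
      rw [e1, e2]; ring
    linarith
  have h11 : ((Ta X a).card : ℝ) ≤ ∑ e ∈ ({1, -1} : Finset ℤ),
      (((range a ×ˢ range S).filter (fun ω : ℕ × ℕ =>
        ∀ p ∈ P, ¬ Bad a e p ω.1 (xx0 a ω.1) (vv0 a ω.1) ω.2)).card : ℝ) := by
    exact_mod_cast h1
  refine h11.trans ((sum_le_sum key).trans (le_of_eq ?_))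
  rw [sum_const]
  have : ({1, -1} : Finset ℤ).card = 2 := by decide
  rw [this, nsmul_eq_mul]
  push_cast; ring

end Pool.Agent.H12
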