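import Mathlib
import Pool.Agent.H12.Defs
import Pool.Agent.H12.BRC
import Pool.Agent.H12.Average
import Pool.Agent.H12.NonSquare

/-!
For a fixed `l`, almost no block size is realised.
-/

namespace Pool.Agent.H12

open Filter Topology Finset Classical

/-- local factor -/
noncomputable def h0 (p w : ℕ) : ℝ := if p ∣ w ∧ ¬ p^2 ∣ w then 0 else 1

lemma h0_nonneg (p w : ℕ) : 0 ≤ h0 p w := by
  unfold h0; split_ifs <;> norm_num

lemma h0_mod (p w : ℕ) : h0 p (w % p^2) = h0 p w := by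
  unfold h0
  have h1 : p ∣ w % p^2 ↔ p ∣ w := (Nat.dvd_mod_iff (Dvd.intro_left (p^1) rfl))
  have h2 : p^2 ∣ w % p^2 ↔ p^2 ∣ w := Nat.dvd_mod_iff dvd_rfl
  simp only [h1, h2]

lemma sum_h0 (p : ℕ) (hp : p.Prime) :
    ∑ w ∈ range (p^2), h0 p w ≤ (p:ℝ)^2 * (1 - (p-1)/p^2) := by
  have h1 : ∑ w ∈ range (p^2), h0 p w =
      (p:ℝ)^2 - ((range (p^2)).filter (fun w => p ∣ w ∧ ¬ p^2 ∣ w)).card := by
    have : ∀ w, h0 p w = 1 - (if p ∣ w ∧ ¬ p^2 ∣ w then (1:ℝ) else 0) := by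
      intro w; unfold h0; split_ifs <;> norm_num
    simp only [this]
    rw [sum_sub_distrib, sum_boole]
    simp
  have h2 : p - 1 ≤ ((range (p^2)).filter (fun w => p ∣ w ∧ ¬ p^2 ∣ w)).card := by
    have : (Icc 1 (p-1)).card ≤ ((range (p^2)).filter (fun w => p ∣ w ∧ ¬ p^2 ∣ w)).card := by
      refine card_le_card_of_injOn (fun i => p * i) ?_ ?_
      · intro i hi
        simp only [coe_Icc, Set.mem_Icc] at hi
        simp only [coe_filter, mem_range, Set.mem_ofPred_eq]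
        have hp1 := hp.one_lt
        refine ⟨?_, Dvd.intro i rfl, ?_⟩
        · have : i < p := by omega
          nlinarith
        · intro h
          rw [sq] at h
          have := Nat.dvd_of_mul_dvd_mul_left hp.pos h
          have := Nat.le_of_dvd (by omega) this
          omega
      · intro i _ j _ h
        exact Nat.eq_of_mul_eq_mul_left hp.pos h
    simpa using this
  rw [h1]
  have hp1 := hp.one_lt
  have h3 : ((p:ℝ) - 1) ≤ ((range (p^2)).filter (fun w => p ∣ w ∧ ¬ p^2 ∣ w)).card := by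
    have : ((p - 1 : ℕ) : ℝ) ≤ ((range (p^2)).filter (fun w => p ∣ w ∧ ¬ p^2 ∣ w)).card := by
      exact_mod_cast h2
    rwa [Nat.cast_sub hp1.le, Nat.cast_one] at this
  have hp0 : (p:ℝ) ≠ 0 := by exact_mod_cast hp.ne_zero
  have h4 : (p:ℝ)^2 * (1 - (p-1)/p^2) = p^2 - (p-1) := by
    field_simp
  rw [h4]
  linarith

/-- the density -/
noncomputable def delta0 (P : Finset ℕ) : ℝ := ∏ p ∈ P, (1 - ((p:ℝ)-1)/p^2)

lemma sum_period0 (P : Finset ℕ) (hP : ∀ p ∈ P, p.Prime) :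
    ∑ z ∈ range (Qsq P), ∏ p ∈ P, h0 p z ≤ Qsq P * delta0 P := by
  have h1 : ∏ p ∈ P, ∑ w ∈ range (p^2), h0 p w ≤ Qsq P * delta0 P := by
    have : (Qsq P : ℝ) * delta0 P = ∏ p ∈ P, ((p:ℝ)^2 * (1 - (p-1)/p^2)) := by
      unfold Qsq delta0
      rw [prod_mul_distrib]; push_cast; rfl
    rw [this]
    refine prod_le_prod (fun p _ => sum_nonneg fun w _ => h0_nonneg p w) fun p hp => ?_
    exact sum_h0 p (hP p hp)
  refine le_trans ?_ h1
  rw [prod_sum]
  have h2 : ∑ z ∈ range (Qsq P), ∏ p ∈ P, h0 p z =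
      ∑ z ∈ range (Qsq P), (fun f : (p : ℕ) → p ∈ P → ℕ => ∏ x ∈ P.attach, h0 x.1 (f x.1 x.2))
        (fun p _ => z % p^2) := by
    refine sum_congr rfl fun z _ => ?_
    simp only [h0_mod]
    rw [← prod_attach]
  rw [h2, ← sum_image (f := fun f : (p : ℕ) → p ∈ P → ℕ =>
    ∏ x ∈ P.attach, h0 x.1 (f x.1 x.2)) (g := fun z => (fun p _ => z % p^2))]
  · refine sum_le_sum_of_subset_of_nonneg ?_ (fun f _ _ => ?_)
    · intro f hf
      rw [mem_image] at hf
      obtain ⟨z, hz, rfl⟩ := hf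
      rw [Finset.mem_pi]
      intro p hp
      rw [mem_range]
      exact Nat.mod_lt _ (by have := (hP p hp).pos; positivity)
    · exact prod_nonneg fun x _ => h0_nonneg _ _
  · intro z hz z' hz' h
    simp only [coe_range, Set.mem_Iio] at hz hz'
    have h3 : z ≡ z' [MOD ∏ p ∈ P, p^2] := modEq_prod_sq hP (by
      intro p hp
      exact congrFun (congrFun h p) hp)
    exact Nat.ModEq.eq_of_lt_of_lt h3 hz hz'

/-- the number of `z < a` not exactly divisible by any prime of `P` -/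
lemma count_not_exactly (P : Finset ℕ) (hP : ∀ p ∈ P, p.Prime) (a : ℕ) :
    (((range a).filter (fun z => ∀ p ∈ P, ¬ (p ∣ z ∧ ¬ p^2 ∣ z))).card : ℝ) ≤
      (a + Qsq P) * delta0 P := by
  have hQ0 : 0 < Qsq P := prod_pos fun p hp => pow_pos (hP p hp).pos 2
  have h00 : (((range a).filter (fun z => ∀ p ∈ P, ¬ (p ∣ z ∧ ¬ p^2 ∣ z))).card : ℝ) ≤
      ∑ z ∈ range a, ∏ p ∈ P, h0 p z := by
    rw [← sum_boole (R := ℝ)]
    refine sum_le_sum fun z _ => ?_
    split_ifs with h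
    · have : ∏ p ∈ P, h0 p z = 1 := prod_eq_one fun p hp => by
        unfold h0; rw [if_neg (h p hp)]
      rw [this]
    · exact prod_nonneg fun p _ => h0_nonneg p z
  refine h00.trans ?_
  have hmod : ∀ z, ∏ p ∈ P, h0 p z = ∏ p ∈ P, h0 p (z % Qsq P) := by
    intro z
    refine prod_congr rfl fun p hp => ?_
    rw [← h0_mod p z, ← h0_mod p (z % Qsq P)]
    congr 1
    have : z % Qsq P ≡ z [MOD p^2] := (Nat.mod_modEq z (Qsq P)).of_dvd
      (Finset.dvd_prod_of_mem (fun p => p^2) hp)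
    exact this.symm
  have h1 : ∑ z ∈ range a, ∏ p ∈ P, h0 p z ≤
      ∑ x ∈ (range (Qsq P)) ×ˢ (range (a / Qsq P + 1)), ∏ p ∈ P, h0 p x.1 := by
    have : ∑ z ∈ range a, ∏ p ∈ P, h0 p z =
        ∑ z ∈ range a, (fun x : ℕ × ℕ => ∏ p ∈ P, h0 p x.1) (z % Qsq P, z / Qsq P) :=
      sum_congr rfl fun z _ => hmod z
    rw [this, ← sum_image (f := fun x : ℕ × ℕ => ∏ p ∈ P, h0 p x.1)
      (g := fun z => (z % Qsq P, z / Qsq P))]
    · refine sum_le_sum_of_subset_of_nonneg ?_ (fun f _ _ => ?_)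
      · intro x hx
        rw [mem_image] at hx
        obtain ⟨z, hz, rfl⟩ := hx
        rw [mem_range] at hz
        rw [mem_product, mem_range, mem_range]
        refine ⟨Nat.mod_lt _ hQ0, ?_⟩
        have : z / Qsq P ≤ a / Qsq P := Nat.div_le_div_right hz.le
        simp only; omega
      · exact prod_nonneg fun x _ => h0_nonneg _ _
    · intro z _ z' _ h
      simp only [Prod.mk.injEq] at h
      rw [← Nat.div_add_mod z (Qsq P), ← Nat.div_add_mod z' (Qsq P), h.1, h.2]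
  refine h1.trans ?_
  rw [sum_product]
  simp only [sum_const, card_range, nsmul_eq_mul]
  rw [← mul_sum]
  have h2 := sum_period0 P hP
  have h3 : (((a / Qsq P + 1 : ℕ)) : ℝ) ≤ (a:ℝ) / Qsq P + 1 := by
    push_cast
    have : ((a / Qsq P : ℕ) : ℝ) ≤ (a:ℝ) / Qsq P := Nat.cast_div_le
    linarith
  have h4 : (0:ℝ) ≤ (Qsq P : ℝ) * delta0 P := le_trans
    (sum_nonneg fun z _ => prod_nonneg fun x _ => h0_nonneg _ _) h2
  have hQ' : (Qsq P : ℝ) ≠ 0 := by exact_mod_cast hQ0.ne'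
  calc (((a / Qsq P + 1 : ℕ)) : ℝ) * ∑ z ∈ range (Qsq P), ∏ p ∈ P, h0 p z
      ≤ (((a / Qsq P + 1 : ℕ)) : ℝ) * (Qsq P * delta0 P) := by gcongr
    _ ≤ ((a:ℝ) / Qsq P + 1) * (Qsq P * delta0 P) := mul_le_mul_of_nonneg_right h3 h4
    _ = (a + Qsq P) * delta0 P := by field_simp

/-- for a non-square integer `D` one can make the density small using only primes modulo which
`D` is a non-residue -/
lemma delta0_small (D : ℤ) (hD : ¬ IsSquare D) (ε : ℝ) (hε : 0 < ε) :
    ∃ P : Finset ℕ, (∀ p ∈ P, p.Prime ∧ ¬ IsSquare (D : ZMod p)) ∧ delta0 P < ε := by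
  obtain ⟨C, hC⟩ : ∃ C : ℝ, Real.exp (-C/2) < ε := by
    obtain ⟨x, hx⟩ := (Real.tendsto_exp_atBot.eventually (gt_mem_nhds hε)).exists
    exact ⟨-2*x, by rw [show -(-2*x)/2 = x by ring]; exact hx⟩
  obtain ⟨P, hP, hsum⟩ := exists_primes_nonres D hD C
  refine ⟨P, hP, ?_⟩
  have h2 : delta0 P ≤ ∏ p ∈ P, Real.exp (-(1/(p:ℝ))/2) := by
    unfold delta0
    refine prod_le_prod (fun p hp => ?_) (fun p hp => ?_)
    · have h1 : (1:ℝ) ≤ p := by exact_mod_cast (hP p hp).1.one_lt.le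
      have : ((p:ℝ)-1)/(p^2) ≤ 1 := by
        rw [div_le_one (by positivity)]; nlinarith
      linarith
    · have h1 : (2:ℝ) ≤ p := by exact_mod_cast (hP p hp).1.two_le
      have h3 := Real.add_one_le_exp (-(1/(p:ℝ))/2)
      have h4 : (1/(p:ℝ))/2 ≤ ((p:ℝ)-1)/(p^2) := by
        rw [div_div, div_le_div_iff₀ (by positivity) (by positivity)]
        nlinarith
      linarith
  refine h2.trans_lt ?_
  rw [← Real.exp_sum]
  refine lt_of_le_of_lt (Real.exp_le_exp.mpr ?_) hC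
  rw [← sum_div, sum_neg_distrib]
  linarith

lemma design_lt {v k l : ℕ} (hk : 0 < k) (h : SymmetricDesignExists v k l) :
    l < k ∧ l * (v - 1) = k * (k - 1) := by
  have h1 := count_identity h
  have hv := h.1
  obtain ⟨v', rfl⟩ : ∃ v', v = v' + 1 := ⟨v - 1, by omega⟩
  obtain ⟨k', rfl⟩ : ∃ k', k = k' + 1 := ⟨k - 1, by omega⟩
  have h2 : ((l * v' : ℕ) : ℚ) = (((k'+1) * k' : ℕ) : ℚ) := by
    push_cast at h1 ⊢
    linear_combination -h1
  have h3 : l * v' = (k'+1) * k' := Nat.cast_injective h2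
  refine ⟨?_, by simpa using h3⟩
  by_contra hcon
  push Not at hcon
  have h4 : (k'+1) * (k'+1) ≤ l * v' := Nat.mul_le_mul hcon (by omega)
  rw [h3] at h4
  nlinarith

lemma card_squares (l K : ℕ) :
    ((range (K+1)).filter (fun k => l < k ∧ IsSquare (k - l))).card ≤ Nat.sqrt K + 1 := by
  have : ((range (K+1)).filter (fun k => l < k ∧ IsSquare (k - l))).card ≤
      (range (Nat.sqrt K + 1)).card := by
    refine card_le_card_of_injOn (fun k => Nat.sqrt (k - l)) ?_ ?_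
    · intro k hk
      rw [mem_coe, mem_filter, mem_range] at hk
      rw [mem_coe, mem_range]
      have : Nat.sqrt (k - l) ≤ Nat.sqrt K := Nat.sqrt_le_sqrt (by omega)
      simp only; omega
    · intro k hk k' hk' h
      rw [mem_coe, mem_filter, mem_range] at hk hk'
      obtain ⟨s, hs⟩ := hk.2.2
      obtain ⟨s', hs'⟩ := hk'.2.2
      simp only [hs, hs', Nat.sqrt_eq] at h
      rw [h] at hs
      have := hk.2.1
      have := hk'.2.1
      omega
  simpa using this

/-- counting bound -/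
lemma designSizes_bound (l K : ℕ) (P₁ P₂ : Finset ℕ)
    (h1 : ¬ IsSquare l → ∀ p ∈ P₁, p.Prime ∧ ¬ IsSquare ((l:ℤ) : ZMod p))
    (_h1' : IsSquare l → P₁ = ∅)
    (h2 : ∀ p ∈ P₂, p.Prime ∧ ¬ IsSquare ((-(l:ℤ) : ℤ) : ZMod p)) :
    ((designSizes l K).ncard : ℝ) ≤ (Nat.sqrt K + 1) +
      (if IsSquare l then 0 else ((K + 1 : ℕ) + Qsq P₁) * delta0 P₁) +
      ((K + 1 : ℕ) + Qsq P₂) * delta0 P₂ := by
  set A := (range (K+1)).filter (fun k => l < k ∧ IsSquare (k - l)) with hA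
  set B₁ := ((range (K+1)).filter (fun z => ∀ p ∈ P₁, ¬ (p ∣ z ∧ ¬ p^2 ∣ z))).image
    (fun z => z + l) with hB1
  set B₂ := ((range (K+1)).filter (fun z => ∀ p ∈ P₂, ¬ (p ∣ z ∧ ¬ p^2 ∣ z))).image
    (fun z => z + l) with hB2
  have hsub : designSizes l K ⊆
      ↑(A ∪ (if IsSquare l then ∅ else B₁) ∪ B₂ : Finset ℕ) := by
    rintro k ⟨hk0, hkK, v, hd, hcond⟩
    obtain ⟨hlk, -⟩ := design_lt hk0 hd
    rw [mem_coe, mem_union, mem_union]
    have key : ∀ p : ℕ, p.Prime → p ∣ k - l → ¬ p^2 ∣ k - l →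
        v % 2 = 1 ∧ IsSquare ((((-1)^((v-1)/2) * (l:ℤ) : ℤ)) : ZMod p) := by
      intro p hp hp1 hp2
      have : Fact p.Prime := ⟨hp⟩
      exact brc_local hd hlk p hp1 hp2
    rcases Nat.lt_or_ge 0 (v % 2) with hv | hv
    swap
    · left; left
      rw [hA, mem_filter, mem_range]
      exact ⟨by omega, hlk, brc_even hd hlk (by omega)⟩
    · have h4 : v % 4 = 1 ∨ v % 4 = 3 := by omega
      rcases h4 with h4 | h4
      · rcases hcond with hc | hc
        swap
        · exact absurd h4 hc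
        · left; right
          rw [if_neg hc, hB1, mem_image]
          refine ⟨k - l, ?_, by omega⟩
          rw [mem_filter, mem_range]
          refine ⟨by omega, ?_⟩
          rintro p hp ⟨hp1, hp2⟩
          obtain ⟨-, h5⟩ := key p (h1 hc p hp).1 hp1 hp2
          have he : Even ((v-1)/2) := by
            rw [Nat.even_iff]; omega
          rw [he.neg_one_pow, one_mul] at h5
          exact (h1 hc p hp).2 h5
      · right
        rw [hB2, mem_image]
        refine ⟨k - l, ?_, by omega⟩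
        rw [mem_filter, mem_range]
        refine ⟨by omega, ?_⟩
        rintro p hp ⟨hp1, hp2⟩
        obtain ⟨-, h5⟩ := key p (h2 p hp).1 hp1 hp2
        have he : Odd ((v-1)/2) := by
          rw [Nat.odd_iff]; omega
        rw [he.neg_one_pow, neg_one_mul] at h5
        exact (h2 p hp).2 h5
  have hc1 : (designSizes l K).ncard ≤
      (A ∪ (if IsSquare l then ∅ else B₁) ∪ B₂ : Finset ℕ).card := by
    rw [← Set.ncard_coe_finset]
    exact Set.ncard_le_ncard hsub (Finset.finite_toSet _)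
  have hc2 := card_union_le (A ∪ (if IsSquare l then ∅ else B₁)) B₂
  have hc3 := card_union_le A (if IsSquare l then ∅ else B₁)
  have hc4 : A.card ≤ Nat.sqrt K + 1 := card_squares l K
  have hc5 : (B₂.card : ℝ) ≤ ((K + 1 : ℕ) + Qsq P₂) * delta0 P₂ := by
    refine le_trans ?_ (count_not_exactly P₂ (fun p hp => (h2 p hp).1) (K+1))
    exact_mod_cast card_image_le
  have hc6 : (((if IsSquare l then ∅ else B₁ : Finset ℕ)).card : ℝ) ≤
      (if IsSquare l then 0 else ((K + 1 : ℕ) + Qsq P₁) * delta0 P₁) := by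
    split_ifs with hl
    · simp
    · refine le_trans ?_ (count_not_exactly P₁ (fun p hp => (h1 hl p hp).1) (K+1))
      exact_mod_cast card_image_le
  have hc7 : ((designSizes l K).ncard : ℝ) ≤ A.card +
      ((if IsSquare l then ∅ else B₁ : Finset ℕ)).card + B₂.card := by
    exact_mod_cast hc1.trans (hc2.trans (Nat.add_le_add_right hc3 _))
  have hc8 : (A.card : ℝ) ≤ Nat.sqrt K + 1 := by exact_mod_cast hc4
  linarith

lemma admissibleSizes_finite (l K : ℕ) : (admissibleSizes l K).Finite :=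
  (Set.finite_Iic K).subset fun _ hk => hk.2.1

lemma admissibleSizes_lower (l : ℕ) (hl : 0 < l) (K : ℕ) :
    (K:ℝ)/l - 2 ≤ (admissibleSizes l K).ncard := by
  have h1 : (Icc 2 (K/l)).card ≤ (admissibleSizes l K).ncard := by
    rw [← Set.ncard_coe_finset]
    refine Set.ncard_le_ncard_of_injOn (fun j => l * j) ?_ ?_ (admissibleSizes_finite l K)
    · intro j hj
      rw [mem_coe, mem_Icc] at hj
      refine ⟨?_, ?_, ?_⟩
      · nlinarith [hj.1]
      · have := (Nat.le_div_iff_mul_le hl).mp hj.2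
        rw [mul_comm]; exact this
      · exact Dvd.dvd.mul_right (Dvd.intro j rfl) _
    · intro j _ j' _ h
      exact Nat.eq_of_mul_eq_mul_left hl h
  rw [Nat.card_Icc] at h1
  have h2 : (K:ℝ)/l < (K/l : ℕ) + 1 := by
    have := Nat.lt_floor_add_one ((K:ℝ)/l)
    rwa [Nat.floor_div_eq_div] at this
  have h3 : ((K/l : ℕ) : ℝ) ≤ (admissibleSizes l K).ncard + 1 := by
    have : K/l ≤ (admissibleSizes l K).ncard + 1 := by omega
    exact_mod_cast this
  linarith

theorem fixed_lambda (l : ℕ) (hl : 0 < l) :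
    (∀ K, (admissibleSizes l K).Finite) ∧ (∀ K, designSizes l K ⊆ admissibleSizes l K) ∧
    Tendsto (fun K : ℕ => ((designSizes l K).ncard : ℝ) / ((admissibleSizes l K).ncard : ℝ))
      atTop (𝓝 0) := by
  refine ⟨admissibleSizes_finite l, fun K k hk => ?_, ?_⟩
  · obtain ⟨hk0, hkK, v, hd, -⟩ := hk
    obtain ⟨h1, h2⟩ := design_lt hk0 hd
    exact ⟨h1, hkK, ⟨v - 1, h2.symm⟩⟩
  · rw [Metric.tendsto_nhds]
    intro ε hε
    have hl' : (0:ℝ) < l := by exact_mod_cast hl
    set η := ε / (8 * l) with hη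
    have hη0 : 0 < η := by positivity
    obtain ⟨P₂, hP₂, hδ₂⟩ := delta0_small (-(l:ℤ)) (by
      rintro ⟨r, hr⟩
      have : (0:ℤ) ≤ r * r := mul_self_nonneg r
      have : (0:ℤ) < l := by exact_mod_cast hl
      omega) η hη0
    obtain ⟨P₁, h1, h1', hδ₁⟩ : ∃ P₁ : Finset ℕ,
        (¬ IsSquare l → ∀ p ∈ P₁, p.Prime ∧ ¬ IsSquare ((l:ℤ) : ZMod p)) ∧
        (IsSquare l → P₁ = ∅) ∧ (¬ IsSquare l → delta0 P₁ < η) := by
      by_cases hsq : IsSquare l
      · exact ⟨∅, fun h => absurd hsq h, fun _ => rfl, fun h => absurd hsq h⟩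
      · obtain ⟨P, hP, hδ⟩ := delta0_small (l:ℤ) (by
          intro h; exact hsq (Int.isSquare_natCast_iff.mp h)) η hη0
        exact ⟨P, fun _ => hP, fun h => absurd h hsq, fun _ => hδ⟩
    set W : ℝ := 2 + (1 + Qsq P₁) * |delta0 P₁| + (1 + Qsq P₂) * |delta0 P₂| with hW
    have hsqrt : Tendsto (fun K : ℕ => Real.sqrt (K:ℝ)) atTop atTop :=
      Real.tendsto_sqrt_atTop.comp tendsto_natCast_atTop_atTop
    filter_upwards [hsqrt.eventually_gt_atTop (8 * l / ε + 1), eventually_gt_atTop 0,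
      tendsto_natCast_atTop_atTop.eventually_gt_atTop (8 * l * W / ε : ℝ),
      tendsto_natCast_atTop_atTop.eventually_gt_atTop (4 * l : ℝ)] with K hK1 hK2 hK3 hK4
    have hK0 : (0:ℝ) < K := by exact_mod_cast hK2
    have hb := designSizes_bound l K P₁ P₂ h1 h1' hP₂
    have ha := admissibleSizes_lower l hl K
    have ha' : (K:ℝ)/(2*l) ≤ (admissibleSizes l K).ncard := by
      have : (2:ℝ) ≤ (K:ℝ)/(2*l) := by
        rw [le_div_iff₀ (by positivity)]; linarith
      have h5 : (K:ℝ)/l = (K:ℝ)/(2*l) + (K:ℝ)/(2*l) := by field_simp; ring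
      linarith
    have hA0 : (0:ℝ) < (admissibleSizes l K).ncard := lt_of_lt_of_le (by positivity) ha'
    rw [Real.dist_eq, sub_zero, abs_of_nonneg (by positivity), div_lt_iff₀ hA0]
    have hs1 : ((Nat.sqrt K : ℕ) : ℝ) ≤ Real.sqrt K := Real.nat_sqrt_le_real_sqrt
    have hs2 : Real.sqrt K * Real.sqrt K = K := Real.mul_self_sqrt hK0.le
    have hs3 : Real.sqrt K ≤ ε / (8 * l) * K := by
      have h6 : 8 * l / ε * Real.sqrt K ≤ K := by
        nlinarith [Real.sqrt_nonneg (K:ℝ)]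
      have h7 : ε / (8 * l) * (8 * l / ε * Real.sqrt K) ≤ ε / (8 * l) * K :=
        mul_le_mul_of_nonneg_left h6 (by positivity)
      have h8 : ε / (8 * l) * (8 * l / ε * Real.sqrt K) = Real.sqrt K := by
        field_simp
      linarith
    have hW1 : W < ε / (8 * l) * K := by
      have h6 : 8 * l * W / ε < K := hK3
      rw [div_lt_iff₀ hε] at h6
      rw [div_mul_eq_mul_div, lt_div_iff₀ (by positivity)]
      linarith
    have hd1 : (if IsSquare l then 0 else ((K + 1 : ℕ) + Qsq P₁) * delta0 P₁) ≤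
        η * K + (1 + Qsq P₁) * |delta0 P₁| := by
      split_ifs with hsq
      · positivity
      · push_cast
        have h5 := hδ₁ hsq
        have h6 : ((K:ℝ) + 1 + Qsq P₁) * delta0 P₁ =
          K * delta0 P₁ + (1 + Qsq P₁) * delta0 P₁ := by ring
        rw [h6]
        have h7 : (K:ℝ) * delta0 P₁ ≤ K * η := mul_le_mul_of_nonneg_left h5.le hK0.le
        have h8 : (1 + (Qsq P₁:ℝ)) * delta0 P₁ ≤ (1 + Qsq P₁) * |delta0 P₁| :=
          mul_le_mul_of_nonneg_left (le_abs_self _) (by positivity)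
        linarith
    have hd2 : (((K + 1 : ℕ) : ℝ) + Qsq P₂) * delta0 P₂ ≤
        η * K + (1 + Qsq P₂) * |delta0 P₂| := by
      push_cast
      have h6 : ((K:ℝ) + 1 + Qsq P₂) * delta0 P₂ =
        K * delta0 P₂ + (1 + Qsq P₂) * delta0 P₂ := by ring
      rw [h6]
      have h7 : (K:ℝ) * delta0 P₂ ≤ K * η := mul_le_mul_of_nonneg_left hδ₂.le hK0.le
      have h8 : (1 + (Qsq P₂:ℝ)) * delta0 P₂ ≤ (1 + Qsq P₂) * |delta0 P₂| :=
        mul_le_mul_of_nonneg_left (le_abs_self _) (by positivity)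
      linarith
    have hfin : ((designSizes l K).ncard : ℝ) < 4 * (ε / (8*l) * K) := by
      have e1 : η * K = ε / (8*l) * K := by rw [hη]
      have : W = 2 + (1 + Qsq P₁) * |delta0 P₁| + (1 + Qsq P₂) * |delta0 P₂| := hW
      linarith
    have e2 : 4 * (ε / (8*l) * K) = ε * ((K:ℝ)/(2*l)) := by field_simp; ring
    rw [e2] at hfin
    exact hfin.trans_le (mul_le_mul_of_nonneg_left ha' hε.le)

end Pool.Agent.H12
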