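import Mathlib
import Pool.Agent.H12.Upper

/-!
Lower bound for the number of admissible triples, and the density `delta` can be made small.
-/

namespace Pool.Agent.H12

open Finset Classical

lemma exists_triple {N a b : ℕ} (ha : 2 ≤ a) (hb : 2 ≤ b) (hab : Nat.Coprime a b)
    (hN : a * b ≤ N) : ∃ t ∈ Adm (N+1), aOf t = a ∧ bOf t = b := by
  obtain ⟨k, hk1, hk2⟩ := Nat.chineseRemainder hab 0 1
  -- reduce mod a*b
  set k' := k % (a*b) with hk'
  have hab0 : 0 < a * b := by positivity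
  have hlt : k' < a * b := Nat.mod_lt _ hab0
  have e1 : k' ≡ 0 [MOD a] := ((Nat.mod_modEq k (a*b)).of_dvd ⟨b, rfl⟩).trans hk1
  have e2 : k' ≡ 1 [MOD b] := ((Nat.mod_modEq k (a*b)).of_dvd ⟨a, by ring⟩).trans hk2
  have hk0 : 0 < k' := by
    rcases Nat.eq_zero_or_pos k' with h | h
    · rw [h] at e2
      have : (0:ℕ) % b = 1 % b := e2
      rw [Nat.zero_mod, Nat.mod_eq_of_lt (by omega)] at this
      omega
    · exact h
  have hak : a ∣ k' := (Nat.modEq_zero_iff_dvd).mp e1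
  have hbk : b ∣ k' - 1 := (Nat.modEq_iff_dvd' hk0).mp e2.symm
  obtain ⟨x, hx⟩ := hak
  obtain ⟨y, hy⟩ := hbk
  have hx0 : 0 < x := Nat.pos_of_ne_zero (by rintro rfl; simp at hx; omega)
  have hk2' : 2 ≤ k' := by
    rw [hx]; nlinarith
  have hy0 : 0 < y := Nat.pos_of_ne_zero (by rintro rfl; simp at hy; omega)
  have hA : Admissible (a*b+1) k' (x*y) := by
    refine ⟨hk0, by positivity, by omega, ?_⟩
    rw [hy]
    nth_rewrite 1 [hx]
    rw [Nat.add_sub_cancel]; ring
  refine ⟨(a*b+1, k', x*y), mem_Adm.mpr ⟨by simpa using hN, hA⟩, ?_, ?_⟩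
  · unfold aOf
    simp only [Nat.add_sub_cancel]
    rw [hx, Nat.gcd_mul_left]
    have : Nat.Coprime x b := by
      have h1 : Nat.gcd x b ∣ 1 := by
        have h2 : Nat.gcd x b ∣ k' := by
          rw [hx]; exact Dvd.dvd.mul_left (Nat.gcd_dvd_left x b) a
        have h3 : Nat.gcd x b ∣ k' - 1 := by
          rw [hy]; exact Dvd.dvd.mul_right (Nat.gcd_dvd_right x b) y
        have h4 : k' = (k' - 1) + 1 := by omega
        rw [h4] at h2
        exact (Nat.dvd_add_right h3).mp h2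
      exact Nat.dvd_one.mp h1
    rw [this, mul_one]
  · unfold bOf
    simp only [Nat.add_sub_cancel]
    rw [hy, mul_comm a b, Nat.gcd_mul_left]
    have : Nat.Coprime y a := by
      have h1 : Nat.gcd y a ∣ 1 := by
        have h2 : Nat.gcd y a ∣ k' := by
          rw [hx]; exact Dvd.dvd.mul_right (Nat.gcd_dvd_right y a) x
        have h3 : Nat.gcd y a ∣ k' - 1 := by
          rw [hy]; exact Dvd.dvd.mul_left (Nat.gcd_dvd_left y a) b
        have h4 : k' = (k' - 1) + 1 := by omega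
        rw [h4] at h2
        exact (Nat.dvd_add_right h3).mp h2
      exact Nat.dvd_one.mp h1
    rw [this, mul_one]

/-- pairs with product at most `N` -/
def Dset (N : ℕ) : Finset (Σ _ : ℕ, ℕ) := (Icc 1 N).sigma (fun a => Icc 1 (N/a))

lemma mem_Dset {N : ℕ} {x : Σ _ : ℕ, ℕ} :
    x ∈ Dset N ↔ 1 ≤ x.1 ∧ 1 ≤ x.2 ∧ x.1 * x.2 ≤ N := by
  unfold Dset
  rw [mem_sigma, mem_Icc, mem_Icc]
  constructor
  · rintro ⟨⟨h1, h2⟩, h3, h4⟩
    refine ⟨h1, h3, ?_⟩
    rw [Nat.le_div_iff_mul_le (by omega)] at h4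
    rw [mul_comm]; exact h4
  · rintro ⟨h1, h3, h4⟩
    refine ⟨⟨h1, ?_⟩, h3, ?_⟩
    · nlinarith
    · rw [Nat.le_div_iff_mul_le (by omega), mul_comm]; exact h4

lemma card_Dset (N : ℕ) : (Dset N).card = ∑ a ∈ Icc 1 N, N / a := by
  unfold Dset
  rw [card_sigma]
  refine sum_congr rfl fun a _ => ?_
  rw [Nat.card_Icc, Nat.add_sub_cancel]

lemma harm_eq (N : ℕ) : ∑ a ∈ Icc 1 N, (1:ℝ)/a = (harmonic N : ℚ) := by
  rw [harmonic_eq_sum_Icc]
  push_cast
  simp

lemma card_Dset_lower (N : ℕ) (hN : 1 ≤ N) :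
    (N:ℝ) * Real.log N - N ≤ (Dset N).card := by
  rw [card_Dset]
  push_cast
  have h1 : ∀ a ∈ Icc 1 N, (N:ℝ) * (1/a) - 1 ≤ ((N / a : ℕ) : ℝ) := by
    intro a ha
    rw [mem_Icc] at ha
    have ha0 : (0:ℝ) < a := by
      have : 0 < a := by omega
      exact_mod_cast this
    have h2 := Nat.lt_floor_add_one ((N:ℝ)/a)
    rw [Nat.floor_div_eq_div] at h2
    rw [mul_one_div]
    linarith
  refine le_trans ?_ (sum_le_sum h1)
  rw [sum_sub_distrib, ← mul_sum, sum_const, Nat.card_Icc, harm_eq]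
  have h3 := log_add_one_le_harmonic N
  have h4 : Real.log N ≤ Real.log ((N+1 : ℕ) : ℝ) := Real.log_le_log (by
    have : 0 < N := by omega
    exact_mod_cast this) (by push_cast; linarith)
  have h5 : (N:ℝ) * Real.log N ≤ N * ((harmonic N : ℚ) : ℝ) :=
    mul_le_mul_of_nonneg_left (h4.trans h3) (by positivity)
  simp only [Nat.add_sub_cancel, nsmul_eq_mul, mul_one]
  linarith

lemma card_Dset_upper (M N : ℕ) (hMN : M ≤ N) :
    ((Dset M).card : ℝ) ≤ M * (1 + Real.log N) := by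
  rcases Nat.eq_zero_or_pos M with h0 | h0
  · subst h0; simp [Dset]
  rw [card_Dset]
  push_cast
  have h1 : ∀ a ∈ Icc 1 M, ((M / a : ℕ) : ℝ) ≤ (M:ℝ) * (1/a) := by
    intro a _
    rw [mul_one_div]
    exact Nat.cast_div_le
  refine (sum_le_sum h1).trans ?_
  rw [← mul_sum, harm_eq]
  refine mul_le_mul_of_nonneg_left ?_ (by positivity)
  have h2 := harmonic_le_one_add_log M
  have h3 : Real.log M ≤ Real.log N := Real.log_le_log (by exact_mod_cast h0) (by exact_mod_cast hMN)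
  linarith

lemma sum_inv_sq_Icc' (s : ℕ) : ∑ a ∈ Icc 2 s, (1:ℝ)/(a:ℝ)^2 ≤ 3/4 := by
  rcases Nat.lt_or_ge s 2 with h | h
  · rw [Icc_eq_empty (by omega)]; norm_num
  have key : ∀ s : ℕ, 2 ≤ s → ∑ a ∈ Icc 2 s, (1:ℝ)/(a:ℝ)^2 ≤ 3/4 - 1/s := by
    intro s hs
    induction s, hs using Nat.le_induction with
    | base => simp; norm_num
    | succ n hn ih =>
      rw [← Finset.insert_Icc_right_eq_Icc_add_one (by omega), sum_insert (by simp)]
      have hn' : (0:ℝ) < n := by positivity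
      have e : (1:ℝ)/((n+1 : ℕ):ℝ)^2 ≤ 1/n - 1/((n+1:ℕ):ℝ) := by
        push_cast
        rw [div_sub_div _ _ (by positivity) (by positivity), div_le_div_iff₀ (by positivity)
          (by positivity)]
        nlinarith
      linarith
  have := key s h
  have h2 : (0:ℝ) ≤ 1 / s := by positivity
  linarith

theorem lower_bound (N : ℕ) (hN : 1 ≤ N) :
    (1/4) * ((N:ℝ) * Real.log N) - 4 * N ≤ (Adm (N+1)).card := by
  set CP := (Dset N).filter (fun x => Nat.Coprime x.1 x.2 ∧ 2 ≤ x.1 ∧ 2 ≤ x.2) with hCP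
  set D1 := (Dset N).filter (fun x => x.1 = 1) with hD1
  set D2 := (Dset N).filter (fun x => x.2 = 1) with hD2
  set D3 := (Icc 2 N).biUnion (fun d => (Dset N).filter (fun x => d ∣ x.1 ∧ d ∣ x.2)) with hD3
  have hsub : Dset N ⊆ (CP ∪ D1) ∪ (D2 ∪ D3) := by
    intro x hx
    have hx' := mem_Dset.mp hx
    simp only [mem_union]
    by_cases h1 : x.1 = 1
    · left; right; rw [hD1, mem_filter]; exact ⟨hx, h1⟩
    by_cases h2 : x.2 = 1
    · right; left; rw [hD2, mem_filter]; exact ⟨hx, h2⟩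
    by_cases h3 : Nat.Coprime x.1 x.2
    · left; left; rw [hCP, mem_filter]; exact ⟨hx, h3, by omega, by omega⟩
    · right; right
      rw [hD3, mem_biUnion]
      refine ⟨Nat.gcd x.1 x.2, ?_, ?_⟩
      · rw [mem_Icc]
        have h4 : Nat.gcd x.1 x.2 ≠ 1 := h3
        have h5 : 0 < Nat.gcd x.1 x.2 := Nat.gcd_pos_of_pos_left _ (by omega)
        have h6 : Nat.gcd x.1 x.2 ≤ x.1 := Nat.gcd_le_left _ (by omega)
        have h7 : x.1 ≤ x.1 * x.2 := Nat.le_mul_of_pos_right _ (by omega)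
        exact ⟨by omega, by omega⟩
      · rw [mem_filter]
        exact ⟨hx, Nat.gcd_dvd_left _ _, Nat.gcd_dvd_right _ _⟩
  have c0 : CP.card ≤ (Adm (N+1)).card := by
    have h1 : CP ⊆ (Adm (N+1)).image (fun t => (⟨aOf t, bOf t⟩ : Σ _ : ℕ, ℕ)) := by
      intro x hx
      rw [hCP, mem_filter] at hx
      have hx' := mem_Dset.mp hx.1
      obtain ⟨t, ht, h2, h3⟩ := exists_triple hx.2.2.1 hx.2.2.2 hx.2.1 hx'.2.2
      rw [mem_image]
      exact ⟨t, ht, by rw [h2, h3]⟩
    exact (card_le_card h1).trans card_image_le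
  have c1 : D1.card ≤ N := by
    have : D1.card ≤ (Icc 1 N).card := by
      refine card_le_card_of_injOn (fun x => x.2) ?_ ?_
      · intro x hx
        rw [hD1, mem_coe, mem_filter] at hx
        have := mem_Dset.mp hx.1
        rw [hx.2] at this
        simp only [coe_Icc, Set.mem_Icc]
        omega
      · intro x hx y hy h
        rw [hD1, mem_coe, mem_filter] at hx hy
        exact Sigma.ext (hx.2.trans hy.2.symm) (heq_of_eq h)
    simpa using this
  have c2 : D2.card ≤ N := by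
    have : D2.card ≤ (Icc 1 N).card := by
      refine card_le_card_of_injOn (fun x => x.1) ?_ ?_
      · intro x hx
        rw [hD2, mem_coe, mem_filter] at hx
        have := mem_Dset.mp hx.1
        rw [hx.2] at this
        simp only [coe_Icc, Set.mem_Icc]
        omega
      · intro x hx y hy h
        rw [hD2, mem_coe, mem_filter] at hx hy
        exact Sigma.ext h (heq_of_eq (hx.2.trans hy.2.symm))
    simpa using this
  have c3 : (D3.card : ℝ) ≤ (3/4) * (N * (1 + Real.log N)) := by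
    have h1 : D3.card ≤ ∑ d ∈ Icc 2 N, (Dset (N/d^2)).card := by
      refine card_biUnion_le.trans (sum_le_sum fun d hd => ?_)
      rw [mem_Icc] at hd
      refine card_le_card_of_injOn (fun x => (⟨x.1/d, x.2/d⟩ : Σ _ : ℕ, ℕ)) ?_ ?_
      · intro x hx
        rw [mem_coe, mem_filter] at hx
        obtain ⟨hx, ⟨u, hu⟩, ⟨w, hw⟩⟩ := hx
        have hx' := mem_Dset.mp hx
        rw [mem_coe, mem_Dset]
        simp only
        have hd0 : 0 < d := by omega
        rw [hu, hw, Nat.mul_div_cancel_left _ hd0, Nat.mul_div_cancel_left _ hd0]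
        rw [hu, hw] at hx'
        refine ⟨?_, ?_, ?_⟩
        · rcases Nat.eq_zero_or_pos u with h | h
          · rw [h] at hx'; simp at hx'
          · exact h
        · rcases Nat.eq_zero_or_pos w with h | h
          · rw [h] at hx'; simp at hx'
          · exact h
        · rw [Nat.le_div_iff_mul_le (by positivity)]
          calc u * w * d^2 = d * u * (d * w) := by ring
            _ ≤ N := hx'.2.2
      · intro x hx y hy h
        rw [mem_coe, mem_filter] at hx hy
        simp only [Sigma.mk.injEq, heq_eq_eq] at h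
        refine Sigma.ext ?_ (heq_of_eq ?_)
        · rw [← Nat.div_mul_cancel hx.2.1, ← Nat.div_mul_cancel hy.2.1, h.1]
        · rw [← Nat.div_mul_cancel hx.2.2, ← Nat.div_mul_cancel hy.2.2, h.2]
    have h2 : (D3.card : ℝ) ≤ ∑ d ∈ Icc 2 N, ((Dset (N/d^2)).card : ℝ) := by exact_mod_cast h1
    refine h2.trans ?_
    have hlog : (0:ℝ) ≤ 1 + Real.log N := by
      have : (0:ℝ) ≤ Real.log N := Real.log_natCast_nonneg N
      linarith
    have h3 : ∀ d ∈ Icc 2 N, ((Dset (N/d^2)).card : ℝ) ≤ (1/(d:ℝ)^2) * (N * (1 + Real.log N)) := by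
      intro d _
      refine (card_Dset_upper (N/d^2) N (Nat.div_le_self _ _)).trans ?_
      have h4 : ((N/d^2 : ℕ) : ℝ) ≤ (N:ℝ) / ((d^2 : ℕ) : ℝ) := Nat.cast_div_le
      push_cast at h4
      calc ((N/d^2 : ℕ) : ℝ) * (1 + Real.log N) ≤ (N:ℝ)/(d:ℝ)^2 * (1 + Real.log N) :=
            mul_le_mul_of_nonneg_right h4 hlog
        _ = _ := by ring
    refine (sum_le_sum h3).trans ?_
    rw [← sum_mul]
    exact mul_le_mul_of_nonneg_right (sum_inv_sq_Icc' N) (by positivity)
  have h1 := card_le_card hsub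
  have h2 := card_union_le (CP ∪ D1) (D2 ∪ D3)
  have h3 := card_union_le CP D1
  have h4 := card_union_le D2 D3
  have h5 : (Dset N).card ≤ (Adm (N+1)).card + N + N + D3.card := by omega
  have h6 : ((Dset N).card : ℝ) ≤ (Adm (N+1)).card + N + N + D3.card := by exact_mod_cast h5
  have h7 := card_Dset_lower N hN
  have h8 : (3/4) * ((N:ℝ) * (1 + Real.log N)) = (3/4) * N + (3/4) * (N * Real.log N) := by ring
  linarith

lemma delta_small (ε : ℝ) (hε : 0 < ε) : ∃ P : Finset ℕ, (∀ p ∈ P, p.Prime) ∧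
    (∀ p ∈ P, p ≠ 2) ∧ delta P < ε := by
  -- partial sums of 1/p are unbounded
  obtain ⟨C, hC⟩ : ∃ C : ℝ, Real.exp (-C/6) < ε := by
    obtain ⟨x, hx⟩ := (Real.tendsto_exp_atBot.eventually (gt_mem_nhds hε)).exists
    exact ⟨-6*x, by rw [show -(-6*x)/6 = x by ring]; exact hx⟩
  have h1 : ∃ u : Finset Nat.Primes, C + 1/2 < ∑ p ∈ u, (1/(p:ℝ)) := by
    by_contra hcon
    push Not at hcon
    exact Nat.Primes.not_summable_one_div (summable_of_sum_le (fun p => by positivity) hcon)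
  obtain ⟨u, hu⟩ := h1
  set P := (u.image (fun p : Nat.Primes => (p:ℕ))).erase 2 with hP
  have hprime : ∀ p ∈ P, p.Prime := by
    intro p hp
    rw [hP, mem_erase, mem_image] at hp
    obtain ⟨-, q, -, rfl⟩ := hp
    exact q.2
  have hsum : C ≤ ∑ p ∈ P, (1/(p:ℝ)) := by
    have e1 : ∑ p ∈ u, (1/(p:ℝ)) = ∑ p ∈ u.image (fun p : Nat.Primes => (p:ℕ)), (1/(p:ℝ)) := by
      rw [sum_image]
      intro p _ q _ h
      exact Subtype.ext h
    rw [e1] at hu
    have e2 : ∑ p ∈ u.image (fun p : Nat.Primes => (p:ℕ)), (1/(p:ℝ)) ≤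
        ∑ p ∈ P, (1/(p:ℝ)) + 1/2 := by
      by_cases h2 : 2 ∈ u.image (fun p : Nat.Primes => (p:ℕ))
      · rw [hP, ← sum_erase_add _ _ h2]
        norm_num
      · rw [hP, erase_eq_of_notMem h2]
        linarith
    linarith
  refine ⟨P, hprime, fun p hp => (mem_erase.mp hp).1, ?_⟩
  have h2 : delta P ≤ ∏ p ∈ P, Real.exp (-(1/(p:ℝ))/6) := by
    unfold delta
    refine prod_le_prod (fun p hp => ?_) (fun p hp => ?_)
    · have h1 : (1:ℝ) ≤ p := by exact_mod_cast (hprime p hp).one_lt.le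
      have : ((p:ℝ)-1)/(3*p^2) ≤ 1 := by
        rw [div_le_one (by positivity)]; nlinarith
      linarith
    · have h1 : (2:ℝ) ≤ p := by exact_mod_cast (hprime p hp).two_le
      have h3 := Real.add_one_le_exp (-(1/(p:ℝ))/6)
      have h4 : (1/(p:ℝ))/6 ≤ ((p:ℝ)-1)/(3*p^2) := by
        rw [div_div, div_le_div_iff₀ (by positivity) (by positivity)]
        nlinarith
      linarith
  refine h2.trans_lt ?_
  rw [← Real.exp_sum]
  refine lt_of_le_of_lt (Real.exp_le_exp.mpr ?_) hC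
  rw [← sum_div, sum_neg_distrib]
  linarith

end Pool.Agent.H12
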