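import Mathlib
import Pool.Agent.H12.Lower

/-!
Almost no admissible parameter triple is realised by a symmetric design.
-/

namespace Pool.Agent.H12

open Filter Topology Finset Classical

lemma adm_eq (X : ℕ) : admissibleTriples X = ↑(Adm X) := by
  ext t
  rw [Finset.mem_coe, mem_Adm]
  unfold admissibleTriples Admissible
  constructor
  · rintro ⟨h1, h2, h3, h4, h5⟩; exact ⟨h4, h1, h2, h3, h5⟩
  · rintro ⟨h4, h1, h2, h3, h5⟩; exact ⟨h1, h2, h3, h4, h5⟩

lemma count_nat {v k l : ℕ} (hk : 0 < k) (h : SymmetricDesignExists v k l) :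
    l * (v - 1) = k * (k - 1) := by
  have h1 := count_identity h
  have hv := h.1
  obtain ⟨v', rfl⟩ : ∃ v', v = v' + 1 := ⟨v - 1, by omega⟩
  obtain ⟨k', rfl⟩ : ∃ k', k = k' + 1 := ⟨k - 1, by omega⟩
  have h2 : ((l * v' : ℕ) : ℚ) = (((k'+1) * k' : ℕ) : ℚ) := by
    push_cast at h1 ⊢
    linear_combination -h1
  simpa using (Nat.cast_injective h2)

lemma des_eq (X : ℕ) : designTriples X = ↑(Rea X) := by
  ext t
  rw [Finset.mem_coe]
  unfold Rea
  rw [Finset.mem_filter, mem_Adm]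
  unfold designTriples Admissible
  constructor
  · rintro ⟨h1, h2, h3, h4, h5⟩; exact ⟨⟨h4, h1, h2, h3, count_nat h1 h5⟩, h5⟩
  · rintro ⟨⟨h4, h1, h2, h3, -⟩, h5⟩; exact ⟨h1, h2, h3, h4, h5⟩

lemma adm_lower : ∀ᶠ X : ℕ in atTop, (1/16) * ((X:ℝ) * Real.log X) ≤ (Adm X).card := by
  have hlog : Tendsto (fun X : ℕ => Real.log (X:ℝ)) atTop atTop :=
    Real.tendsto_log_atTop.comp tendsto_natCast_atTop_atTop
  filter_upwards [hlog.eventually_ge_atTop 66, eventually_ge_atTop 2] with X h1 h2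
  obtain ⟨N, rfl⟩ : ∃ N, X = N + 1 := ⟨X - 1, by omega⟩
  have hN : 1 ≤ N := by omega
  have h3 := lower_bound N hN
  refine le_trans ?_ h3
  have hN' : (1:ℝ) ≤ N := by exact_mod_cast hN
  have h4 : ((N+1 : ℕ) : ℝ) ≤ 2 * N := by push_cast; linarith
  have h5 : Real.log ((N+1 : ℕ) : ℝ) ≤ Real.log 2 + Real.log N := by
    rw [← Real.log_mul (by norm_num) (by positivity)]
    exact Real.log_le_log (by positivity) h4
  have h6 : Real.log 2 ≤ 1 := by
    have := Real.log_two_lt_d9; linarith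
  have h7 : Real.log ((N+1 : ℕ) : ℝ) - 1 ≤ Real.log N := by linarith
  set L := Real.log ((N+1 : ℕ) : ℝ) with hL
  have h8 : (1/16) * (((N+1 : ℕ) : ℝ) * L) ≤ (1/16) * ((2 * N) * L) := by
    have : (0:ℝ) ≤ L := by linarith
    have := mul_le_mul_of_nonneg_right h4 this
    linarith
  have h9 : (1/4) * ((N:ℝ) * (L - 1)) ≤ (1/4) * ((N:ℝ) * Real.log N) := by
    have := mul_le_mul_of_nonneg_left h7 (show (0:ℝ) ≤ N by positivity)
    linarith
  have h10 : (0:ℝ) ≤ N * (L - 66) := mul_nonneg (by positivity) (by linarith)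
  nlinarith

theorem density_zero :
    (∀ X, (admissibleTriples X).Finite) ∧ (∀ X, designTriples X ⊆ admissibleTriples X) ∧
    Tendsto (fun X : ℕ => ((designTriples X).ncard : ℝ) / ((admissibleTriples X).ncard : ℝ))
      atTop (𝓝 0) := by
  refine ⟨fun X => ?_, fun X t ht => ?_, ?_⟩
  · rw [adm_eq]; exact Finset.finite_toSet _
  · obtain ⟨h1, h2, h3, h4, h5⟩ := ht
    exact ⟨h1, h2, h3, h4, count_nat h1 h5⟩
  · simp only [adm_eq, des_eq, Set.ncard_coe_finset]
    rw [Metric.tendsto_nhds]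
    intro ε hε
    obtain ⟨P, hP, hP2, hδ⟩ := delta_small (ε/32) (by positivity)
    obtain ⟨K, hK⟩ := upper_bound P hP hP2
    have hlog : Tendsto (fun X : ℕ => Real.log (X:ℝ)) atTop atTop :=
      Real.tendsto_log_atTop.comp tendsto_natCast_atTop_atTop
    filter_upwards [adm_lower, hlog.eventually_gt_atTop (32 * |K| / ε),
      hlog.eventually_gt_atTop 0, eventually_ge_atTop 1] with X h1 h2 h3 h4
    have h5 := hK X h4
    have hX : (0:ℝ) < X := by exact_mod_cast (by omega : 0 < X)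
    have hXL : (0:ℝ) < X * Real.log X := by positivity
    have hA : (0:ℝ) < (Adm X).card := by linarith
    rw [Real.dist_eq, sub_zero, abs_of_nonneg (by positivity), div_lt_iff₀ hA]
    have h6 : K * X ≤ |K| * X := mul_le_mul_of_nonneg_right (le_abs_self K) hX.le
    have h7 : |K| * X < (ε/32) * (X * Real.log X) := by
      rw [div_lt_iff₀ hε] at h2
      have : |K| < (ε/32) * Real.log X := by linarith
      nlinarith
    have h8 : delta P * (X * Real.log X) ≤ (ε/32) * (X * Real.log X) :=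
      mul_le_mul_of_nonneg_right hδ.le hXL.le
    have h9 : ε * ((1/16) * ((X:ℝ) * Real.log X)) ≤ ε * (Adm X).card :=
      mul_le_mul_of_nonneg_left h1 hε.le
    linarith

end Pool.Agent.H12
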