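import Mathlib
import Pool.Agent.H12.Middle

/-!
Explicit bound in the middle range.
-/

namespace Pool.Agent.H12

open Finset Classical

lemma Ta_mid (X a : ℕ) (l : ℝ) (hl : l = Real.log (Real.log X)) (hbig : 3000 ≤ l)
    (ha1 : Real.exp (l^2) ≤ a) (ha2 : (a:ℝ)^2 * Real.exp (l^2) ≤ X) :
    ((Ta X a).card : ℝ) ≤ 2 * ((2 * (X:ℝ) / a) *
      (5856 * Real.exp 5 * l * (1 / Real.log a + 1 / Real.log ((X:ℝ)/a^2)) + 1 / Real.log X) +
      (2 * Real.sqrt X + 2 * X * Real.sqrt a / a^2)) := by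
  have hl0 : 0 < l := by linarith
  set A := Real.exp (l^2) with hA
  have hA1 : 1 < A := by rw [hA]; exact Real.one_lt_exp_iff.mpr (by positivity)
  have hA2 : 2 ≤ A := by
    have := Real.add_one_le_exp (l^2)
    nlinarith
  have ha2' : (2:ℝ) ≤ a := hA2.trans ha1
  have haN : 2 ≤ a := by exact_mod_cast ha2'
  have ha0 : (0:ℝ) < a := by linarith
  have hX0 : (0:ℝ) < X := lt_of_lt_of_le (by positivity) ha2
  have hXa : A ≤ (X:ℝ)/a^2 := by
    rw [le_div_iff₀ (by positivity)]; linarith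
  have hlogX : Real.log X = Real.exp l := by
    rw [hl, Real.exp_log]
    by_contra hcon
    push Not at hcon
    have h1 : Real.log (Real.log X) ≤ 0 ∨ Real.log X < 0 := by
      rcases hcon.lt_or_eq with h | h
      · right; exact h
      · left; rw [h]; simp
    rcases h1 with h1 | h1
    · linarith
    · have : 0 ≤ Real.log (X:ℝ) := Real.log_natCast_nonneg X
      linarith
  set m := min (a:ℝ) ((X:ℝ)/a^2) with hm
  have hmA : A ≤ m := le_min ha1 hXa
  have hm0 : 0 < m := by linarith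
  have hlogm : l^2 ≤ Real.log m := by
    rw [Real.le_log_iff_exp_le hm0]; exact hmA
  set r := 2 * ⌈60 * l⌉₊ with hr
  have hr1 : 120 * l ≤ r := by
    have := Nat.le_ceil (60 * l)
    rw [hr]; push_cast; linarith
  have hr2 : (r:ℝ) ≤ 122 * l := by
    have := Nat.ceil_lt_add_one (show 0 ≤ 60 * l by positivity)
    rw [hr]; push_cast; linarith
  have hr0 : (0:ℝ) < r := by linarith
  have hre : Even r := ⟨⌈60 * l⌉₊, by rw [hr]; ring⟩
  set Y := Real.exp (Real.log m / (12 * r)) with hY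
  have hlogY : Real.log Y = Real.log m / (12 * r) := Real.log_exp _
  have hY4 : 4 ≤ Y := by
    have h1 : 2 ≤ Real.log m / (12 * r) := by
      rw [le_div_iff₀ (by positivity)]
      nlinarith
    have h2 : Real.exp 2 ≤ Y := Real.exp_le_exp.mpr h1
    have h3 : (4:ℝ) ≤ Real.exp 2 := by
      have h4 : Real.exp 2 = Real.exp 1 * Real.exp 1 := by rw [← Real.exp_add]; norm_num
      have h5 := Real.exp_one_gt_d9
      rw [h4]; nlinarith
    linarith
  have hY0 : 0 < Y := Real.exp_pos _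
  have hYpow : Y^(6*r) * Y^(6*r) = m := by
    rw [← pow_add, hY, ← Real.exp_nat_mul]
    have : ((6*r+6*r : ℕ) : ℝ) * (Real.log m / (12 * r)) = Real.log m := by
      push_cast; field_simp; ring
    rw [this, Real.exp_log hm0]
  have hYm : Y^(6*r) ≤ Real.sqrt m := by
    apply Real.le_sqrt_of_sq_le
    rw [sq, hYpow]
  have hYle : Y ≤ X := by
    have h1 : Y ≤ Y^(6*r) * Y^(6*r) := by
      rw [← pow_add]
      have h6 : 1 ≤ 6*r+6*r := by
        have : 0 < r := by exact_mod_cast hr0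
        omega
      calc Y = Y^1 := (pow_one Y).symm
        _ ≤ Y^(6*r+6*r) := pow_le_pow_right₀ (by linarith) h6
    rw [hYpow] at h1
    have h2 : m ≤ a := min_le_left _ _
    have h3 : (a:ℝ) ≤ X := by
      have : (a:ℝ) ≤ (a:ℝ)^2 * A := by nlinarith
      linarith
    linarith
  have hs : Real.exp 2 * (8 * (1 + Real.log (Nat.log 2 X))) ≤ r + 1 := by
    have hX1 : X ≠ 0 := by
      rintro rfl; simp at hX0
    have h1 : ((Nat.log 2 X : ℕ) : ℝ) ≤ 2 * Real.log X := by
      have h2 : Real.log ((2:ℝ)^(Nat.log 2 X)) ≤ Real.log X := by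
        apply Real.log_le_log (by positivity)
        exact_mod_cast Nat.pow_log_le_self 2 hX1
      rw [Real.log_pow] at h2
      have h3 := Real.log_two_gt_d9
      have h4 : (0:ℝ) ≤ (Nat.log 2 X : ℕ) := by positivity
      nlinarith
    have h5 : Real.log ((Nat.log 2 X : ℕ) : ℝ) ≤ Real.log 2 + l := by
      rcases Nat.eq_zero_or_pos (Nat.log 2 X) with h0 | h0
      · rw [h0]
        have := Real.log_two_gt_d9
        simp; linarith
      · have h0' : (0:ℝ) < (Nat.log 2 X : ℕ) := by exact_mod_cast h0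
        have := Real.log_le_log h0' h1
        rwa [Real.log_mul (by norm_num) (by rw [hlogX]; positivity), ← hl] at this
    have h6 := Real.log_two_lt_d9
    have h7 : Real.exp 2 ≤ 7.4 := by
      have h8 : Real.exp 2 = Real.exp 1 * Real.exp 1 := by rw [← Real.exp_add]; norm_num
      have h9 := Real.exp_one_lt_d9
      have h10 := Real.exp_pos 1
      rw [h8]; nlinarith
    have h8 : 8 * (1 + Real.log (Nat.log 2 X)) ≤ 8 * (2 + l) := by linarith
    have h9 : Real.exp 2 * (8 * (1 + Real.log (Nat.log 2 X))) ≤ 7.4 * (8 * (2 + l)) := by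
      have h10 := Real.exp_pos 2
      calc Real.exp 2 * (8 * (1 + Real.log (Nat.log 2 X))) ≤ Real.exp 2 * (8 * (2 + l)) :=
            mul_le_mul_of_nonneg_left h8 h10.le
        _ ≤ 7.4 * (8 * (2 + l)) := mul_le_mul_of_nonneg_right h7 (by linarith)
    linarith
  have hmain := Ta_bound X a r haN hre Y hY4 hYle hs
  refine hmain.trans ?_
  -- S
  have hS : ((X/a^2+1 : ℕ) : ℝ) ≤ 2 * (X:ℝ) / a^2 := by
    push_cast
    have h1 : ((X/a^2 : ℕ) : ℝ) ≤ (X:ℝ) / ((a^2 : ℕ) : ℝ) := Nat.cast_div_le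
    push_cast at h1
    have h2 : 2 * (X:ℝ) / a^2 = (X:ℝ)/a^2 + (X:ℝ)/a^2 := by ring
    rw [h2]; linarith
  have hS0 : (0:ℝ) ≤ ((X/a^2+1 : ℕ) : ℝ) := by positivity
  have haS : (a:ℝ) * ((X/a^2+1 : ℕ) : ℝ) ≤ 2 * (X:ℝ) / a := by
    refine (mul_le_mul_of_nonneg_left hS ha0.le).trans (le_of_eq ?_)
    field_simp
  -- logs
  have hloga : 0 < Real.log a := Real.log_pos (by linarith)
  have hlogXa : 0 < Real.log ((X:ℝ)/a^2) := Real.log_pos (by linarith)
  have hlogm0 : 0 < Real.log m := Real.log_pos (by linarith)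
  have hinv : 1 / Real.log m ≤ 1 / Real.log a + 1 / Real.log ((X:ℝ)/a^2) := by
    rcases min_choice (a:ℝ) ((X:ℝ)/a^2) with h | h
    · rw [hm, h]
      have : 0 ≤ 1 / Real.log ((X:ℝ)/a^2) := by positivity
      linarith
    · rw [hm, h]
      have : 0 ≤ 1 / Real.log (a:ℝ) := by positivity
      linarith
  have hexp : Real.exp (-((r:ℝ)+1)) ≤ 1 / Real.log X := by
    rw [hlogX, one_div, ← Real.exp_neg]
    apply Real.exp_le_exp.mpr
    linarith
  have hfac : 4 * Real.exp 5 / Real.log Y ≤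
      5856 * Real.exp 5 * l * (1 / Real.log a + 1 / Real.log ((X:ℝ)/a^2)) := by
    rw [hlogY]
    have e1 : 4 * Real.exp 5 / (Real.log m / (12 * r)) = 48 * Real.exp 5 * r * (1/Real.log m) := by
      field_simp; ring
    rw [e1]
    have h5 := Real.exp_pos 5
    calc 48 * Real.exp 5 * r * (1/Real.log m) ≤ 48 * Real.exp 5 * (122 * l) * (1/Real.log m) := by
          gcongr
      _ = 5856 * Real.exp 5 * l * (1/Real.log m) := by ring
      _ ≤ _ := mul_le_mul_of_nonneg_left hinv (by positivity)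
  have hsum : 4 * Real.exp 5 / Real.log Y + Real.exp (-((r:ℝ)+1)) ≤
      5856 * Real.exp 5 * l * (1 / Real.log a + 1 / Real.log ((X:ℝ)/a^2)) + 1 / Real.log X := by
    linarith
  have hlogY0 : 0 < Real.log Y := Real.log_pos (by linarith)
  have hterm1 : ((a:ℝ) * ((X/a^2+1 : ℕ) : ℝ)) *
      (4 * Real.exp 5 / Real.log Y + Real.exp (-((r:ℝ)+1))) ≤ (2 * (X:ℝ) / a) *
      (5856 * Real.exp 5 * l * (1 / Real.log a + 1 / Real.log ((X:ℝ)/a^2)) + 1 / Real.log X) :=
    mul_le_mul haS hsum (by positivity) (by positivity)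
  -- error terms
  have hY1 : 1 ≤ Y := by linarith
  have hp3 : Y^(3*r) ≤ Y^(6*r) := pow_le_pow_right₀ hY1 (by omega)
  have hp5 : Y^(5*r) ≤ Y^(6*r) := pow_le_pow_right₀ hY1 (by omega)
  have hsm1 : Real.sqrt m ≤ Real.sqrt X / a := by
    have h1 : Real.sqrt m ≤ Real.sqrt ((X:ℝ)/a^2) := Real.sqrt_le_sqrt (min_le_right _ _)
    rwa [Real.sqrt_div' _ (by positivity), Real.sqrt_sq ha0.le] at h1
  have hsm2 : Real.sqrt m ≤ Real.sqrt a := Real.sqrt_le_sqrt (min_le_left _ _)
  have hsX : 0 ≤ Real.sqrt X := Real.sqrt_nonneg _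
  have hterm2 : ((a:ℝ) + ((X/a^2+1 : ℕ) : ℝ)) * Y^(3*r) + Y^(5*r) ≤
      2 * Real.sqrt X + 2 * X * Real.sqrt a / a^2 := by
    have h1 : (a:ℝ) * Y^(3*r) ≤ Real.sqrt X := by
      have : Y^(3*r) ≤ Real.sqrt X / a := (hp3.trans hYm).trans hsm1
      calc (a:ℝ) * Y^(3*r) ≤ a * (Real.sqrt X / a) := mul_le_mul_of_nonneg_left this ha0.le
        _ = Real.sqrt X := by field_simp
    have h2 : ((X/a^2+1 : ℕ) : ℝ) * Y^(3*r) ≤ 2 * X * Real.sqrt a / a^2 := by
      have : Y^(3*r) ≤ Real.sqrt a := (hp3.trans hYm).trans hsm2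
      calc ((X/a^2+1 : ℕ) : ℝ) * Y^(3*r) ≤ (2 * (X:ℝ) / a^2) * Real.sqrt a :=
            mul_le_mul hS this (by positivity) (by positivity)
        _ = 2 * X * Real.sqrt a / a^2 := by ring
    have h3 : Y^(5*r) ≤ Real.sqrt X := by
      have h4 : Y^(5*r) ≤ Real.sqrt X / a := (hp5.trans hYm).trans hsm1
      have h5 : Real.sqrt X / a ≤ Real.sqrt X := div_le_self hsX (by linarith)
      linarith
    linarith
  linarith

end Pool.Agent.H12
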