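import Mathlib
import Pool.Agent.H12.MidBound
import Pool.Agent.H12.DensityMain

/-!
Summing the sieve bounds: the number of realised parameter triples is `O(X (log log X)^2)`.
-/

namespace Pool.Agent.H12

open Filter Topology Finset Classical

lemma tele_eq (g : ℕ → ℝ) (m n : ℕ) (h : m ≤ n) :
    ∑ a ∈ Icc m n, (g (a+1) - g a) = g (n+1) - g m := by
  induction n, h using Nat.le_induction with
  | base => simp
  | succ n hn ih =>
    rw [Finset.sum_Icc_succ_top (by omega), ih]; ring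

lemma tele_le (g f : ℕ → ℝ) (m n : ℕ) (B : ℝ) (hB : 0 ≤ B)
    (hf : ∀ a, m ≤ a → a ≤ n → f a ≤ g (a+1) - g a) (hg : m ≤ n → g (n+1) - g m ≤ B) :
    ∑ a ∈ Icc m n, f a ≤ B := by
  by_cases h : m ≤ n
  · have h1 : ∑ a ∈ Icc m n, f a ≤ ∑ a ∈ Icc m n, (g (a+1) - g a) :=
      Finset.sum_le_sum (fun a ha => by rw [mem_Icc] at ha; exact hf a ha.1 ha.2)
    rw [tele_eq g m n h] at h1
    exact h1.trans (hg h)
  · rw [Finset.Icc_eq_empty h]; simpa using hB

lemma log_step {x y : ℝ} (hx : 0 < x) (hy : 0 < y) : 1 - x / y ≤ Real.log y - Real.log x := by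
  have h := Real.one_sub_inv_le_log_of_pos (div_pos hy hx)
  rwa [Real.log_div hy.ne' hx.ne', inv_div] at h

lemma step0 {a : ℕ} (ha : 2 ≤ a) :
    1 / (a:ℝ) ≤ Real.log a - Real.log ((a:ℝ) - 1) := by
  have ha' : (2:ℝ) ≤ a := by exact_mod_cast ha
  have h := log_step (show (0:ℝ) < (a:ℝ) - 1 by linarith) (show (0:ℝ) < a by linarith)
  refine le_trans (le_of_eq ?_) h
  have : (a:ℝ) ≠ 0 := by linarith
  field_simp
  ring

lemma step1 {a : ℕ} (ha : 3 ≤ a) :
    1 / ((a:ℝ) * Real.log a) ≤ Real.log (Real.log a) - Real.log (Real.log ((a:ℝ) - 1)) := by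
  have ha' : (3:ℝ) ≤ a := by exact_mod_cast ha
  have h1 : 0 < Real.log ((a:ℝ) - 1) := Real.log_pos (by linarith)
  have h2 : 0 < Real.log (a:ℝ) := Real.log_pos (by linarith)
  have h := log_step h1 h2
  refine le_trans ?_ h
  have h0 := step0 (show 2 ≤ a by omega)
  have h3 : 1 - Real.log ((a:ℝ) - 1) / Real.log a =
      (Real.log a - Real.log ((a:ℝ) - 1)) / Real.log a := by field_simp
  rw [h3, ← div_div]
  exact div_le_div_of_nonneg_right h0 h2.le

lemma step2 {X : ℝ} {a : ℕ} (hX : 0 < X) (ha : 1 ≤ a) (h : 1 < X / ((a:ℝ)+1)^2) :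
    1 / ((a:ℝ) * Real.log (X/(a:ℝ)^2)) ≤
      Real.log (Real.log (X/(a:ℝ)^2)) - Real.log (Real.log (X/((a:ℝ)+1)^2)) := by
  have ha' : (1:ℝ) ≤ a := by exact_mod_cast ha
  have ha0 : (0:ℝ) < a := by linarith
  have h1 : 0 < Real.log (X/((a:ℝ)+1)^2) := Real.log_pos h
  have h2' : X/((a:ℝ)+1)^2 ≤ X/(a:ℝ)^2 := by
    apply div_le_div_of_nonneg_left hX.le (by positivity)
    gcongr; linarith
  have h2 : 0 < Real.log (X/(a:ℝ)^2) := Real.log_pos (by linarith)
  refine le_trans ?_ (log_step h1 h2)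
  have h3 : 1 - Real.log (X/((a:ℝ)+1)^2) / Real.log (X/(a:ℝ)^2) =
      (Real.log (X/(a:ℝ)^2) - Real.log (X/((a:ℝ)+1)^2)) / Real.log (X/(a:ℝ)^2) := by field_simp
  rw [h3, ← div_div]
  apply div_le_div_of_nonneg_right _ h2.le
  rw [Real.log_div hX.ne' (by positivity), Real.log_div hX.ne' (by positivity), Real.log_pow,
    Real.log_pow]
  have h4 := step0 (show 2 ≤ a + 1 by omega)
  push_cast at h4
  have h5 : (a:ℝ) + 1 - 1 = a := by ring
  rw [h5] at h4
  have h6 : 1/(a:ℝ) ≤ 2 * (1/((a:ℝ)+1)) := by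
    rw [mul_one_div, div_le_div_iff₀ ha0 (by linarith)]
    linarith
  push_cast
  linarith

lemma log_le_sqrt {a : ℝ} (ha : 0 < a) : Real.log a ≤ Real.sqrt a := by
  have h1 : Real.log a = 2 * Real.log (Real.sqrt a) := by
    rw [Real.log_sqrt ha.le]; ring
  have h0 : 0 < Real.sqrt a := Real.sqrt_pos.mpr ha
  have h2 := Real.log_le_sub_one_of_pos (show 0 < Real.sqrt a / 2 by positivity)
  rw [Real.log_div h0.ne' (by norm_num)] at h2
  have h3 := Real.log_two_lt_d9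
  rw [h1]
  linarith

/-- Sum over the small values of `a`. -/
lemma sum_small (s : ℕ) (A : ℝ) (hA : 1 ≤ A) :
    ∑ a ∈ (Icc 2 s).filter (fun a : ℕ => (a:ℝ) < A), 1/(a:ℝ) ≤ Real.log A := by
  have h1 : ∑ a ∈ (Icc 2 s).filter (fun a : ℕ => (a:ℝ) < A), 1/(a:ℝ) ≤
      ∑ a ∈ Icc 2 ⌊A⌋₊, 1/(a:ℝ) := by
    apply Finset.sum_le_sum_of_subset_of_nonneg
    · intro a ha
      rw [mem_filter, mem_Icc] at ha
      rw [mem_Icc]
      exact ⟨ha.1.1, Nat.le_floor ha.2.le⟩
    · intro a _ _; positivity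
  have h2 := sum_inv_Icc ⌊A⌋₊
  have h3 : Real.log ⌊A⌋₊ ≤ Real.log A := by
    have h4 : 1 ≤ ⌊A⌋₊ := by rw [Nat.one_le_floor_iff]; exact hA
    exact Real.log_le_log (by exact_mod_cast h4) (Nat.floor_le (by linarith))
  linarith

/-- Sum over the large values of `a`. -/
lemma sum_large (X : ℕ) (A : ℝ) (hA : 1 ≤ A) (hX : 16 * A ≤ X) :
    ∑ a ∈ (Icc 2 (Nat.sqrt X)).filter (fun a : ℕ => (X:ℝ) < (a:ℝ)^2 * A), 1/(a:ℝ) ≤
      Real.log A / 2 + 1 := by
  have hX0 : (0:ℝ) < X := by linarith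
  have hlogA : 0 ≤ Real.log A := Real.log_nonneg hA
  set q := Real.sqrt ((X:ℝ)/A) with hq
  have hq4 : 4 ≤ q := by
    rw [hq]
    apply Real.le_sqrt_of_sq_le
    rw [le_div_iff₀ (by linarith)]
    linarith
  have hlogq : Real.log q = (Real.log X - Real.log A) / 2 := by
    rw [hq, Real.log_sqrt (by positivity), Real.log_div hX0.ne' (by linarith)]
  set t := ⌊q⌋₊ with ht
  have ht1 : q / 2 ≤ t := by
    have := Nat.lt_floor_add_one q
    rw [ht]; linarith
  have ht2 : 2 ≤ t := by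
    have : (2:ℝ) ≤ t := by linarith
    exact_mod_cast this
  have h1 : ∑ a ∈ (Icc 2 (Nat.sqrt X)).filter (fun a : ℕ => (X:ℝ) < (a:ℝ)^2 * A), 1/(a:ℝ) ≤
      ∑ a ∈ Icc (t+1) (Nat.sqrt X), 1/(a:ℝ) := by
    apply Finset.sum_le_sum_of_subset_of_nonneg
    · intro a ha
      rw [mem_filter, mem_Icc] at ha
      rw [mem_Icc]
      refine ⟨?_, ha.1.2⟩
      have h2 : q < a := by
        rw [hq, Real.sqrt_lt' (by have := ha.1.1; positivity)]
        rw [div_lt_iff₀ (by linarith)]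
        exact ha.2
      have h3 : t < a := by
        rw [ht, Nat.floor_lt (by linarith)]
        exact h2
      omega
    · intro a _ _; positivity
  refine h1.trans ?_
  apply tele_le (fun n => Real.log ((n:ℝ) - 1)) _ _ _ _ (by linarith)
  · intro a ha1 ha2
    have := step0 (show 2 ≤ a by omega)
    push_cast
    have h5 : (a:ℝ) + 1 - 1 = a := by ring
    rw [h5]
    exact this
  · intro h
    push_cast
    have h5 : ((Nat.sqrt X : ℕ):ℝ) + 1 - 1 = (Nat.sqrt X : ℕ) := by ring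
    have h6 : (t:ℝ) + 1 - 1 = t := by ring
    rw [h5, h6]
    have h7 : ((Nat.sqrt X : ℕ):ℝ) ≤ Real.sqrt X := by
      apply Real.le_sqrt_of_sq_le
      have := Nat.sqrt_le' X
      exact_mod_cast this
    have hs0 : (0:ℝ) < (Nat.sqrt X : ℕ) := by
      have : 0 < Nat.sqrt X := by omega
      exact_mod_cast this
    have h8 : Real.log (Nat.sqrt X : ℕ) ≤ Real.log X / 2 := by
      rw [← Real.log_sqrt hX0.le]
      exact Real.log_le_log hs0 h7
    have h9 : Real.log q - Real.log 2 ≤ Real.log t := by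
      rw [← Real.log_div (by linarith) (by norm_num)]
      exact Real.log_le_log (by linarith) ht1
    have h10 := Real.log_two_lt_d9
    rw [hlogq] at h9
    linarith

/-- First sum over the middle values of `a`. -/
lemma sum_mid1 (X : ℕ) (A : ℝ) (hA : 4 ≤ A) (hX : 16 ≤ X) :
    ∑ a ∈ (Icc 2 (Nat.sqrt X)).filter (fun a : ℕ => A ≤ (a:ℝ)), 1/((a:ℝ) * Real.log a) ≤
      Real.log (Real.log X) := by
  have hX' : (16:ℝ) ≤ X := by exact_mod_cast hX
  have hlog16 : Real.exp 1 ≤ Real.log 16 := by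
    have h1 : Real.log 16 = 4 * Real.log 2 := by
      rw [show (16:ℝ) = 2^4 by norm_num, Real.log_pow]; norm_num
    have h2 := Real.log_two_gt_d9
    have h3 := Real.exp_one_lt_d9
    rw [h1]; linarith
  have hlogX : Real.exp 1 ≤ Real.log X :=
    hlog16.trans (Real.log_le_log (by norm_num) hX')
  have hll : 1 ≤ Real.log (Real.log X) := by
    rw [Real.le_log_iff_exp_le (lt_of_lt_of_le (Real.exp_pos 1) hlogX)]
    exact hlogX
  have h1 : ∑ a ∈ (Icc 2 (Nat.sqrt X)).filter (fun a : ℕ => A ≤ (a:ℝ)), 1/((a:ℝ) * Real.log a) ≤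
      ∑ a ∈ Icc 4 (Nat.sqrt X), 1/((a:ℝ) * Real.log a) := by
    apply Finset.sum_le_sum_of_subset_of_nonneg
    · intro a ha
      rw [mem_filter, mem_Icc] at ha
      rw [mem_Icc]
      refine ⟨?_, ha.1.2⟩
      have : (4:ℝ) ≤ a := hA.trans ha.2
      exact_mod_cast this
    · intro a ha _
      rw [mem_Icc] at ha
      have : 0 ≤ Real.log (a:ℝ) := Real.log_natCast_nonneg a
      positivity
  refine h1.trans ?_
  apply tele_le (fun n => Real.log (Real.log ((n:ℝ) - 1))) _ _ _ _ (by linarith)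
  · intro a ha1 ha2
    have := step1 (show 3 ≤ a by omega)
    push_cast
    have h5 : (a:ℝ) + 1 - 1 = a := by ring
    rw [h5]
    exact this
  · intro h
    push_cast
    have h5 : ((Nat.sqrt X : ℕ):ℝ) + 1 - 1 = (Nat.sqrt X : ℕ) := by ring
    have h6 : (4:ℝ) - 1 = 3 := by ring
    rw [h5, h6]
    have h7 : ((Nat.sqrt X : ℕ):ℝ) ≤ X := by
      exact_mod_cast Nat.sqrt_le_self X
    have hs0 : (4:ℝ) ≤ (Nat.sqrt X : ℕ) := by exact_mod_cast h
    have h8 : Real.log (Nat.sqrt X : ℕ) ≤ Real.log X := Real.log_le_log (by linarith) h7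
    have h8' : 0 < Real.log (Nat.sqrt X : ℕ) := Real.log_pos (by linarith)
    have h9 : Real.log (Real.log (Nat.sqrt X : ℕ)) ≤ Real.log (Real.log X) :=
      Real.log_le_log h8' h8
    have h10 : 0 ≤ Real.log (Real.log 3) := by
      apply Real.log_nonneg
      rw [Real.le_log_iff_exp_le (by norm_num)]
      have := Real.exp_one_lt_d9
      linarith
    linarith

/-- Second sum over the middle values of `a`. -/
lemma sum_mid2 (X : ℕ) (A : ℝ) (hA : 12 ≤ A) (hX : 16 ≤ X) :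
    ∑ a ∈ (Icc 2 (Nat.sqrt X)).filter (fun a : ℕ => (a:ℝ)^2 * A ≤ X),
      1/((a:ℝ) * Real.log ((X:ℝ)/(a:ℝ)^2)) ≤ Real.log (Real.log X) := by
  have hX' : (16:ℝ) ≤ X := by exact_mod_cast hX
  have hX0 : (0:ℝ) < X := by linarith
  have hlog16 : Real.exp 1 ≤ Real.log 16 := by
    have h1 : Real.log 16 = 4 * Real.log 2 := by
      rw [show (16:ℝ) = 2^4 by norm_num, Real.log_pow]; norm_num
    have h2 := Real.log_two_gt_d9
    have h3 := Real.exp_one_lt_d9
    rw [h1]; linarith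
  have hlogX : Real.exp 1 ≤ Real.log X :=
    hlog16.trans (Real.log_le_log (by norm_num) hX')
  have hll : 1 ≤ Real.log (Real.log X) := by
    rw [Real.le_log_iff_exp_le (lt_of_lt_of_le (Real.exp_pos 1) hlogX)]
    exact hlogX
  set q := Real.sqrt ((X:ℝ)/A) with hq
  set t := ⌊q⌋₊ with ht
  have hq0 : 0 ≤ q := Real.sqrt_nonneg _
  have htq : (t:ℝ) ≤ q := Nat.floor_le hq0
  have htA : (t:ℝ)^2 * A ≤ X := by
    have h1 : (t:ℝ)^2 ≤ (X:ℝ)/A := by
      calc (t:ℝ)^2 ≤ q^2 := by gcongr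
        _ = X/A := by rw [hq, Real.sq_sqrt (by positivity)]
    rwa [le_div_iff₀ (by linarith)] at h1
  have h1 : ∑ a ∈ (Icc 2 (Nat.sqrt X)).filter (fun a : ℕ => (a:ℝ)^2 * A ≤ X),
      1/((a:ℝ) * Real.log ((X:ℝ)/(a:ℝ)^2)) ≤
      ∑ a ∈ Icc 2 t, 1/((a:ℝ) * Real.log ((X:ℝ)/(a:ℝ)^2)) := by
    apply Finset.sum_le_sum_of_subset_of_nonneg
    · intro a ha
      rw [mem_filter, mem_Icc] at ha
      rw [mem_Icc]
      refine ⟨ha.1.1, ?_⟩
      apply Nat.le_floor
      rw [hq]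
      apply Real.le_sqrt_of_sq_le
      rw [le_div_iff₀ (by linarith)]
      exact ha.2
    · intro a ha _
      rw [mem_Icc] at ha
      have ha2 : (2:ℝ) ≤ a := by exact_mod_cast ha.1
      have hat : (a:ℝ) ≤ t := by exact_mod_cast ha.2
      have : 0 ≤ Real.log ((X:ℝ)/(a:ℝ)^2) := by
        apply Real.log_nonneg
        rw [le_div_iff₀ (by positivity)]
        have : (a:ℝ)^2 ≤ (t:ℝ)^2 := by gcongr
        nlinarith
      positivity
  refine h1.trans ?_
  have hkey : ∀ a : ℕ, 1 ≤ a → a ≤ t → A/4 ≤ (X:ℝ)/((a:ℝ)+1)^2 := by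
    intro a ha1 ha2
    have ha1' : (1:ℝ) ≤ a := by exact_mod_cast ha1
    have hat : (a:ℝ) ≤ t := by exact_mod_cast ha2
    rw [le_div_iff₀ (by positivity)]
    have h2 : ((a:ℝ)+1)^2 ≤ (2*(t:ℝ))^2 := by
      apply pow_le_pow_left₀ (by linarith)
      linarith
    calc A/4 * ((a:ℝ)+1)^2 ≤ A/4 * (2*(t:ℝ))^2 := by gcongr
      _ = (t:ℝ)^2 * A := by ring
      _ ≤ X := htA
  apply tele_le (fun n => - Real.log (Real.log ((X:ℝ)/(n:ℝ)^2))) _ _ _ _ (by linarith)
  · intro a ha1 ha2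
    have h2 := hkey a (by omega) ha2
    have := step2 hX0 (show 1 ≤ a by omega) (by linarith)
    push_cast
    linarith
  · intro h
    have h2 := hkey t (by omega) le_rfl
    push_cast
    have h3 : 0 ≤ Real.log (Real.log ((X:ℝ)/((t:ℝ)+1)^2)) := by
      apply Real.log_nonneg
      rw [Real.le_log_iff_exp_le (by linarith)]
      have := Real.exp_one_lt_d9
      linarith
    have h4 : Real.log (Real.log ((X:ℝ)/2^2)) ≤ Real.log (Real.log X) := by
      apply Real.log_le_log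
      · apply Real.log_pos
        linarith
      · apply Real.log_le_log (by linarith)
        linarith
    linarith

end Pool.Agent.H12
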