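import Mathlib
import Pool.Agent.H12.FinalSum

/-!
The number of realised parameter triples is `O(X (log log X)^2)`.
-/

namespace Pool.Agent.H12

open Filter Topology Finset Classical

lemma Ta_mid' (X a : ℕ) (l : ℝ) (hl : l = Real.log (Real.log X)) (hbig : 3000 ≤ l)
    (ha1 : Real.exp (l^2) ≤ a) (ha2 : (a:ℝ)^2 * Real.exp (l^2) ≤ X) (hlogX : 0 < Real.log X) :
    ((Ta X a).card : ℝ) ≤ (4 * X * (5856 * Real.exp 5) * l + 4 * X) * (1/((a:ℝ) * Real.log a)) +
      (4 * X * (5856 * Real.exp 5) * l) * (1/((a:ℝ) * Real.log ((X:ℝ)/(a:ℝ)^2))) +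
      (4 * X / Real.log X) * (1/(a:ℝ)) + 4 * Real.sqrt X := by
  have h := Ta_mid X a l hl hbig ha1 ha2
  have hA1 : 1 < Real.exp (l^2) := Real.one_lt_exp_iff.mpr (by nlinarith)
  have ha : (1:ℝ) < a := lt_of_lt_of_le hA1 ha1
  have ha0 : (0:ℝ) < a := by linarith
  have hloga : 0 < Real.log a := Real.log_pos ha
  have hX0 : (0:ℝ) < X := lt_of_lt_of_le (by positivity) ha2
  have hlogXa : 0 < Real.log ((X:ℝ)/(a:ℝ)^2) := by
    apply Real.log_pos
    rw [lt_div_iff₀ (by positivity)]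
    nlinarith [sq_nonneg (a:ℝ), sq_pos_of_pos ha0]
  have hsq : Real.sqrt a / (a:ℝ)^2 ≤ 1/((a:ℝ) * Real.log a) := by
    have h1 := log_le_sqrt ha0
    have hs0 : 0 < Real.sqrt a := Real.sqrt_pos.mpr ha0
    rw [div_le_div_iff₀ (by positivity) (by positivity)]
    have h2 : Real.sqrt a * Real.sqrt a = a := Real.mul_self_sqrt ha0.le
    calc Real.sqrt a * (a * Real.log a) ≤ Real.sqrt a * (a * Real.sqrt a) := by gcongr
      _ = a * (Real.sqrt a * Real.sqrt a) := by ring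
      _ = 1 * a^2 := by rw [h2]; ring
  refine h.trans ?_
  have e1 : 2 * ((2 * (X:ℝ) / a) *
      (5856 * Real.exp 5 * l * (1 / Real.log a + 1 / Real.log ((X:ℝ)/a^2)) + 1 / Real.log X) +
      (2 * Real.sqrt X + 2 * X * Real.sqrt a / a^2)) =
      (4 * X * (5856 * Real.exp 5) * l) * (1/((a:ℝ) * Real.log a)) +
      (4 * X * (5856 * Real.exp 5) * l) * (1/((a:ℝ) * Real.log ((X:ℝ)/(a:ℝ)^2))) +
      (4 * X / Real.log X) * (1/(a:ℝ)) + 4 * Real.sqrt X + 4 * X * (Real.sqrt a / (a:ℝ)^2) := by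
    field_simp
    ring
  rw [e1]
  have h3 : 4 * (X:ℝ) * (Real.sqrt a / (a:ℝ)^2) ≤ 4 * X * (1/((a:ℝ) * Real.log a)) :=
    mul_le_mul_of_nonneg_left hsq (by positivity)
  have h4 : (4 * X * (5856 * Real.exp 5) * l + 4 * X) * (1/((a:ℝ) * Real.log a)) =
    (4 * X * (5856 * Real.exp 5) * l) * (1/((a:ℝ) * Real.log a)) +
    4 * X * (1/((a:ℝ) * Real.log a)) := by ring
  rw [h4]
  linarith

lemma T1_bound (X : ℕ) (l : ℝ) (hl : l = Real.log (Real.log X)) (hbig : 3000 ≤ l)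
    (hX16 : 16 ≤ X) (hXA : 16 * Real.exp (l^2) ≤ X) :
    ((T1 X).card : ℝ) ≤ (8 * (5856 * Real.exp 5) + 20) * ((X:ℝ) * l^2) := by
  set K := 5856 * Real.exp 5 with hK
  have hK0 : 0 < K := by positivity
  set A := Real.exp (l^2) with hA
  have hA1 : 12 ≤ A := by
    have := Real.add_one_le_exp (l^2)
    rw [hA]; nlinarith
  have hlogA : Real.log A = l^2 := Real.log_exp _
  have hX' : (16:ℝ) ≤ X := by exact_mod_cast hX16
  have hX0 : (0:ℝ) < X := by linarith
  have hlogX : 0 < Real.log X := Real.log_pos (by linarith)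
  rw [card_T1_eq]
  push_cast
  set S := Icc 2 (Nat.sqrt X) with hS
  have hsqrt : ((Nat.sqrt X : ℕ):ℝ) ≤ Real.sqrt X := by
    apply Real.le_sqrt_of_sq_le
    have := Nat.sqrt_le' X
    exact_mod_cast this
  have hs1 : 1 ≤ Nat.sqrt X := by
    rw [Nat.le_sqrt]; omega
  have htriv : ∀ a ∈ S, ((Ta X a).card : ℝ) ≤ X * (1/(a:ℝ)) := by
    intro a ha
    rw [hS, mem_Icc] at ha
    have h1 := card_Ta_trivial X a ha.1
    have h2 : ((X / a : ℕ) : ℝ) ≤ (X:ℝ)/a := Nat.cast_div_le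
    calc ((Ta X a).card : ℝ) ≤ ((X/a : ℕ) : ℝ) := by exact_mod_cast h1
      _ ≤ X / a := h2
      _ = X * (1/(a:ℝ)) := by ring
  rw [← Finset.sum_filter_add_sum_filter_not S (fun a : ℕ => (a:ℝ) < A)]
  have p1 : ∑ a ∈ S.filter (fun a : ℕ => (a:ℝ) < A), ((Ta X a).card : ℝ) ≤ X * l^2 := by
    calc ∑ a ∈ S.filter (fun a : ℕ => (a:ℝ) < A), ((Ta X a).card : ℝ)
        ≤ ∑ a ∈ S.filter (fun a : ℕ => (a:ℝ) < A), X * (1/(a:ℝ)) :=
          Finset.sum_le_sum (fun a ha => htriv a (mem_filter.mp ha).1)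
      _ = X * ∑ a ∈ S.filter (fun a : ℕ => (a:ℝ) < A), (1/(a:ℝ)) := by rw [Finset.mul_sum]
      _ ≤ X * Real.log A := mul_le_mul_of_nonneg_left (sum_small _ A (by linarith)) hX0.le
      _ = X * l^2 := by rw [hlogA]
  rw [← Finset.sum_filter_add_sum_filter_not (S.filter (fun a : ℕ => ¬ (a:ℝ) < A))
    (fun a : ℕ => (X:ℝ) < (a:ℝ)^2 * A)]
  have p2 : ∑ a ∈ (S.filter (fun a : ℕ => ¬ (a:ℝ) < A)).filter (fun a : ℕ => (X:ℝ) < (a:ℝ)^2 * A),
      ((Ta X a).card : ℝ) ≤ X * (l^2/2 + 1) := by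
    calc ∑ a ∈ (S.filter (fun a : ℕ => ¬ (a:ℝ) < A)).filter
          (fun a : ℕ => (X:ℝ) < (a:ℝ)^2 * A), ((Ta X a).card : ℝ)
        ≤ ∑ a ∈ S.filter (fun a : ℕ => (X:ℝ) < (a:ℝ)^2 * A), ((Ta X a).card : ℝ) := by
          apply Finset.sum_le_sum_of_subset_of_nonneg
          · intro a ha
            rw [mem_filter, mem_filter] at ha
            rw [mem_filter]
            exact ⟨ha.1.1, ha.2⟩
          · intro a _ _; positivity
      _ ≤ ∑ a ∈ S.filter (fun a : ℕ => (X:ℝ) < (a:ℝ)^2 * A), X * (1/(a:ℝ)) :=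
          Finset.sum_le_sum (fun a ha => htriv a (mem_filter.mp ha).1)
      _ = X * ∑ a ∈ S.filter (fun a : ℕ => (X:ℝ) < (a:ℝ)^2 * A), (1/(a:ℝ)) := by
          rw [Finset.mul_sum]
      _ ≤ X * (Real.log A / 2 + 1) :=
          mul_le_mul_of_nonneg_left (sum_large X A (by linarith) hXA) hX0.le
      _ = X * (l^2/2 + 1) := by rw [hlogA]
  set M := (S.filter (fun a : ℕ => ¬ (a:ℝ) < A)).filter (fun a : ℕ => ¬ (X:ℝ) < (a:ℝ)^2 * A)
    with hM
  have hl0 : 0 < l := by linarith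
  have p3 : ∑ a ∈ M, ((Ta X a).card : ℝ) ≤
      (4 * X * K * l + 4 * X) * l + (4 * X * K * l) * l + 4 * X + 4 * X := by
    have q0 : ∑ a ∈ M, ((Ta X a).card : ℝ) ≤ ∑ a ∈ M,
      ((4 * X * K * l + 4 * X) * (1/((a:ℝ) * Real.log a)) +
      (4 * X * K * l) * (1/((a:ℝ) * Real.log ((X:ℝ)/(a:ℝ)^2))) +
      (4 * X / Real.log X) * (1/(a:ℝ)) + 4 * Real.sqrt X) := by
      apply Finset.sum_le_sum
      intro a ha
      rw [hM, mem_filter, mem_filter] at ha
      exact Ta_mid' X a l hl hbig (not_lt.mp ha.1.2) (not_lt.mp ha.2) hlogX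
    refine q0.trans ?_
    rw [Finset.sum_add_distrib, Finset.sum_add_distrib, Finset.sum_add_distrib,
      ← Finset.mul_sum, ← Finset.mul_sum, ← Finset.mul_sum]
    have q1 : ∑ a ∈ M, 1/((a:ℝ) * Real.log a) ≤ l := by
      rw [hl]
      refine le_trans ?_ (sum_mid1 X A (by linarith) hX16)
      apply Finset.sum_le_sum_of_subset_of_nonneg
      · intro a ha
        rw [hM, mem_filter, mem_filter] at ha
        rw [mem_filter]
        exact ⟨ha.1.1, not_lt.mp ha.1.2⟩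
      · intro a _ _
        have : 0 ≤ Real.log (a:ℝ) := Real.log_natCast_nonneg a
        positivity
    have q2 : ∑ a ∈ M, 1/((a:ℝ) * Real.log ((X:ℝ)/(a:ℝ)^2)) ≤ l := by
      rw [hl]
      refine le_trans ?_ (sum_mid2 X A hA1 hX16)
      apply Finset.sum_le_sum_of_subset_of_nonneg
      · intro a ha
        rw [hM, mem_filter, mem_filter] at ha
        rw [mem_filter]
        exact ⟨ha.1.1, not_lt.mp ha.2⟩
      · intro a ha _
        rw [mem_filter, mem_Icc] at ha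
        have ha2 : (2:ℝ) ≤ a := by exact_mod_cast ha.1.1
        have : 0 ≤ Real.log ((X:ℝ)/(a:ℝ)^2) := by
          apply Real.log_nonneg
          rw [le_div_iff₀ (by positivity)]
          have := ha.2
          nlinarith [sq_nonneg (a:ℝ)]
        positivity
    have q3 : ∑ a ∈ M, 1/(a:ℝ) ≤ Real.log X := by
      have h1 : ∑ a ∈ M, 1/(a:ℝ) ≤ ∑ a ∈ S, 1/(a:ℝ) := by
        apply Finset.sum_le_sum_of_subset_of_nonneg
        · intro a ha
          rw [hM, mem_filter, mem_filter] at ha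
          exact ha.1.1
        · intro a _ _; positivity
      have h2 := sum_inv_Icc (Nat.sqrt X)
      have h3 : Real.log (Nat.sqrt X : ℕ) ≤ Real.log X := by
        apply Real.log_le_log
        · exact_mod_cast hs1
        · exact_mod_cast Nat.sqrt_le_self X
      exact (h1.trans h2).trans h3
    have q4 : ∑ a ∈ M, 4 * Real.sqrt X ≤ 4 * X := by
      rw [Finset.sum_const, nsmul_eq_mul]
      have h1 : (M.card : ℝ) ≤ Real.sqrt X := by
        have h2 : M.card ≤ S.card := by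
          apply Finset.card_le_card
          intro a ha
          rw [hM, mem_filter, mem_filter] at ha
          exact ha.1.1
        have h3 : S.card ≤ Nat.sqrt X := by
          rw [hS, Nat.card_Icc]; omega
        calc (M.card : ℝ) ≤ (Nat.sqrt X : ℕ) := by exact_mod_cast h2.trans h3
          _ ≤ Real.sqrt X := hsqrt
      have h4 : Real.sqrt X * Real.sqrt X = X := Real.mul_self_sqrt hX0.le
      have h5 : 0 ≤ Real.sqrt X := Real.sqrt_nonneg _
      calc (M.card : ℝ) * (4 * Real.sqrt X) ≤ Real.sqrt X * (4 * Real.sqrt X) := by gcongr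
        _ = 4 * (Real.sqrt X * Real.sqrt X) := by ring
        _ = 4 * X := by rw [h4]
    have r1 := mul_le_mul_of_nonneg_left q1 (show 0 ≤ 4 * X * K * l + 4 * X by positivity)
    have r2 := mul_le_mul_of_nonneg_left q2 (show 0 ≤ 4 * X * K * l by positivity)
    have r3 := mul_le_mul_of_nonneg_left q3 (show 0 ≤ 4 * X / Real.log X by positivity)
    have r3' : 4 * X / Real.log X * Real.log X = 4 * X := by field_simp
    rw [r3'] at r3
    linarith
  have hfin : (X:ℝ) * l^2 + (X * (l^2/2 + 1) +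
      ((4 * X * K * l + 4 * X) * l + (4 * X * K * l) * l + 4 * X + 4 * X)) ≤
      (8 * K + 20) * ((X:ℝ) * l^2) := by
    have e : (8 * K + 20) * ((X:ℝ) * l^2) - ((X:ℝ) * l^2 + (X * (l^2/2 + 1) +
      ((4 * X * K * l + 4 * X) * l + (4 * X * K * l) * l + 4 * X + 4 * X))) =
      X * ((18.5) * l^2 - 4 * l - 9) := by ring
    have h1 : 0 ≤ (18.5) * l^2 - 4 * l - 9 := by nlinarith
    have h2 := mul_nonneg hX0.le h1
    linarith
  linarith

lemma eventually_loglog :
    Tendsto (fun X : ℕ => Real.log (Real.log (X:ℝ))) atTop atTop :=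
  Real.tendsto_log_atTop.comp (Real.tendsto_log_atTop.comp tendsto_natCast_atTop_atTop)

lemma eventually_A : ∀ᶠ X : ℕ in atTop,
    16 * Real.exp ((Real.log (Real.log (X:ℝ)))^2) ≤ X := by
  -- (log y)^2 ≤ y/2 eventually, for y = log X
  have h1 : ∀ᶠ y : ℝ in atTop, (Real.log y)^2 ≤ y/2 := by
    have h := (isLittleO_log_rpow_atTop (show (0:ℝ) < 1/4 by norm_num)).bound
      (show (0:ℝ) < 1 by norm_num)
    filter_upwards [h, eventually_ge_atTop 16] with y hy h16
    rw [one_mul, Real.norm_eq_abs, Real.norm_eq_abs] at hy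
    have hy0 : 0 ≤ y := by linarith
    rw [abs_of_nonneg (Real.log_nonneg (by linarith)),
      abs_of_nonneg (Real.rpow_nonneg hy0 _)] at hy
    have h2 : (Real.log y)^2 ≤ (y^((1:ℝ)/4))^2 :=
      pow_le_pow_left₀ (Real.log_nonneg (by linarith)) hy 2
    have h3 : (y^((1:ℝ)/4))^2 = Real.sqrt y := by
      rw [← Real.rpow_natCast, ← Real.rpow_mul hy0, Real.sqrt_eq_rpow]
      norm_num
    have h4 : Real.sqrt y ≤ y/2 := by
      rw [Real.sqrt_le_left (by linarith)]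
      nlinarith
    linarith
  have hlog : Tendsto (fun X : ℕ => Real.log (X:ℝ)) atTop atTop :=
    Real.tendsto_log_atTop.comp tendsto_natCast_atTop_atTop
  filter_upwards [hlog.eventually h1, eventually_ge_atTop 256] with X h2 h3
  have hX : (256:ℝ) ≤ X := by exact_mod_cast h3
  have hX0 : (0:ℝ) < X := by linarith
  have h4 : Real.exp ((Real.log (Real.log (X:ℝ)))^2) ≤ Real.sqrt X := by
    calc Real.exp ((Real.log (Real.log (X:ℝ)))^2) ≤ Real.exp (Real.log X / 2) :=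
          Real.exp_le_exp.mpr h2
      _ = Real.sqrt X := by
          rw [← Real.log_sqrt hX0.le, Real.exp_log (Real.sqrt_pos.mpr hX0)]
  have h5 : 16 ≤ Real.sqrt X := by
    apply Real.le_sqrt_of_sq_le; linarith
  have h6 : Real.sqrt X * Real.sqrt X = X := Real.mul_self_sqrt hX0.le
  have h7 : 0 ≤ Real.sqrt X := Real.sqrt_nonneg _
  calc 16 * Real.exp ((Real.log (Real.log (X:ℝ)))^2) ≤ Real.sqrt X * Real.sqrt X := by
        apply mul_le_mul h5 h4 (Real.exp_pos _).le h7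
    _ = X := h6

theorem Rea_eventually : ∃ C : ℝ, 0 < C ∧ ∀ᶠ X : ℕ in atTop,
    ((Rea X).card : ℝ) ≤ C * ((X:ℝ) * (Real.log (Real.log (X:ℝ)))^2) := by
  refine ⟨2 * (8 * (5856 * Real.exp 5) + 20) + 1, by positivity, ?_⟩
  filter_upwards [eventually_A, eventually_loglog.eventually_ge_atTop 3000,
    eventually_ge_atTop 16] with X h1 h2 h3
  have h4 := T1_bound X _ rfl h2 h3 h1
  have h5 := card_Rea_le X
  have h5' : ((Rea X).card : ℝ) ≤ X + 2 * (T1 X).card := by exact_mod_cast h5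
  have hX : (0:ℝ) ≤ X := by positivity
  have h6 : (X:ℝ) ≤ (X:ℝ) * (Real.log (Real.log (X:ℝ)))^2 := by
    have : (1:ℝ) ≤ (Real.log (Real.log (X:ℝ)))^2 := by nlinarith
    nlinarith
  linarith

end Pool.Agent.H12
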