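import Mathlib
import Pool.Agent.H12.MainBound

/-!
The final quantitative statement: the number of realised parameter triples with `v ≤ X` is at
most `C X (log log X)^2`, whereas the number of admissible ones is at least `c X log X`.
-/

namespace Pool.Agent.H12

open Filter Topology Finset Classical

/-- The trivial symmetric `(v,v-1,v-2)`-design. -/
lemma trivial_design (v : ℕ) (hv : 3 ≤ v) : SymmetricDesignExists v (v-1) (v-2) := by
  refine ⟨by omega, v - 1, fun j => univ.erase j, ?_, ?_, ?_⟩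
  · intro j
    rw [Finset.card_erase_of_mem (mem_univ j), Finset.card_univ, Fintype.card_fin]
  · intro x
    have : univ.filter (fun j : Fin v => x ∈ univ.erase j) = univ.erase x := by
      ext j
      simp [eq_comm]
    rw [this, Finset.card_erase_of_mem (mem_univ x), Finset.card_univ, Fintype.card_fin]
  · intro x y hxy
    have : univ.filter (fun j : Fin v => x ∈ univ.erase j ∧ y ∈ univ.erase j) =
        (univ.erase x).erase y := by
      ext j
      simp only [mem_filter, mem_univ, true_and, mem_erase, ne_eq, and_true]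
      constructor
      · rintro ⟨h1, h2⟩; exact ⟨fun h => h2 h.symm, fun h => h1 h.symm⟩
      · rintro ⟨h1, h2⟩; exact ⟨fun h => h2 h.symm, fun h => h1 h.symm⟩
    rw [this, Finset.card_erase_of_mem (by rw [mem_erase]; exact ⟨hxy.symm, mem_univ y⟩),
      Finset.card_erase_of_mem (mem_univ x), Finset.card_univ, Fintype.card_fin]
    omega

lemma Rea_lower (X : ℕ) : X - 2 ≤ (Rea X).card := by
  have h : (Icc 3 X).image (fun v => (v, v-1, v-2)) ⊆ Rea X := by
    intro t ht
    rw [mem_image] at ht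
    obtain ⟨v, hv, rfl⟩ := ht
    rw [mem_Icc] at hv
    have h1 : ((v, v-1, v-2) : ℕ × ℕ × ℕ) ∈ (↑(Rea X) : Set (ℕ × ℕ × ℕ)) := by
      rw [← des_eq]
      refine ⟨?_, ?_, ?_, ?_, trivial_design v hv.1⟩
      · show 0 < v - 1; omega
      · show 0 < v - 2; omega
      · show v - 1 < v; omega
      · exact hv.2
    exact h1
  have h2 := Finset.card_le_card h
  rw [Finset.card_image_of_injective _ (fun a b hab => by simpa using (congrArg Prod.fst hab)),
    Nat.card_Icc] at h2
  omega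

lemma Rea_mono {X Y : ℕ} (h : X ≤ Y) : (Rea X).card ≤ (Rea Y).card := by
  apply Finset.card_le_card
  intro t ht
  have h1 : t ∈ (↑(Rea X) : Set (ℕ × ℕ × ℕ)) := ht
  rw [← des_eq] at h1
  have h2 : t ∈ (↑(Rea Y) : Set (ℕ × ℕ × ℕ)) := by
    rw [← des_eq]
    exact ⟨h1.1, h1.2.1, h1.2.2.1, h1.2.2.2.1.trans h, h1.2.2.2.2⟩
  exact h2

lemma Rea_le_Adm (X : ℕ) : (Rea X).card ≤ (Adm X).card := by
  apply Finset.card_le_card
  unfold Rea
  exact Finset.filter_subset _ _

lemma loglog_ge_one {X : ℕ} (hX : 16 ≤ X) : 1 ≤ Real.log (Real.log (X:ℝ)) := by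
  have hX' : (16:ℝ) ≤ X := by exact_mod_cast hX
  have hlog16 : Real.exp 1 ≤ Real.log 16 := by
    have h1 : Real.log 16 = 4 * Real.log 2 := by
      rw [show (16:ℝ) = 2^4 by norm_num, Real.log_pow]; norm_num
    have h2 := Real.log_two_gt_d9
    have h3 := Real.exp_one_lt_d9
    rw [h1]; linarith
  have hlogX : Real.exp 1 ≤ Real.log X :=
    hlog16.trans (Real.log_le_log (by norm_num) hX')
  rw [Real.le_log_iff_exp_le (lt_of_lt_of_le (Real.exp_pos 1) hlogX)]
  exact hlogX

theorem Rea_upper : ∃ C : ℝ, 0 < C ∧ ∀ X : ℕ, 16 ≤ X →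
    ((Rea X).card : ℝ) ≤ C * ((X:ℝ) * (Real.log (Real.log (X:ℝ)))^2) := by
  obtain ⟨C, hC, h⟩ := Rea_eventually
  obtain ⟨X0, hX0⟩ := eventually_atTop.mp h
  refine ⟨C + (Rea X0).card, by positivity, ?_⟩
  intro X hX
  have hX' : (16:ℝ) ≤ X := by exact_mod_cast hX
  have hl := loglog_ge_one hX
  have hl2 : 1 ≤ (Real.log (Real.log (X:ℝ)))^2 := by nlinarith
  have hM : 1 ≤ (X:ℝ) * (Real.log (Real.log (X:ℝ)))^2 := by nlinarith
  by_cases hc : X0 ≤ X
  · have h1 := hX0 X hc
    have h2 : 0 ≤ ((Rea X0).card : ℝ) * ((X:ℝ) * (Real.log (Real.log (X:ℝ)))^2) := by positivity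
    rw [add_mul]
    linarith
  · have h1 : ((Rea X).card : ℝ) ≤ (Rea X0).card := by
      exact_mod_cast Rea_mono (by omega : X ≤ X0)
    have h2 : ((Rea X0).card : ℝ) ≤
        ((Rea X0).card : ℝ) * ((X:ℝ) * (Real.log (Real.log (X:ℝ)))^2) :=
      le_mul_of_one_le_right (by positivity) hM
    have h3 : 0 ≤ C * ((X:ℝ) * (Real.log (Real.log (X:ℝ)))^2) := by positivity
    rw [add_mul]
    linarith

theorem Adm_lower' : ∃ c : ℝ, 0 < c ∧ ∀ X : ℕ, 16 ≤ X →
    c * ((X:ℝ) * Real.log (X:ℝ)) ≤ ((Adm X).card : ℝ) := by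
  obtain ⟨X0, hX0⟩ := eventually_atTop.mp adm_lower
  set L := Real.log ((X0:ℝ) + 3) with hL
  have hL1 : 1 ≤ L := by
    rw [hL, Real.le_log_iff_exp_le (by positivity)]
    have := Real.exp_one_lt_d9
    have : (0:ℝ) ≤ X0 := by positivity
    linarith
  refine ⟨min (1/16) (1/(2*L)), by positivity, ?_⟩
  intro X hX
  have hX' : (16:ℝ) ≤ X := by exact_mod_cast hX
  have hlog : 0 ≤ Real.log (X:ℝ) := Real.log_nonneg (by linarith)
  have hM : 0 ≤ (X:ℝ) * Real.log (X:ℝ) := by positivity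
  by_cases hc : X0 ≤ X
  · have h1 := hX0 X hc
    exact (mul_le_mul_of_nonneg_right (min_le_left _ _) hM).trans h1
  · have h1 : Real.log (X:ℝ) ≤ L := by
      rw [hL]
      apply Real.log_le_log (by linarith)
      have : (X:ℝ) ≤ X0 := by exact_mod_cast (by omega : X ≤ X0)
      linarith
    have h2 : (X:ℝ) - 2 ≤ (Adm X).card := by
      have h3 := (Rea_lower X).trans (Rea_le_Adm X)
      have h4 : X ≤ (Adm X).card + 2 := by omega
      have h5 : (X:ℝ) ≤ (Adm X).card + 2 := by exact_mod_cast h4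
      linarith
    calc min (1/16) (1/(2*L)) * ((X:ℝ) * Real.log (X:ℝ)) ≤ (1/(2*L)) * ((X:ℝ) * L) := by
          apply mul_le_mul (min_le_right _ _) _ hM (by positivity)
          gcongr
      _ = X / 2 := by field_simp
      _ ≤ (Adm X).card := by linarith

theorem almost_linear :
    (∀ X, (admissibleTriples X).Finite) ∧ (∀ X, designTriples X ⊆ admissibleTriples X) ∧
    ∃ C c : ℝ, 0 < C ∧ 0 < c ∧ ∀ X : ℕ, 16 ≤ X →
      (X:ℝ) - 2 ≤ ((designTriples X).ncard : ℝ) ∧
      ((designTriples X).ncard : ℝ) ≤ C * (X * (Real.log (Real.log X))^2) ∧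
      c * (X * Real.log X) ≤ ((admissibleTriples X).ncard : ℝ) ∧
      ((designTriples X).ncard : ℝ) / ((admissibleTriples X).ncard : ℝ) ≤
        (C / c) * ((Real.log (Real.log X))^2 / Real.log X) := by
  refine ⟨density_zero.1, density_zero.2.1, ?_⟩
  obtain ⟨C, hC, h1⟩ := Rea_upper
  obtain ⟨c, hc, h2⟩ := Adm_lower'
  refine ⟨C, c, hC, hc, ?_⟩
  intro X hX
  simp only [adm_eq, des_eq, Set.ncard_coe_finset]
  have hX' : (16:ℝ) ≤ X := by exact_mod_cast hX
  have hlog : 0 < Real.log (X:ℝ) := Real.log_pos (by linarith)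
  refine ⟨?_, h1 X hX, h2 X hX, ?_⟩
  · have h4 : X ≤ (Rea X).card + 2 := by have := Rea_lower X; omega
    have h5 : (X:ℝ) ≤ (Rea X).card + 2 := by exact_mod_cast h4
    linarith
  · have h3 : 0 < c * ((X:ℝ) * Real.log X) := by positivity
    calc ((Rea X).card : ℝ) / ((Adm X).card : ℝ)
        ≤ (C * (X * (Real.log (Real.log X))^2)) / (c * (X * Real.log X)) :=
          div_le_div₀ (by positivity) (h1 X hX) h3 (h2 X hX)
      _ = (C / c) * ((Real.log (Real.log X))^2 / Real.log X) := by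
          field_simp

end Pool.Agent.H12
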